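import Mathlib

/-!
# Torus-invariant metrics on the three-sphere

Polar coordinates: a point is given by a real number `r` (distance coordinate along the geodesics
orthogonal to the orbits) and two angles `θ`, `φ`; the metric is
`dr² + f² dθ² + 2 f² h² k dθ dφ + h² dφ²`, with `f`, `h`, `k` functions of `r`.
-/

namespace TIS

open Real

/-- Profile of a smooth metric on the three-sphere which is invariant under the two-torus
(rotations of the angles `θ` and `φ`). The orbits are the tori `r = const`; the circles in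
direction `θ` collapse at the axis `r = 0` and the circles in direction `φ` at the axis `r = L`.
The squares of the norms of the two Killing fields are `f²` and `h²`, where `f` is odd at `0` and
even at `L`, `h` is even at `0` and odd at `L`, and `f'(0) = 1`, `h'(L) = -1`; their scalar product
is a smooth even function at both axes which vanishes there, so it is of the form `f² h² k` with `k`
smooth and even at both axes. All three functions are extended to the line. The metric is positive
definite: `(f h k)² < 1`. -/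
structure Profile (L : ℝ) (f h k : ℝ → ℝ) : Prop where
  L_pos : 0 < L
  smooth_f : ContDiff ℝ (⊤ : ℕ∞) f
  smooth_h : ContDiff ℝ (⊤ : ℕ∞) h
  smooth_k : ContDiff ℝ (⊤ : ℕ∞) k
  f_odd : ∀ r, f (-r) = - f r
  f_even : ∀ r, f (2 * L - r) = f r
  h_even : ∀ r, h (-r) = h r
  h_odd : ∀ r, h (2 * L - r) = - h r
  k_even : ∀ r, k (-r) = k r
  k_even' : ∀ r, k (2 * L - r) = k r
  f_pos : ∀ r, 0 < r → r ≤ L → 0 < f r
  h_pos : ∀ r, 0 ≤ r → r < L → 0 < h r
  deriv_zero : deriv f 0 = 1
  deriv_L : deriv h L = -1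
  definite : ∀ r, 0 ≤ r → r ≤ L → (f r * h r * k r) ^ 2 < 1

/-- `t ↦ (r t, θ t, φ t)` is a smooth unit speed geodesic of
`dr² + f² dθ² + 2 f² h² k dθ dφ + h² dφ²` (geodesic equations in the coordinates `r`, `θ`, `φ`; the
last two say that the momenta `f² (θ' + h² k φ')` and `h² (φ' + f² k θ')` are constant). -/
structure IsUnitGeodesic (f h k : ℝ → ℝ) (r θ φ : ℝ → ℝ) : Prop where
  smooth_r : ContDiff ℝ (⊤ : ℕ∞) r
  smooth_θ : ContDiff ℝ (⊤ : ℕ∞) θ
  smooth_φ : ContDiff ℝ (⊤ : ℕ∞) φ
  unit_speed : ∀ t, (deriv r t) ^ 2 + (f (r t)) ^ 2 * (deriv θ t) ^ 2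
      + 2 * ((f (r t)) ^ 2 * (h (r t)) ^ 2 * k (r t)) * (deriv θ t * deriv φ t)
      + (h (r t)) ^ 2 * (deriv φ t) ^ 2 = 1
  radial : ∀ t, deriv (deriv r) t = f (r t) * deriv f (r t) * (deriv θ t) ^ 2
      + deriv (fun x => (f x) ^ 2 * (h x) ^ 2 * k x) (r t) * (deriv θ t * deriv φ t)
      + h (r t) * deriv h (r t) * (deriv φ t) ^ 2
  angular_θ : ∀ t, f (r t) * deriv (fun s => deriv θ s + (h (r s)) ^ 2 * k (r s) * deriv φ s) t
      + 2 * deriv f (r t) * deriv r t * (deriv θ t + (h (r t)) ^ 2 * k (r t) * deriv φ t) = 0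
  angular_φ : ∀ t, h (r t) * deriv (fun s => deriv φ s + (f (r s)) ^ 2 * k (r s) * deriv θ s) t
      + 2 * deriv h (r t) * deriv r t * (deriv φ t + (f (r t)) ^ 2 * k (r t) * deriv θ t) = 0

/-- The point of the unit sphere of `ℂ²` (the three-sphere) with polar coordinates `(r, θ, φ)`;
the axes are `r = 0` and `r = L`. -/
noncomputable def spherePoint (L r θ φ : ℝ) : ℂ × ℂ :=
  (sin (π * r / (2 * L)) * Complex.exp (θ * Complex.I),
    cos (π * r / (2 * L)) * Complex.exp (φ * Complex.I))

/-- The geodesic `(r, θ, φ)` of the three-sphere with axis distance `L` closes after the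
time `T`. -/
def Closes (L : ℝ) (r θ φ : ℝ → ℝ) (T : ℝ) : Prop :=
  0 < T ∧ ∀ t, spherePoint L (r (t + T)) (θ (t + T)) (φ (t + T)) = spherePoint L (r t) (θ t) (φ t)

/-- The volume of the three-sphere for the metric `dr² + f² dθ² + 2 f² h² k dθ dφ + h² dφ²`. -/
noncomputable def vol (f h k : ℝ → ℝ) (L : ℝ) : ℝ :=
  ∫ r in (0 : ℝ)..L, 4 * π ^ 2 * (f r * h r * √(1 - (f r * h r * k r) ^ 2))

end TIS
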