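import Pool.Agent.TIS.Basic
import Pool.Agent.DWS.Vol

/-!
# The volume bounds the integral of the action
-/

namespace TIS

open Set MeasureTheory Real Filter Topology

/-- The area of a half disc, arbitrary centre and arbitrary interval. -/
lemma inner_shift {u v s K η : ℝ} (huv : u ≤ v) (hη : 0 < η) :
    ∫ d in u..v, √(K - (d - s) ^ 2 / η ^ 2) ≤ π / 2 * (η * max K 0) := by
  have hc : Continuous (fun t : ℝ => √(K - t ^ 2 / η ^ 2)) := by fun_prop
  have hii : ∀ x y, IntervalIntegrable (fun t : ℝ => √(K - t ^ 2 / η ^ 2)) volume x y :=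
    fun x y => hc.intervalIntegrable x y
  have e1 : ∫ d in u..v, √(K - (d - s) ^ 2 / η ^ 2)
      = ∫ t in (u - s)..(v - s), √(K - t ^ 2 / η ^ 2) :=
    intervalIntegral.integral_comp_sub_right (fun t : ℝ => √(K - t ^ 2 / η ^ 2)) s
  set R := |u - s| + |v - s| with hR
  have hR0 : 0 ≤ R := by positivity
  have h1 : -R ≤ u - s := by
    have := neg_abs_le (u - s)
    have := abs_nonneg (v - s)
    linarith
  have h2 : v - s ≤ R := by
    have := le_abs_self (v - s)
    have := abs_nonneg (u - s)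
    linarith
  have h3 : ∫ t in (u - s)..(v - s), √(K - t ^ 2 / η ^ 2)
      ≤ ∫ t in (-R)..R, √(K - t ^ 2 / η ^ 2) :=
    intervalIntegral.integral_mono_interval h1 (by linarith) h2
      (Eventually.of_forall fun x => Real.sqrt_nonneg _) (hii _ _)
  have h4 : ∫ t in (-R)..R, √(K - t ^ 2 / η ^ 2)
      = 2 * ∫ t in (0 : ℝ)..R, √(K - t ^ 2 / η ^ 2) := by
    rw [← intervalIntegral.integral_add_adjacent_intervals (hii (-R) 0) (hii 0 R)]
    have h5 := intervalIntegral.integral_comp_neg (a := 0) (b := R)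
      (fun t : ℝ => √(K - t ^ 2 / η ^ 2))
    rw [neg_zero] at h5
    simp only [neg_sq] at h5
    rw [← h5]
    ring
  have h5 := DWS.inner_d (k := K) hR0 hη
  rw [e1]
  linarith

/-- The lower bound for the integral of a function over a square. -/
lemma tri_lower {W : ℝ → ℝ → ℝ} {a μ : ℝ} (ha : 0 ≤ a)
    (hc2 : Continuous (Function.uncurry W)) (h0 : ∀ c d, 0 ≤ W c d)
    (hlow : ∀ c d, 0 ≤ c → 0 ≤ d → c + d ≤ a → μ ≤ 2 * W c d + π * (c + d)) :
    μ * a ^ 2 / 4 - π * a ^ 3 / 6 ≤ ∫ c in (0 : ℝ)..a, ∫ d in (0 : ℝ)..a, W c d := by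
  have hc3 : ∀ c, Continuous (fun d => W c d) := fun c =>
    hc2.comp (f := fun d : ℝ => (c, d)) (by fun_prop)
  have hWint : IntervalIntegrable (fun c => ∫ d in (0 : ℝ)..a, W c d) volume 0 a :=
    (intervalIntegral.continuous_parametric_intervalIntegral_of_continuous'
      hc2 0 a).intervalIntegrable 0 a
  have hinner : ∀ c ∈ Icc 0 a, (μ / 2 - π * c / 2) * (a - c) - π * (a - c) ^ 2 / 4
      ≤ ∫ d in (0 : ℝ)..a, W c d := by
    intro c hc0
    have hac : 0 ≤ a - c := by linarith [hc0.2]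
    have h1 : ∫ d in (0 : ℝ)..(a - c), (μ / 2 - π * c / 2 - π / 2 * d)
        ≤ ∫ d in (0 : ℝ)..(a - c), W c d := by
      refine intervalIntegral.integral_mono_on hac (Continuous.intervalIntegrable (by fun_prop) _ _)
        ((hc3 c).intervalIntegrable _ _) ?_
      intro d hd
      have := hlow c d hc0.1 hd.1 (by linarith [hd.2])
      linarith
    have h2 : ∫ d in (0 : ℝ)..(a - c), W c d ≤ ∫ d in (0 : ℝ)..a, W c d :=
      intervalIntegral.integral_mono_interval le_rfl hac (by linarith [hc0.1])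
        (Eventually.of_forall fun d => h0 c d) ((hc3 c).intervalIntegrable _ _)
    have h3 : ∫ d in (0 : ℝ)..(a - c), (μ / 2 - π * c / 2 - π / 2 * d)
        = (μ / 2 - π * c / 2) * (a - c) - π * (a - c) ^ 2 / 4 := by
      rw [intervalIntegral.integral_sub (by simp) (Continuous.intervalIntegrable (by fun_prop) _ _),
        intervalIntegral.integral_const, intervalIntegral.integral_const_mul, integral_id]
      simp only [smul_eq_mul]
      ring
    linarith
  have h4 : ∫ c in (0 : ℝ)..a, ((μ / 2 - π * c / 2) * (a - c) - π * (a - c) ^ 2 / 4)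
      ≤ ∫ c in (0 : ℝ)..a, ∫ d in (0 : ℝ)..a, W c d :=
    intervalIntegral.integral_mono_on ha (Continuous.intervalIntegrable (by fun_prop) _ _) hWint
      hinner
  have h5 : ∫ c in (0 : ℝ)..a, ((μ / 2 - π * c / 2) * (a - c) - π * (a - c) ^ 2 / 4)
      = μ * a ^ 2 / 4 - π * a ^ 3 / 6 := by
    have hder : ∀ c ∈ uIcc 0 a, HasDerivAt (fun c => μ / 2 * (a * c - c ^ 2 / 2)
        - π / 2 * (a * c ^ 2 / 2 - c ^ 3 / 3) + π * (a - c) ^ 3 / 12)
        ((μ / 2 - π * c / 2) * (a - c) - π * (a - c) ^ 2 / 4) c := by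
      intro c _
      have k1 : HasDerivAt (fun c : ℝ => a * c - c ^ 2 / 2) (a - c) c := by
        have := ((hasDerivAt_id c).const_mul a).sub (((hasDerivAt_id c).pow 2).div_const 2)
        refine this.congr_deriv ?_
        simp
      have k2 : HasDerivAt (fun c : ℝ => a * c ^ 2 / 2 - c ^ 3 / 3) (a * c - c ^ 2) c := by
        have := ((((hasDerivAt_id c).pow 2).const_mul a).div_const 2).sub
          (((hasDerivAt_id c).pow 3).div_const 3)
        refine this.congr_deriv ?_
        simp only [id, Nat.cast_ofNat]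
        ring
      have k3 : HasDerivAt (fun c : ℝ => π * (a - c) ^ 3 / 12) (-(π * (a - c) ^ 2 / 4)) c := by
        have := (((((hasDerivAt_id c).const_sub a).pow 3).const_mul π).div_const 12)
        refine this.congr_deriv ?_
        simp only [id, Nat.cast_ofNat]
        ring
      refine (((k1.const_mul (μ / 2)).sub (k2.const_mul (π / 2))).add k3).congr_deriv ?_
      ring
    rw [intervalIntegral.integral_eq_sub_of_hasDerivAt hder
      (Continuous.intervalIntegrable (by fun_prop) _ _)]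
    ring
  linarith

section
variable {L : ℝ} {f h k : ℝ → ℝ}

lemma pot_square {c d x : ℝ} (hf : f x ≠ 0) (hh : h x ≠ 0) (hw : 0 < ww f h k x) :
    pot f h k c d x = (1 - c ^ 2 / f x ^ 2)
      - (d - k x * c * h x ^ 2) ^ 2 / (h x * √(ww f h k x)) ^ 2 := by
  have hw' := hw.ne'
  rw [mul_pow, Real.sq_sqrt hw.le]
  unfold pot nrm
  have e : c ^ 2 / f x ^ 2 + (d - k x * c * h x ^ 2) ^ 2 / (h x ^ 2 * ww f h k x)
      = (c ^ 2 / f x ^ 2 - 2 * k x * (c * d) + d ^ 2 / h x ^ 2) / ww f h k x := by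
    rw [eq_div_iff hw']
    have e2 : (c ^ 2 / f x ^ 2 + (d - k x * c * h x ^ 2) ^ 2 / (h x ^ 2 * ww f h k x))
        * ww f h k x = c ^ 2 / f x ^ 2 * ww f h k x
        + (d - k x * c * h x ^ 2) ^ 2 / h x ^ 2 := by
      field_simp
    rw [e2]
    unfold ww
    field_simp
    ring
  rw [← e]
  ring

lemma Profile.act_cont' (H : Profile L f h k) :
    Continuous (Function.uncurry fun c d => act f h k c d 0 L) :=
  H.act_cont.comp (f := fun p : ℝ × ℝ => (p, ((0 : ℝ), L))) (by fun_prop)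

lemma Profile.act_cont'' (H : Profile L f h k) :
    Continuous (Function.uncurry fun c d => act f h k c (-d) 0 L) :=
  H.act_cont.comp (f := fun p : ℝ × ℝ => ((p.1, -p.2), ((0 : ℝ), L))) (by fun_prop)

/-- The integral of the action over a rectangle of momenta. -/
lemma Profile.total_le (H : Profile L f h k) {a : ℝ} (ha : 0 ≤ a) :
    (∫ c in (0 : ℝ)..a, ∫ d in (0 : ℝ)..a, act f h k c d 0 L)
      + (∫ c in (0 : ℝ)..a, ∫ d in (0 : ℝ)..a, act f h k c (-d) 0 L)
      ≤ π / 3 * ∫ x in (0 : ℝ)..L, f x * h x * √(ww f h k x) := by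
  have hπ := pi_pos
  have hL := H.L_pos.le
  have hf := H.fc.measurable
  have hh := H.hc.measurable
  have hk := H.kc.measurable
  have hw := H.ww_cont.measurable
  have hgc : Continuous (fun x => h x * √(ww f h k x)) := H.hc.mul H.ww_cont.sqrt
  have hgm : Measurable (fun x => h x * √(ww f h k x)) := hgc.measurable
  set g : ℝ → ℝ := fun x => h x * √(ww f h k x) with hg
  have hg0 : ∀ x ∈ Icc 0 L, 0 ≤ g x := fun x hx =>
    mul_nonneg (H.h_nonneg hx.1 hx.2) (Real.sqrt_nonneg _)
  obtain ⟨M, hM⟩ : ∃ M, ∀ x ∈ Icc 0 L, g x ≤ M := by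
    obtain ⟨z, _, hz⟩ := isCompact_Icc.exists_isMaxOn (nonempty_Icc.2 hL)
      (hgc.continuousOn (s := Icc 0 L))
    exact ⟨g z, fun x hx => hz hx⟩
  -- inner swap
  have s1 : ∀ c : ℝ, (∫ d in (0 : ℝ)..a, act f h k c d 0 L)
      + (∫ d in (0 : ℝ)..a, act f h k c (-d) 0 L)
      ≤ ∫ x in (0 : ℝ)..L, π / 2 * (g x * max (1 - c ^ 2 / f x ^ 2) 0) := by
    intro c
    have hmeas : Measurable (Function.uncurry fun d x => √(min 1 (pot f h k c d x))) := by
      unfold pot nrm Function.uncurry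
      fun_prop
    have hmeas' : Measurable (Function.uncurry fun d x => √(min 1 (pot f h k c (-d) x))) := by
      unfold pot nrm Function.uncurry
      fun_prop
    obtain ⟨e1, _, e3⟩ := DWS.swap_int (F := fun d x => √(min 1 (pot f h k c d x))) (M := 1) ha hL
      hmeas (fun d _ x _ => by rw [abs_of_nonneg (Real.sqrt_nonneg _)]; exact sqm_le_one)
    obtain ⟨e1', _, e3'⟩ := DWS.swap_int (F := fun d x => √(min 1 (pot f h k c (-d) x)))
      (M := 1) ha hL hmeas'
      (fun d _ x _ => by rw [abs_of_nonneg (Real.sqrt_nonneg _)]; exact sqm_le_one)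
    unfold act
    rw [e1, e1', ← intervalIntegral.integral_add e3 e3']
    refine intervalIntegral.integral_mono_on_of_le_Ioo hL (e3.add e3') ?_ ?_
    · refine (intervalIntegrable_const (c := π / 2 * M)).mono_fun
        (by exact Measurable.aestronglyMeasurable (by fun_prop)) ?_
      rw [uIoc_of_le hL]
      filter_upwards [ae_restrict_mem measurableSet_Ioc] with x hx
      have h0 := hg0 x ⟨hx.1.le, hx.2⟩
      have h1 := hM x ⟨hx.1.le, hx.2⟩
      have h2 : max (1 - c ^ 2 / f x ^ 2) 0 ≤ 1 := by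
        apply max_le _ zero_le_one
        have : 0 ≤ c ^ 2 / f x ^ 2 := by positivity
        linarith
      have h3 : 0 ≤ max (1 - c ^ 2 / f x ^ 2) 0 := le_max_right _ _
      rw [Real.norm_of_nonneg (by positivity), Real.norm_of_nonneg (by
        have : 0 ≤ M := h0.trans h1
        positivity)]
      have h4 : g x * max (1 - c ^ 2 / f x ^ 2) 0 ≤ M * 1 := mul_le_mul h1 h2 h3 (h0.trans h1)
      rw [mul_one] at h4
      exact mul_le_mul_of_nonneg_left h4 (by positivity)
    · intro x hx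
      have hx0 : x ∈ Ioo 0 L := hx
      have hsw : 0 < √(ww f h k x) := Real.sqrt_pos.2 (H.ww_pos x)
      have hgx : 0 < g x := mul_pos (H.h_pos x hx.1.le hx.2) hsw
      have e4 : ∀ d, √(min 1 (pot f h k c d x))
          = √((1 - c ^ 2 / f x ^ 2) - (d - k x * c * h x ^ 2) ^ 2 / g x ^ 2) := fun d => by
        rw [H.min_eq hx0, pot_square (H.fne hx0) (H.hne hx0) (H.ww_pos x)]
      have hc : Continuous (fun d : ℝ =>
          √((1 - c ^ 2 / f x ^ 2) - (d - k x * c * h x ^ 2) ^ 2 / g x ^ 2)) := by fun_prop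
      have e5 : (∫ d in (0 : ℝ)..a, √(min 1 (pot f h k c d x)))
          + (∫ d in (0 : ℝ)..a, √(min 1 (pot f h k c (-d) x)))
          = ∫ d in (-a)..a, √((1 - c ^ 2 / f x ^ 2) - (d - k x * c * h x ^ 2) ^ 2 / g x ^ 2) := by
        simp only [e4]
        have h5 := intervalIntegral.integral_comp_neg (a := 0) (b := a) (fun d : ℝ =>
          √((1 - c ^ 2 / f x ^ 2) - (d - k x * c * h x ^ 2) ^ 2 / g x ^ 2))
        rw [neg_zero] at h5
        rw [h5, ← intervalIntegral.integral_add_adjacent_intervals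
          (hc.intervalIntegrable (-a) 0) (hc.intervalIntegrable 0 a)]
        ring
      rw [e5]
      exact inner_shift (by linarith) hgx
  -- outer swap
  have hmeas2 : Measurable
      (Function.uncurry fun c x => π / 2 * (g x * max (1 - c ^ 2 / f x ^ 2) 0)) := by
    unfold Function.uncurry
    fun_prop
  obtain ⟨e1, e2, e3⟩ := DWS.swap_int (F := fun c x => π / 2 * (g x * max (1 - c ^ 2 / f x ^ 2) 0))
    (M := π / 2 * M) ha hL hmeas2 (fun c _ x hx => by
      have h0 := hg0 x ⟨hx.1.le, hx.2⟩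
      have h1 := hM x ⟨hx.1.le, hx.2⟩
      have h2 : max (1 - c ^ 2 / f x ^ 2) 0 ≤ 1 := by
        apply max_le _ zero_le_one
        have : 0 ≤ c ^ 2 / f x ^ 2 := by positivity
        linarith
      have h3 : 0 ≤ max (1 - c ^ 2 / f x ^ 2) 0 := le_max_right _ _
      rw [abs_of_nonneg (by positivity)]
      have h4 : g x * max (1 - c ^ 2 / f x ^ 2) 0 ≤ M * 1 := mul_le_mul h1 h2 h3 (h0.trans h1)
      rw [mul_one] at h4
      exact mul_le_mul_of_nonneg_left h4 (by positivity))
  have hW1 : IntervalIntegrable (fun c => ∫ d in (0 : ℝ)..a, act f h k c d 0 L) volume 0 a :=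
    (intervalIntegral.continuous_parametric_intervalIntegral_of_continuous'
      H.act_cont' 0 a).intervalIntegrable 0 a
  have hW2 : IntervalIntegrable (fun c => ∫ d in (0 : ℝ)..a, act f h k c (-d) 0 L) volume 0 a :=
    (intervalIntegral.continuous_parametric_intervalIntegral_of_continuous'
      H.act_cont'' 0 a).intervalIntegrable 0 a
  calc (∫ c in (0 : ℝ)..a, ∫ d in (0 : ℝ)..a, act f h k c d 0 L)
      + (∫ c in (0 : ℝ)..a, ∫ d in (0 : ℝ)..a, act f h k c (-d) 0 L)
      = ∫ c in (0 : ℝ)..a, ((∫ d in (0 : ℝ)..a, act f h k c d 0 L)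
        + ∫ d in (0 : ℝ)..a, act f h k c (-d) 0 L) :=
        (intervalIntegral.integral_add hW1 hW2).symm
    _ ≤ ∫ c in (0 : ℝ)..a, ∫ x in (0 : ℝ)..L, π / 2 * (g x * max (1 - c ^ 2 / f x ^ 2) 0) :=
        intervalIntegral.integral_mono_on ha (hW1.add hW2) e2 (fun c _ => s1 c)
    _ = ∫ x in (0 : ℝ)..L, ∫ c in (0 : ℝ)..a, π / 2 * (g x * max (1 - c ^ 2 / f x ^ 2) 0) := e1
    _ ≤ ∫ x in (0 : ℝ)..L, π / 3 * (f x * h x * √(ww f h k x)) := by
        refine intervalIntegral.integral_mono_on_of_le_Ioo hL e3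
          (Continuous.intervalIntegrable
            (continuous_const.mul ((H.fc.mul H.hc).mul H.ww_cont.sqrt)) _ _) ?_
        intro x hx
        have hfx := H.f_pos x hx.1 hx.2.le
        have hgx := hg0 x ⟨hx.1.le, hx.2.le⟩
        simp only [intervalIntegral.integral_const_mul]
        have := DWS.inner_c (F := f x) ha hfx
        calc π / 2 * (g x * ∫ c in (0 : ℝ)..a, max (1 - c ^ 2 / f x ^ 2) 0)
            ≤ π / 2 * (g x * (2 / 3 * f x)) := by gcongr
          _ = π / 3 * (f x * h x * √(ww f h k x)) := by rw [hg]; ring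
    _ = π / 3 * ∫ x in (0 : ℝ)..L, f x * h x * √(ww f h k x) :=
        intervalIntegral.integral_const_mul _ _

end

end TIS
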