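import Pool.Agent.TIS.Closed
import Pool.Agent.TIS.Vol

/-!
# The sharp inequality
-/

namespace TIS

open Set MeasureTheory Real Filter Topology

section
variable {L : ℝ} {f h k : ℝ → ℝ}

/-- The functional is larger than `π a`. -/
lemma Ctx.lower {a b B : ℝ} {M : ℤ} (C : Ctx L f h k a b B M)
    (hlong : ∀ (r θ φ : ℝ → ℝ) (T : ℝ), IsUnitGeodesic f h k r θ φ → Closes L r θ φ T →
      2 * π * a < T) :
    ∃ μ, π * a < μ ∧ ∀ c d, 0 ≤ c → 0 ≤ d → c + d ≤ a →
      μ ≤ 2 * act f h k c d 0 L + π * (c + d) ∧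
      μ ≤ 2 * act f h k c (-d) 0 L + π * (c + d) := by
  have hπ := pi_pos
  have H := C.H
  obtain ⟨σ, m, n, c, d, α, β, hA, hmin⟩ := C.exists_min
  refine ⟨fun1 f h k m n c d α β, ?_, fun c' d' h1 h2 h3 => ?_⟩
  swap
  · obtain ⟨A1, A2⟩ := C.adm_full h1 h2 h3
    have k1 := hmin _ _ _ _ _ _ _ A1
    have k2 := hmin _ _ _ _ _ _ _ A2
    unfold fun1 at k1 k2 ⊢
    push_cast at k1 k2
    constructor
    · have e : (1 : ℝ) * c' + 1 * d' = c' + d' := by ring
      rw [e] at k1
      exact k1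
    · have e : (1 : ℝ) * c' + -1 * -d' = c' + d' := by ring
      rw [e] at k2
      exact k2
  by_contra hcon
  push Not at hcon
  by_cases hcd : c = 0 ∧ d = 0
  · -- no momentum: the meridian
    obtain ⟨hc0, hd0⟩ := hcd
    subst hc0
    subst hd0
    have hb := C.hb
    have hbL := C.hbL
    have hpol : ∀ x, pol f h k 0 0 x = -(f x ^ 2 * h x ^ 2 * ww f h k x) := by
      intro x; unfold pol num; ring
    have h1 : α = 0 := by
      rcases eq_or_lt_of_le hA.hα with h3 | h3
      · exact h3.symm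
      · exfalso
        have h4 := hA.pα
        rw [hpol] at h4
        have h5 := H.f_pos α h3 (hA.hαβ.trans hA.hβ)
        have h6 := H.h_pos α hA.hα (by linarith [hA.hbα])
        have h7 := H.ww_pos α
        have : 0 < f α ^ 2 * h α ^ 2 * ww f h k α := by positivity
        linarith
    have h2 : β = L := by
      rcases eq_or_lt_of_le hA.hβ with h3 | h3
      · exact h3
      · exfalso
        have h4 := hA.pβ
        rw [hpol] at h4
        have h5 := H.f_pos β (by linarith [hA.hbβ]) h3.le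
        have h6 := H.h_pos β (by linarith [hA.hbβ]) h3
        have h7 := H.ww_pos β
        have : 0 < f β ^ 2 * h β ^ 2 * ww f h k β := by positivity
        linarith
    have h3 : fun1 f h k m n 0 0 α β = 2 * L := by
      unfold fun1 act
      rw [h1, h2]
      have : (fun x => √(min 1 (pot f h k 0 0 x))) = fun _ => 1 := by
        funext x; unfold pot nrm; simp
      rw [this]
      simp
    have h4 := hlong _ _ _ _ (geodesic_meridian f h k) (meridian_closes H.L_pos)
    rw [h3] at hcon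
    linarith
  · have hcd' : c ≠ 0 ∨ d ≠ 0 := by
      by_contra h0
      push Not at h0
      exact hcd h0
    obtain ⟨α', β', h1, h2, h3, hA', hin⟩ := C.find_well hA
    have hle : fun1 f h k m n c d α' β' ≤ fun1 f h k m n c d α β := by
      unfold fun1
      have := H.act_mono (c := c) (d := d) h1 h2.le h3
      linarith
    have hact : 0 < act f h k c d α' β' := by
      rw [H.act_eq _ _ hA'.hα h2.le hA'.hβ]
      refine intervalIntegral.intervalIntegral_pos_of_pos_on (H.ii _ _ hA'.hα h2.le hA'.hβ) ?_ h2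
      intro x hx
      have hx0 : x ∈ Ioo 0 L := ⟨hA'.hα.trans_lt hx.1, hx.2.trans_le hA'.hβ⟩
      exact Real.sqrt_pos.2 ((pot_pos_iff (H.fne hx0) (H.hne hx0) (H.ww_pos x)).2 (hin x hx))
    have hlt : (m : ℝ) * c + n * d < a := by
      have h5 := hle.trans hcon
      unfold fun1 at h5
      have h6 : π * ((m : ℝ) * c + n * d) < π * a := by linarith
      exact lt_of_mul_lt_mul_left h6 hπ.le
    have r : Cr L f h k a b B M σ m n c d α' β' :=
      ⟨C, hA', fun _ _ _ _ _ _ _ h7 => hle.trans (hmin _ _ _ _ _ _ _ h7), h2, hin, hlt, hcd'⟩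
    obtain ⟨ρ, θ, φ, T, g1, g2, g3⟩ := r.closed
    have h8 := hlong ρ θ φ T g1 g2
    rw [g3] at h8
    have := hle.trans hcon
    linarith

/-- Every metric on the three-sphere which is invariant under the torus has a closed geodesic of
length `T` with `T³ ≤ 4 π vol`. -/
theorem main (H : Profile L f h k) : ∃ (r θ φ : ℝ → ℝ) (T : ℝ), IsUnitGeodesic f h k r θ φ ∧
    Closes L r θ φ T ∧ T ^ 3 ≤ 4 * π * vol f h k L := by
  by_contra hcon
  push Not at hcon
  have hL := H.L_pos
  have hπ := pi_pos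
  set V := vol f h k L with hV
  set I := ∫ x in (0 : ℝ)..L, f x * h x * √(ww f h k x) with hI
  have hVeq : V = 4 * π ^ 2 * I := by
    rw [hV, vol, intervalIntegral.integral_const_mul]
    rfl
  have hIpos : 0 < I := by
    refine intervalIntegral.intervalIntegral_pos_of_pos_on
      (Continuous.intervalIntegrable ((H.fc.mul H.hc).mul H.ww_cont.sqrt) _ _) ?_ hL
    intro x hx
    exact mul_pos (mul_pos (H.f_pos x hx.1 hx.2.le) (H.h_pos x hx.1.le hx.2))
      (Real.sqrt_pos.2 (H.ww_pos x))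
  have hVpos : 0 < V := by rw [hVeq]; positivity
  obtain ⟨l, hl, hl3⟩ : ∃ l : ℝ, 0 < l ∧ l ^ 3 = 4 * π * V := by
    have h0 : 0 < 4 * π * V := by positivity
    refine ⟨(4 * π * V) ^ ((1 : ℝ) / 3), Real.rpow_pos_of_pos h0 _, ?_⟩
    rw [← Real.rpow_natCast, ← Real.rpow_mul h0.le]
    norm_num
  set a := l / (2 * π) with ha
  have hapos : 0 < a := by positivity
  have hla : l = 2 * π * a := by rw [ha]; field_simp
  have hlong : ∀ (r θ φ : ℝ → ℝ) (T : ℝ), IsUnitGeodesic f h k r θ φ → Closes L r θ φ T →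
      2 * π * a < T := by
    intro r θ φ T h1 h2
    have h3 := hcon r θ φ T h1 h2
    rw [← hl3, hla] at h3
    exact lt_of_pow_lt_pow_left₀ 3 h2.1.le h3
  obtain ⟨b, B, M, C⟩ := H.exists_ctx hapos (fun m n hm hn => H.rho_bound hapos hlong m n hm hn)
  obtain ⟨μ, hμ, hlow⟩ := C.lower hlong
  have t1 := tri_lower (W := fun c d => act f h k c d 0 L) hapos.le H.act_cont'
    (fun c d => act_nonneg hL.le) (fun c d h1 h2 h3 => (hlow c d h1 h2 h3).1)
  have t2 := tri_lower (W := fun c d => act f h k c (-d) 0 L) hapos.le H.act_cont''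
    (fun c d => act_nonneg hL.le) (fun c d h1 h2 h3 => (hlow c d h1 h2 h3).2)
  have h1 := H.total_le hapos.le
  rw [← hI] at h1
  -- `I > a³ / 2`
  have h2 : π * a * a ^ 2 / 4 < μ * a ^ 2 / 4 := by
    have : 0 < a ^ 2 := by positivity
    nlinarith
  have h3 : π * (a ^ 3 / 12) < π * (I / 6) := by nlinarith
  have h4 : a ^ 3 / 12 < I / 6 := lt_of_mul_lt_mul_left h3 hπ.le
  have h5 : l ^ 3 = 8 * π ^ 3 * a ^ 3 := by rw [hla]; ring
  have h6 : 4 * π * V = 16 * π ^ 3 * I := by rw [hVeq]; ring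
  rw [h5, h6] at hl3
  have h7 : 0 < π ^ 3 := by positivity
  nlinarith

end

end TIS
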