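import Pool.Agent.TIS.Basic
import Pool.Agent.DWS.Sharp

/-!
# The round sphere
-/

namespace TIS

open Set MeasureTheory Real Filter Topology

lemma round_profile : Profile (π / 2) sin cos (fun _ => 0) := by
  have H := DWS.round_profile
  refine ⟨H.L_pos, H.smooth_f, H.smooth_h, contDiff_const, H.f_odd, H.f_even, H.h_even, H.h_odd,
    fun _ => rfl, fun _ => rfl, H.f_pos, H.h_pos, H.deriv_zero, H.deriv_L, fun r _ _ => ?_⟩
  simp

lemma round_vol : vol sin cos (fun _ => 0) (π / 2) = 2 * π ^ 2 := by
  rw [← DWS.round_vol]
  unfold vol DWS.vol
  simp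

/-- On the round sphere every closed geodesic has length at least `2 π`. -/
lemma round_length {r θ φ : ℝ → ℝ} {T : ℝ} (g : IsUnitGeodesic sin cos (fun _ => 0) r θ φ)
    (hT : Closes (π / 2) r θ φ T) : 2 * π ≤ T := by
  have g' : DWS.IsUnitGeodesic sin cos r θ φ := by
    refine ⟨g.smooth_r, g.smooth_θ, g.smooth_φ, ?_, ?_, ?_, ?_⟩
    · intro t
      have := g.unit_speed t
      simp only [mul_zero, zero_mul, add_zero] at this
      exact this
    · intro t
      have := g.radial t
      simp only [mul_zero, deriv_const, zero_mul, add_zero] at this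
      exact this
    · intro t
      have := g.angular_θ t
      simp only [mul_zero, zero_mul, add_zero] at this
      exact this
    · intro t
      have := g.angular_φ t
      simp only [mul_zero, zero_mul, add_zero] at this
      exact this
  exact DWS.round_length g' hT

end TIS
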