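import Pool.Agent.TIS.Basic

/-!
# Admissible data, existence of the minimum, wells
-/

namespace TIS

open Set MeasureTheory Real Filter Topology

/-- The constants. -/
structure Ctx (L : ℝ) (f h k : ℝ → ℝ) (a b B : ℝ) (M : ℤ) : Prop where
  H : Profile L f h k
  ha : 0 < a
  hb : 0 < b
  hbL : 2 * b < L
  rho : ∀ m n : ℤ, Odd m → Odd n → ∀ x ∈ Icc 0 L, a ^ 2 < X2 f h k m n x
  hM1 : ∀ x ∈ Icc 0 L, |h x ^ 2 * k x| + 3 ≤ M
  hM2 : ∀ x ∈ Icc 0 L, |f x ^ 2 * k x| + 3 ≤ M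
  hBf : ∀ x ∈ Icc 0 L, f x < B
  hBh : ∀ x ∈ Icc 0 L, h x < B
  hBa : a < B
  q0 : ∀ m n : ℤ, Odd m → Odd n → |m| ≤ M → |n| ≤ M → ∀ c d : ℝ, |c| ≤ B → |d| ≤ B →
    |m * c + n * d| ≤ a → ∀ x ∈ Ioc 0 b, 0 ≤ pol f h k c d x → ∀ y ∈ Icc 0 x,
      0 < Nn f h k m n c d x * Nn f h k m n c d y
  qL : ∀ m n : ℤ, Odd m → Odd n → |m| ≤ M → |n| ≤ M → ∀ c d : ℝ, |c| ≤ B → |d| ≤ B →
    |m * c + n * d| ≤ a → ∀ x ∈ Ico (L - b) L, 0 ≤ pol f h k c d x → ∀ y ∈ Icc x L,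
      0 < Nn f h k m n c d x * Nn f h k m n c d y

/-- Admissible data: orientation `σ`, type `(m, n)`, momenta `c, d` and an interval `[α, β]`. -/
structure Adm (L : ℝ) (f h k : ℝ → ℝ) (a b B : ℝ) (M : ℤ) (σ m n : ℤ) (c d α β : ℝ) : Prop where
  hσ : σ = 1 ∨ σ = -1
  hm : Odd m
  hn : Odd n
  hmM : |m| ≤ M
  hnM : |n| ≤ M
  hc : |c| ≤ B
  hd : |d| ≤ B
  ct0 : 0 ≤ m * c + n * d
  ct1 : m * c + n * d ≤ a
  hα : 0 ≤ α
  hαβ : α ≤ β
  hβ : β ≤ L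
  hbβ : b ≤ β
  hbα : α ≤ L - b
  pα : 0 ≤ pol f h k c d α
  pβ : 0 ≤ pol f h k c d β
  Nα : 0 ≤ σ * Nn f h k m n c d α
  Nβ : σ * Nn f h k m n c d β ≤ 0

section
variable {L : ℝ} {f h k : ℝ → ℝ} {a b B : ℝ} {M σ m n : ℤ} {c d α β : ℝ}

lemma Adm.ct_abs (A : Adm L f h k a b B M σ m n c d α β) : |(m : ℝ) * c + n * d| ≤ a := by
  rw [abs_of_nonneg A.ct0]; exact A.ct1

lemma Ctx.Nne (C : Ctx L f h k a b B M) (hm : Odd m) (hn : Odd n)
    (hct : |(m : ℝ) * c + n * d| ≤ a) {x : ℝ} (hx : x ∈ Ioo 0 L) (hp : 0 ≤ pol f h k c d x) :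
    Nn f h k m n c d x ≠ 0 :=
  Nn_ne (C.H.fne hx) (C.H.hne hx) (C.H.ww_pos x) hct (C.rho m n hm hn x ⟨hx.1.le, hx.2.le⟩) hp

lemma Nn_zero (H : Profile L f h k) (m n c d : ℝ) : Nn f h k m n c d 0 = c * (h 0 ^ 2 * n) := by
  unfold Nn; rw [H.f_zero]; ring

lemma Nn_L (H : Profile L f h k) (m n c d : ℝ) : Nn f h k m n c d L = -(d * (f L ^ 2 * m)) := by
  unfold Nn; rw [H.h_L]; ring

lemma pol_zero (H : Profile L f h k) (c d : ℝ) : pol f h k c d 0 = c ^ 2 * h 0 ^ 2 := by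
  unfold pol num; rw [H.f_zero]; ring

lemma pol_L (H : Profile L f h k) (c d : ℝ) : pol f h k c d L = d ^ 2 * f L ^ 2 := by
  unfold pol num; rw [H.h_L]; ring

lemma odd_ne {j : ℤ} (hj : Odd j) : (j : ℝ) ≠ 0 := by
  intro h0
  have : j = 0 := by exact_mod_cast h0
  rw [this] at hj
  exact absurd hj (by decide)

lemma odd_abs {j : ℤ} (hj : Odd j) : (1 : ℝ) ≤ |(j : ℝ)| := by
  have h1 : j ≠ 0 := by
    intro h0
    rw [h0] at hj
    exact absurd hj (by decide)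
  have h2 : 1 ≤ |j| := Int.one_le_abs h1
  exact_mod_cast h2

/-- The momenta of admissible data are strictly bounded. -/
lemma Ctx.bound (C : Ctx L f h k a b B M) (A : Adm L f h k a b B M σ m n c d α β) :
    |c| < B ∧ |d| < B := by
  have H := C.H
  have hcont := H.Nn_cont m n c d
  have hB0 : 0 < B := C.ha.trans C.hBa
  obtain ⟨ρ, hρ, h0⟩ : ∃ ρ ∈ Icc α β, Nn f h k m n c d ρ = 0 := by
    have hc2 : Continuous (fun x => (σ : ℝ) * Nn f h k m n c d x) := continuous_const.mul hcont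
    have h1 := intermediate_value_Icc' A.hαβ hc2.continuousOn
    obtain ⟨ρ, h2, h3⟩ := h1 ⟨A.Nβ, A.Nα⟩
    refine ⟨ρ, h2, ?_⟩
    have h4 : (σ : ℝ) ≠ 0 := by
      rcases A.hσ with h5 | h5 <;> rw [h5] <;> norm_num
    exact (mul_eq_zero.1 h3).resolve_left h4
  have hρ0 : 0 ≤ ρ := A.hα.trans hρ.1
  have hρL : ρ ≤ L := hρ.2.trans A.hβ
  rcases eq_or_lt_of_le hρ0 with h1 | h1
  · rw [← h1, Nn_zero H] at h0
    have hh0 := H.h_pos 0 le_rfl H.L_pos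
    have hc0 : c = 0 := by
      rcases mul_eq_zero.1 h0 with h2 | h2
      · exact h2
      · exact absurd h2 (mul_ne_zero (by positivity) (odd_ne A.hn))
    have h3 := A.ct_abs
    rw [hc0, mul_zero, zero_add, abs_mul] at h3
    have h4 := odd_abs A.hn
    have h5 : |d| ≤ a := by nlinarith [abs_nonneg d]
    rw [hc0, abs_zero]
    exact ⟨hB0, h5.trans_lt C.hBa⟩
  rcases eq_or_lt_of_le hρL with h2 | h2
  · rw [h2, Nn_L H] at h0
    have hf0 := H.f_pos L H.L_pos le_rfl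
    have hd0 : d = 0 := by
      rcases mul_eq_zero.1 (neg_eq_zero.1 h0) with h3 | h3
      · exact h3
      · exact absurd h3 (mul_ne_zero (by positivity) (odd_ne A.hm))
    have h3 := A.ct_abs
    rw [hd0, mul_zero, add_zero, abs_mul] at h3
    have h4 := odd_abs A.hm
    have h5 : |c| ≤ a := by nlinarith [abs_nonneg c]
    rw [hd0, abs_zero]
    exact ⟨h5.trans_lt C.hBa, hB0⟩
  · obtain ⟨h3, h4⟩ := pol_neg_of_Nn (H.fne ⟨h1, h2⟩) (H.hne ⟨h1, h2⟩) (H.ww_pos ρ) A.ct_abs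
      (C.rho m n A.hm A.hn ρ ⟨hρ0, hρL⟩) h0
    have hf := H.f_pos ρ h1 hρL
    have hh := H.h_pos ρ hρ0 h2
    constructor
    · have : |c| < f ρ := abs_lt_of_sq_lt_sq h3 hf.le
      exact this.trans (C.hBf ρ ⟨hρ0, hρL⟩)
    · have : |d| < h ρ := abs_lt_of_sq_lt_sq h4 hh.le
      exact this.trans (C.hBh ρ ⟨hρ0, hρL⟩)

/-- The whole interval is admissible (two quadrants of momenta). -/
lemma Ctx.adm_full (C : Ctx L f h k a b B M) (hc : 0 ≤ c) (hd : 0 ≤ d) (hcd : c + d ≤ a) :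
    Adm L f h k a b B M 1 1 1 c d 0 L ∧ Adm L f h k a b B M (-1) 1 (-1) c (-d) 0 L := by
  have H := C.H
  have hLp := H.L_pos
  have h0 := H.h_pos 0 le_rfl hLp
  have h1 := H.f_pos L hLp le_rfl
  have hM : (1 : ℤ) ≤ M := by
    have h2 := C.hM1 0 ⟨le_rfl, hLp.le⟩
    have h3 := abs_nonneg (h 0 ^ 2 * k 0)
    have : (1 : ℝ) ≤ M := by linarith
    exact_mod_cast this
  have hcB : |c| ≤ B := by rw [abs_of_nonneg hc]; linarith [C.hBa]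
  have hdB : |d| ≤ B := by rw [abs_of_nonneg hd]; linarith [C.hBa]
  have hb := C.hb
  have hbL := C.hbL
  constructor
  · refine ⟨Or.inl rfl, odd_one, odd_one, by simpa using hM, by simpa using hM, hcB, hdB, ?_, ?_,
      le_rfl, hLp.le, le_rfl, by linarith, by linarith, ?_, ?_, ?_, ?_⟩
    · push_cast; linarith
    · push_cast; linarith
    · rw [pol_zero H]; positivity
    · rw [pol_L H]; positivity
    · rw [Nn_zero H]; push_cast; positivity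
    · rw [Nn_L H]; push_cast
      have : 0 ≤ d * (f L ^ 2 * 1) := by positivity
      linarith
  · refine ⟨Or.inr rfl, odd_one, odd_one.neg, by simpa using hM, by simpa using hM, hcB, ?_, ?_, ?_,
      le_rfl, hLp.le, le_rfl, by linarith, by linarith, ?_, ?_, ?_, ?_⟩
    · rw [abs_neg]; exact hdB
    · push_cast; linarith
    · push_cast; linarith
    · rw [pol_zero H]; positivity
    · rw [pol_L H]; positivity
    · rw [Nn_zero H]; push_cast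
      have : 0 ≤ c * h 0 ^ 2 := by positivity
      linarith
    · rw [Nn_L H]; push_cast
      have : 0 ≤ d * (f L ^ 2) := by positivity
      linarith

lemma cI {X : Type*} [TopologicalSpace X] {g : X → ℤ} (hg : Continuous g) :
    Continuous (fun x => (g x : ℝ)) := continuous_of_discreteTopology.comp hg

/-- The minimum of the functional over the admissible data. -/
lemma Ctx.exists_min (C : Ctx L f h k a b B M) :
    ∃ (σ m n : ℤ) (c d α β : ℝ), Adm L f h k a b B M σ m n c d α β ∧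
      ∀ (σ' m' n' : ℤ) (c' d' α' β' : ℝ), Adm L f h k a b B M σ' m' n' c' d' α' β' →
        fun1 f h k m n c d α β ≤ fun1 f h k m' n' c' d' α' β' := by
  have H := C.H
  have hf := H.fc
  have hh := H.hc
  have hk := H.kc
  set K : Set ((ℤ × ℤ × ℤ) × ((ℝ × ℝ) × (ℝ × ℝ))) :=
    {p | Adm L f h k a b B M p.1.1 p.1.2.1 p.1.2.2 p.2.1.1 p.2.1.2 p.2.2.1 p.2.2.2} with hK
  have hsub : K ⊆ (Icc (-1) 1 ×ˢ (Icc (-M) M ×ˢ Icc (-M) M)) ×ˢ
      ((Icc (-B) B ×ˢ Icc (-B) B) ×ˢ (Icc 0 L ×ˢ Icc 0 L)) := by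
    rintro p (hp : Adm L f h k a b B M p.1.1 p.1.2.1 p.1.2.2 p.2.1.1 p.2.1.2 p.2.2.1 p.2.2.2)
    have h1 := abs_le.1 hp.hmM
    have h2 := abs_le.1 hp.hnM
    have h3 := abs_le.1 hp.hc
    have h4 := abs_le.1 hp.hd
    refine ⟨⟨?_, ⟨h1, h2⟩⟩, ⟨⟨h3, h4⟩, ⟨⟨hp.hα, hp.hαβ.trans hp.hβ⟩, ⟨hp.hα.trans hp.hαβ, hp.hβ⟩⟩⟩⟩
    rcases hp.hσ with h5 | h5 <;> rw [h5] <;> constructor <;> norm_num
  have c1 : Continuous (fun p : (ℤ × ℤ × ℤ) × ((ℝ × ℝ) × (ℝ × ℝ)) => (p.1.1 : ℝ)) :=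
    cI (by fun_prop)
  have c2 : Continuous (fun p : (ℤ × ℤ × ℤ) × ((ℝ × ℝ) × (ℝ × ℝ)) => (p.1.2.1 : ℝ)) :=
    cI (by fun_prop)
  have c3 : Continuous (fun p : (ℤ × ℤ × ℤ) × ((ℝ × ℝ) × (ℝ × ℝ)) => (p.1.2.2 : ℝ)) :=
    cI (by fun_prop)
  have hclosed : IsClosed K := by
    have e : K = {p | p.1.1 = 1 ∨ p.1.1 = -1} ∩ {p | Odd p.1.2.1} ∩ {p | Odd p.1.2.2}
        ∩ {p | |p.1.2.1| ≤ M} ∩ {p | |p.1.2.2| ≤ M} ∩ {p | |p.2.1.1| ≤ B} ∩ {p | |p.2.1.2| ≤ B}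
        ∩ {p | 0 ≤ (p.1.2.1 : ℝ) * p.2.1.1 + p.1.2.2 * p.2.1.2}
        ∩ {p | (p.1.2.1 : ℝ) * p.2.1.1 + p.1.2.2 * p.2.1.2 ≤ a}
        ∩ {p | 0 ≤ p.2.2.1} ∩ {p | p.2.2.1 ≤ p.2.2.2} ∩ {p | p.2.2.2 ≤ L} ∩ {p | b ≤ p.2.2.2}
        ∩ {p | p.2.2.1 ≤ L - b} ∩ {p | 0 ≤ pol f h k p.2.1.1 p.2.1.2 p.2.2.1}
        ∩ {p | 0 ≤ pol f h k p.2.1.1 p.2.1.2 p.2.2.2}
        ∩ {p | 0 ≤ (p.1.1 : ℝ) * Nn f h k p.1.2.1 p.1.2.2 p.2.1.1 p.2.1.2 p.2.2.1}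
        ∩ {p | (p.1.1 : ℝ) * Nn f h k p.1.2.1 p.1.2.2 p.2.1.1 p.2.1.2 p.2.2.2 ≤ 0} := by
      ext p
      simp only [hK, mem_inter_iff, mem_ofPred_eq]
      constructor
      · rintro ⟨h1, h2, h3, h4, h5, h6, h7, h8, h9, h10, h11, h12, h13, h14, h15, h16, h17, h18⟩
        exact ⟨⟨⟨⟨⟨⟨⟨⟨⟨⟨⟨⟨⟨⟨⟨⟨⟨h1, h2⟩, h3⟩, h4⟩, h5⟩, h6⟩, h7⟩, h8⟩, h9⟩, h10⟩, h11⟩, h12⟩, h13⟩,
          h14⟩, h15⟩, h16⟩, h17⟩, h18⟩
      · rintro ⟨⟨⟨⟨⟨⟨⟨⟨⟨⟨⟨⟨⟨⟨⟨⟨⟨h1, h2⟩, h3⟩, h4⟩, h5⟩, h6⟩, h7⟩, h8⟩, h9⟩, h10⟩, h11⟩, h12⟩, h13⟩,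
          h14⟩, h15⟩, h16⟩, h17⟩, h18⟩
        exact ⟨h1, h2, h3, h4, h5, h6, h7, h8, h9, h10, h11, h12, h13, h14, h15, h16, h17, h18⟩
    rw [e]
    have d1 : ∀ (P : ℤ × ℤ × ℤ → Prop),
        IsClosed {p : (ℤ × ℤ × ℤ) × ((ℝ × ℝ) × (ℝ × ℝ)) | P p.1} := fun P =>
      (isClosed_discrete {q | P q}).preimage continuous_fst
    unfold pol num ww Nn
    refine IsClosed.inter (IsClosed.inter (IsClosed.inter (IsClosed.inter (IsClosed.inter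
      (IsClosed.inter (IsClosed.inter (IsClosed.inter (IsClosed.inter (IsClosed.inter
      (IsClosed.inter (IsClosed.inter (IsClosed.inter (IsClosed.inter (IsClosed.inter
      (IsClosed.inter (IsClosed.inter
      (d1 fun q => q.1 = 1 ∨ q.1 = -1) (d1 fun q => Odd q.2.1)) (d1 fun q => Odd q.2.2))
      (d1 fun q => |q.2.1| ≤ M)) (d1 fun q => |q.2.2| ≤ M)) ?_) ?_) ?_) ?_) ?_) ?_) ?_) ?_) ?_) ?_)
      ?_) ?_) ?_
    all_goals exact isClosed_le (by fun_prop) (by fun_prop)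
  have hcomp : IsCompact K :=
    ((isCompact_Icc.prod (isCompact_Icc.prod isCompact_Icc)).prod
      ((isCompact_Icc.prod isCompact_Icc).prod
        (isCompact_Icc.prod isCompact_Icc))).of_isClosed_subset hclosed hsub
  have hne : K.Nonempty :=
    ⟨((1, 1, 1), ((0, 0), (0, L))), (C.adm_full le_rfl le_rfl (by simpa using C.ha.le)).1⟩
  have hcont : Continuous (fun p : (ℤ × ℤ × ℤ) × ((ℝ × ℝ) × (ℝ × ℝ)) =>
      fun1 f h k p.1.2.1 p.1.2.2 p.2.1.1 p.2.1.2 p.2.2.1 p.2.2.2) := by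
    unfold fun1
    have h1 : Continuous (fun p : (ℤ × ℤ × ℤ) × ((ℝ × ℝ) × (ℝ × ℝ)) =>
        act f h k p.2.1.1 p.2.1.2 p.2.2.1 p.2.2.2) :=
      H.act_cont.comp (f := fun p : (ℤ × ℤ × ℤ) × ((ℝ × ℝ) × (ℝ × ℝ)) => p.2) continuous_snd
    fun_prop
  obtain ⟨p, hp, hmin⟩ := hcomp.exists_isMinOn hne hcont.continuousOn
  refine ⟨p.1.1, p.1.2.1, p.1.2.2, p.2.1.1, p.2.1.2, p.2.2.1, p.2.2.2, hp, ?_⟩
  intro σ' m' n' c' d' α' β' h'
  exact hmin (show ((σ', m', n'), ((c', d'), (α', β'))) ∈ K from h')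

/-- Inside an admissible interval there is a single well which is admissible. -/
lemma Ctx.find_well (C : Ctx L f h k a b B M) (A : Adm L f h k a b B M σ m n c d α β) :
    ∃ α' β', α ≤ α' ∧ α' < β' ∧ β' ≤ β ∧ Adm L f h k a b B M σ m n c d α' β' ∧
      ∀ x ∈ Ioo α' β', pol f h k c d x < 0 := by
  have H := C.H
  have hpc := H.pol_cont c d
  have hNc := H.Nn_cont m n c d
  have hσ0 : (σ : ℝ) ≠ 0 := by
    rcases A.hσ with h5 | h5 <;> rw [h5] <;> norm_num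
  have hσ2 : (σ : ℝ) * σ = 1 := by
    rcases A.hσ with h5 | h5 <;> rw [h5] <;> norm_num
  set Sp : Set ℝ := Icc (max α b) β ∩ {x | 0 ≤ pol f h k c d x}
    ∩ {x | (σ : ℝ) * Nn f h k m n c d x ≤ 0} with hSp
  have hcSp : IsCompact Sp :=
    (isCompact_Icc.inter_right (isClosed_le continuous_const hpc)).inter_right
      (isClosed_le (by fun_prop) continuous_const)
  have hβS : β ∈ Sp := ⟨⟨⟨max_le A.hαβ A.hbβ, le_rfl⟩, A.pβ⟩, A.Nβ⟩
  obtain ⟨β', hβ'S, hβ'min⟩ := hcSp.exists_isLeast ⟨β, hβS⟩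
  set Sm : Set ℝ := Icc α (min β' (L - b)) ∩ {x | 0 ≤ pol f h k c d x}
    ∩ {x | 0 ≤ (σ : ℝ) * Nn f h k m n c d x} with hSm
  have hcSm : IsCompact Sm :=
    (isCompact_Icc.inter_right (isClosed_le continuous_const hpc)).inter_right
      (isClosed_le continuous_const (by fun_prop))
  have hαβ' : α ≤ β' := (le_max_left _ _).trans hβ'S.1.1.1
  have hbβ' : b ≤ β' := (le_max_right _ _).trans hβ'S.1.1.1
  have hαS : α ∈ Sm := ⟨⟨⟨le_rfl, le_min hαβ' A.hbα⟩, A.pα⟩, A.Nα⟩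
  obtain ⟨α', hα'S, hα'max⟩ := hcSm.exists_isGreatest ⟨α, hαS⟩
  have hα'1 : α ≤ α' := hα'S.1.1.1
  have hα'2 : α' ≤ β' := hα'S.1.1.2.trans (min_le_left _ _)
  have hα'3 : α' ≤ L - b := hα'S.1.1.2.trans (min_le_right _ _)
  have hβ'β : β' ≤ β := hβ'S.1.1.2
  have hβ'L : β' ≤ L := hβ'β.trans A.hβ
  have hα'0 : 0 ≤ α' := A.hα.trans hα'1
  have hlt : α' < β' := by
    rcases eq_or_lt_of_le hα'2 with h1 | h1
    · exfalso
      have h2 : α' ∈ Ioo 0 L := ⟨by rw [h1]; exact C.hb.trans_le hbβ', by linarith [C.hb]⟩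
      refine C.Nne A.hm A.hn A.ct_abs h2 hα'S.1.2 ?_
      have h3 : (σ : ℝ) * Nn f h k m n c d α' ≤ 0 := by rw [h1]; exact hβ'S.2
      have h4 : (σ : ℝ) * Nn f h k m n c d α' = 0 := le_antisymm h3 hα'S.2
      exact (mul_eq_zero.1 h4).resolve_left hσ0
    · exact h1
  refine ⟨α', β', hα'1, hlt, hβ'β, ⟨A.hσ, A.hm, A.hn, A.hmM, A.hnM, A.hc, A.hd, A.ct0, A.ct1,
    hα'0, hlt.le, hβ'L, hbβ', hα'3, hα'S.1.2, hβ'S.1.2, hα'S.2, hβ'S.2⟩, ?_⟩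
  intro x hx
  by_contra hcon
  push Not at hcon
  have hx0 : x ∈ Ioo 0 L := ⟨hα'0.trans_lt hx.1, hx.2.trans_le hβ'L⟩
  have hne := C.Nne A.hm A.hn A.ct_abs hx0 hcon
  have hprod : ∀ y, ((σ : ℝ) * Nn f h k m n c d x) * (σ * Nn f h k m n c d y)
      = Nn f h k m n c d x * Nn f h k m n c d y := by
    intro y
    calc ((σ : ℝ) * Nn f h k m n c d x) * (σ * Nn f h k m n c d y)
        = (σ * σ) * (Nn f h k m n c d x * Nn f h k m n c d y) := by ring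
      _ = _ := by rw [hσ2, one_mul]
  rcases lt_or_gt_of_ne (mul_ne_zero hσ0 hne) with h1 | h1
  · rcases le_or_gt b x with h2 | h2
    · have : x ∈ Sp := ⟨⟨⟨max_le (hα'1.trans hx.1.le) h2, hx.2.le.trans hβ'β⟩, hcon⟩, h1.le⟩
      exact absurd (hβ'min this) (not_le.2 hx.2)
    · have h3 := C.q0 m n A.hm A.hn A.hmM A.hnM c d A.hc A.hd A.ct_abs x ⟨hx0.1, h2.le⟩ hcon α'
        ⟨hα'0, hx.1.le⟩
      rw [← hprod] at h3
      have h4 : 0 ≤ (σ : ℝ) * Nn f h k m n c d α' := hα'S.2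
      nlinarith
  · rcases le_or_gt x (L - b) with h2 | h2
    · have : x ∈ Sm := ⟨⟨⟨hα'1.trans hx.1.le, le_min hx.2.le h2⟩, hcon⟩, h1.le⟩
      exact absurd (hα'max this) (not_le.2 hx.1)
    · have h3 := C.qL m n A.hm A.hn A.hmM A.hnM c d A.hc A.hd A.ct_abs x ⟨h2.le, hx0.2⟩ hcon β'
        ⟨hx.2.le, hβ'L⟩
      rw [← hprod] at h3
      have h4 : (σ : ℝ) * Nn f h k m n c d β' ≤ 0 := hβ'S.2
      nlinarith

/-! ### Symmetries of the context -/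

lemma Ctx.swap (C : Ctx L f h k a b B M) :
    Ctx L (fun x => h (L - x)) (fun x => f (L - x)) (fun x => k (L - x)) a b B M := by
  refine ⟨C.H.swap, C.ha, C.hb, C.hbL, ?_, ?_, ?_, ?_, ?_, C.hBa, ?_, ?_⟩
  · intro m n hm hn x hx
    rw [X2_swap]
    exact C.rho n m hn hm (L - x) ⟨by linarith [hx.2], by linarith [hx.1]⟩
  · intro x hx; exact C.hM2 (L - x) ⟨by linarith [hx.2], by linarith [hx.1]⟩
  · intro x hx; exact C.hM1 (L - x) ⟨by linarith [hx.2], by linarith [hx.1]⟩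
  · intro x hx; exact C.hBh (L - x) ⟨by linarith [hx.2], by linarith [hx.1]⟩
  · intro x hx; exact C.hBf (L - x) ⟨by linarith [hx.2], by linarith [hx.1]⟩
  · intro m n hm hn hmM hnM c d hc hd hct x hx hp y hy
    rw [pol_swap] at hp
    rw [Nn_swap, Nn_swap, neg_mul_neg]
    exact C.qL n m hn hm hnM hmM d c hd hc (by rw [add_comm]; exact hct) (L - x)
      ⟨by linarith [hx.2], by linarith [hx.1]⟩ hp (L - y) ⟨by linarith [hy.2], by linarith [hy.1]⟩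
  · intro m n hm hn hmM hnM c d hc hd hct x hx hp y hy
    rw [pol_swap] at hp
    rw [Nn_swap, Nn_swap, neg_mul_neg]
    exact C.q0 n m hn hm hnM hmM d c hd hc (by rw [add_comm]; exact hct) (L - x)
      ⟨by linarith [hx.2], by linarith [hx.1]⟩ hp (L - y) ⟨by linarith [hy.2], by linarith [hy.1]⟩

lemma Adm.swap (A : Adm L f h k a b B M σ m n c d α β) :
    Adm L (fun x => h (L - x)) (fun x => f (L - x)) (fun x => k (L - x)) a b B M σ n m d c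
      (L - β) (L - α) := by
  refine ⟨A.hσ, A.hn, A.hm, A.hnM, A.hmM, A.hd, A.hc, ?_, ?_, ?_, ?_, ?_, ?_, ?_, ?_, ?_, ?_, ?_⟩
  · rw [add_comm]; exact A.ct0
  · rw [add_comm]; exact A.ct1
  · linarith [A.hβ]
  · linarith [A.hαβ]
  · linarith [A.hα]
  · linarith [A.hbα]
  · linarith [A.hbβ]
  · rw [pol_swap, sub_sub_cancel]; exact A.pβ
  · rw [pol_swap, sub_sub_cancel]; exact A.pα
  · rw [Nn_swap, sub_sub_cancel]; linarith [A.Nβ]
  · rw [Nn_swap, sub_sub_cancel]; linarith [A.Nα]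

lemma Adm.swap' (A : Adm L (fun x => h (L - x)) (fun x => f (L - x)) (fun x => k (L - x)) a b B M
    σ m n c d α β) : Adm L f h k a b B M σ n m d c (L - β) (L - α) := by
  have := A.swap
  simpa only [sub_sub_cancel] using this

lemma Adm.neg (A : Adm L f h k a b B M σ m n c d α β) :
    Adm L f h k a b B M σ (-m) (-n) (-c) (-d) α β := by
  have e : ((-m : ℤ) : ℝ) * (-c) + ((-n : ℤ) : ℝ) * (-d) = m * c + n * d := by push_cast; ring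
  refine ⟨A.hσ, A.hm.neg, A.hn.neg, by rw [abs_neg]; exact A.hmM, by rw [abs_neg]; exact A.hnM,
    by rw [abs_neg]; exact A.hc, by rw [abs_neg]; exact A.hd, by rw [e]; exact A.ct0,
    by rw [e]; exact A.ct1, A.hα, A.hαβ, A.hβ, A.hbβ, A.hbα, by rw [pol_neg]; exact A.pα,
    by rw [pol_neg]; exact A.pβ, ?_, ?_⟩
  · push_cast; rw [Nn_neg]; exact A.Nα
  · push_cast; rw [Nn_neg]; exact A.Nβ

lemma fun1_neg (m n : ℝ) : fun1 f h k (-m) (-n) (-c) (-d) α β = fun1 f h k m n c d α β := by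
  unfold fun1 act
  simp only [pot_neg]
  ring

lemma fun1_swap (m n : ℝ) :
    fun1 (fun x => h (L - x)) (fun x => f (L - x)) (fun x => k (L - x)) n m d c (L - β) (L - α)
      = fun1 f h k m n c d α β := by
  unfold fun1
  rw [act_swap]
  ring

end

end TIS
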