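import Pool.Agent.DWS.Var

/-!
# Variations of integrals of square roots, general directions
-/

namespace TIS

open Set MeasureTheory Real Filter Topology

lemma sqrt_any {u v e : ℝ} (hu : 0 < u) (hv : v ≤ u + e) :
    √v ≤ √u + e / (2 * √u) + (if u < |e| then |e| / √u else 0) := by
  have hs : 0 < √u := Real.sqrt_pos.2 hu
  have hsq : √u ^ 2 = u := Real.sq_sqrt hu.le
  rcases le_or_gt 0 (u + e) with h1 | h1
  · have h2 : √v ≤ √u + e / (2 * √u) := by
      apply Real.sqrt_le_iff.2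
      constructor
      · have e1 : √u + e / (2 * √u) = (2 * u + e) / (2 * √u) := by
          rw [eq_div_iff (by positivity)]
          field_simp
          rw [hsq]
          ring
        rw [e1]
        apply div_nonneg (by linarith) (by positivity)
      · have e1 : (√u + e / (2 * √u)) ^ 2 = u + e + (e / (2 * √u)) ^ 2 := by
          have : (√u + e / (2 * √u)) ^ 2 = √u ^ 2 + 2 * √u * (e / (2 * √u))
              + (e / (2 * √u)) ^ 2 := by ring
          rw [this, hsq, mul_div_cancel₀]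
          positivity
        rw [e1]
        nlinarith [sq_nonneg (e / (2 * √u))]
    have h3 : 0 ≤ (if u < |e| then |e| / √u else 0) := by
      split_ifs
      · positivity
      · exact le_rfl
    linarith
  · have h2 : √v = 0 := Real.sqrt_eq_zero_of_nonpos (by linarith)
    have h3 : e < 0 := by linarith
    have h4 : |e| = -e := abs_of_neg h3
    rw [h2, if_pos (by rw [h4]; linarith), h4]
    have e1 : e / (2 * √u) + -e / √u = -e / (2 * √u) := by field_simp; ring
    have h5 : 0 ≤ -e / (2 * √u) := div_nonneg (by linarith) (by positivity)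
    linarith

/-- The set where the potential is small contributes little. -/
lemma small_set {α β W : ℝ} {U : ℝ → ℝ} (hαβ : α ≤ β) (hm : Measurable U)
    (hUpos : ∀ x ∈ Ioo α β, 0 < U x)
    (hi : IntervalIntegrable (fun x => 1 / √(U x)) volume α β) :
    Tendsto (fun ε : ℝ => ∫ x in α..β, (if U x < ε * W then 1 / √(U x) else 0)) (𝓝[>] 0)
      (𝓝 0) := by
  suffices hs : Tendsto (fun ε : ℝ => ∫ x in α..β, (if U x < ε * W then 1 / √(U x) else 0))
      (𝓝[>] 0) (𝓝 (∫ x in α..β, (0 : ℝ))) by simpa using hs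
  refine intervalIntegral.tendsto_integral_filter_of_dominated_convergence
    (bound := fun x => ‖1 / √(U x)‖) ?_ ?_ hi.norm ?_
  · refine Eventually.of_forall fun ε => ?_
    refine Measurable.aestronglyMeasurable ?_
    exact Measurable.ite (measurableSet_lt hm measurable_const) (hm.sqrt.const_div 1)
      measurable_const
  · refine Eventually.of_forall fun ε => Eventually.of_forall fun x _ => ?_
    split_ifs
    · exact le_rfl
    · simp
  · have hne : ∀ᵐ x : ℝ, x ≠ β := by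
      have : (volume : Measure ℝ) {β} = 0 := by simp
      rw [← compl_mem_ae_iff] at this
      filter_upwards [this] with x hx
      simpa using hx
    filter_upwards [hne] with x hxβ hx
    rw [uIoc_of_le hαβ] at hx
    have hU := hUpos x ⟨hx.1, lt_of_le_of_ne hx.2 hxβ⟩
    refine tendsto_const_nhds.congr' ?_
    have hev : ∀ᶠ ε : ℝ in 𝓝[>] 0, ε * W < U x := by
      have : Tendsto (fun ε : ℝ => ε * W) (𝓝[>] 0) (𝓝 (0 * W)) :=
        (tendsto_id.mul_const W).mono_left nhdsWithin_le_nhds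
      rw [zero_mul] at this
      exact this.eventually (gt_mem_nhds hU)
    filter_upwards [hev] with ε hε
    rw [if_neg (by linarith)]

/-- Upper bound for the first variation, general sign. -/
lemma var_any {α β κ ε₀ C K W : ℝ} {U w : ℝ → ℝ} {V : ℝ → ℝ → ℝ} {a b : ℝ → ℝ}
    (hαβ : α ≤ β) (hε₀ : 0 < ε₀) (hW : 0 ≤ W) (hm : Measurable U)
    (hUpos : ∀ x ∈ Ioo α β, 0 < U x) (hwW : ∀ ε ∈ Ioo 0 ε₀, ∀ x ∈ Ioo α β, |w x + ε * W| ≤ W + 1)
    (hV : ∀ ε ∈ Ioo 0 ε₀, ∀ x ∈ Ioo α β, V ε x ≤ U x + ε * (w x + ε * W))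
    (ha : ∀ ε ∈ Ioo 0 ε₀, α - C * ε ≤ a ε ∧ a ε ≤ α)
    (hb : ∀ ε ∈ Ioo 0 ε₀, β ≤ b ε ∧ b ε ≤ β + C * ε)
    (hVa : ∀ ε ∈ Ioo 0 ε₀, ∀ x ∈ Ioo (a ε) α, V ε x ≤ K * ε)
    (hVb : ∀ ε ∈ Ioo 0 ε₀, ∀ x ∈ Ioo β (b ε), V ε x ≤ K * ε)
    (hiU : IntervalIntegrable (fun x => √(U x)) volume α β)
    (hi : IntervalIntegrable (fun x => 1 / √(U x)) volume α β)
    (hiw : IntervalIntegrable (fun x => w x / (2 * √(U x))) volume α β)
    (hiV : ∀ ε ∈ Ioo 0 ε₀, IntervalIntegrable (fun x => √(V ε x)) volume (a ε) (b ε))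
    (H : ∀ ε ∈ Ioo 0 ε₀, (∫ x in α..β, √(U x)) + κ * ε ≤ ∫ x in (a ε)..(b ε), √(V ε x)) :
    κ ≤ ∫ x in α..β, w x / (2 * √(U x)) := by
  set I := ∫ x in α..β, w x / (2 * √(U x)) with hI
  set I0 := ∫ x in α..β, 1 / √(U x) with hI0
  set W' := W + 1 with hW'
  have hW'0 : 0 < W' := by positivity
  set R : ℝ → ℝ := fun ε => ∫ x in α..β, (if U x < ε * W' then 1 / √(U x) else 0) with hR
  have key : ∀ ε ∈ Ioo 0 ε₀, κ ≤ I + ε * (W * I0 / 2) + W' * R ε + 2 * C * √(K * ε) := by
    intro ε hε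
    have hε0 : 0 < ε := hε.1
    have h0 := H ε hε
    have hab := (ha ε hε).2
    have hbb := (hb ε hε).1
    have sub : ∀ x y, a ε ≤ x → x ≤ y → y ≤ b ε → IntervalIntegrable (fun x => √(V ε x)) volume x y := by
      intro x y h1 h2 h3
      refine (hiV ε hε).mono_set ?_
      rw [uIcc_of_le h2, uIcc_of_le (by linarith)]
      exact Icc_subset_Icc h1 h3
    have s1 := sub (a ε) α le_rfl hab (by linarith)
    have s2 := sub α β hab hαβ hbb
    have s3 := sub β (b ε) (by linarith) hbb le_rfl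
    have hsplit : ∫ x in (a ε)..(b ε), √(V ε x)
        = (∫ x in (a ε)..α, √(V ε x)) + (∫ x in α..β, √(V ε x)) + ∫ x in β..(b ε), √(V ε x) := by
      rw [intervalIntegral.integral_add_adjacent_intervals s1 s2,
        intervalIntegral.integral_add_adjacent_intervals (s1.trans s2) s3]
    have h1 : ∫ x in (a ε)..α, √(V ε x) ≤ C * ε * √(K * ε) := by
      have hle : ∫ x in (a ε)..α, √(V ε x) ≤ ∫ x in (a ε)..α, √(K * ε) := by
        refine intervalIntegral.integral_mono_on_of_le_Ioo hab s1 (by simp) ?_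
        intro x hx
        exact Real.sqrt_le_sqrt (hVa ε hε x hx)
      rw [intervalIntegral.integral_const, smul_eq_mul] at hle
      have : (α - a ε) * √(K * ε) ≤ C * ε * √(K * ε) :=
        mul_le_mul_of_nonneg_right (by linarith [(ha ε hε).1]) (Real.sqrt_nonneg _)
      linarith
    have h2 : ∫ x in β..(b ε), √(V ε x) ≤ C * ε * √(K * ε) := by
      have hle : ∫ x in β..(b ε), √(V ε x) ≤ ∫ x in β..(b ε), √(K * ε) := by
        refine intervalIntegral.integral_mono_on_of_le_Ioo hbb s3 (by simp) ?_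
        intro x hx
        exact Real.sqrt_le_sqrt (hVb ε hε x hx)
      rw [intervalIntegral.integral_const, smul_eq_mul] at hle
      have : (b ε - β) * √(K * ε) ≤ C * ε * √(K * ε) :=
        mul_le_mul_of_nonneg_right (by linarith [(hb ε hε).2]) (Real.sqrt_nonneg _)
      linarith
    have hiR : IntervalIntegrable (fun x => (if U x < ε * W' then 1 / √(U x) else 0)) volume α β := by
      refine hi.mono_fun ?_ ?_
      · refine Measurable.aestronglyMeasurable ?_
        exact Measurable.ite (measurableSet_lt hm measurable_const) (hm.sqrt.const_div 1)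
          measurable_const
      · refine Eventually.of_forall fun x => ?_
        beta_reduce
        split_ifs
        · exact le_rfl
        · simp
    have h3 : ∫ x in α..β, √(V ε x)
        ≤ (∫ x in α..β, √(U x)) + ε * I + ε * (ε * (W * I0 / 2)) + ε * (W' * R ε) := by
      have e1 : (∫ x in α..β, √(U x)) + ε * I + ε * (ε * (W * I0 / 2)) + ε * (W' * R ε)
          = ∫ x in α..β, (√(U x) + ε * (w x / (2 * √(U x))) + ε * (ε * W / 2) * (1 / √(U x))
            + ε * W' * (if U x < ε * W' then 1 / √(U x) else 0)) := by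
        rw [intervalIntegral.integral_add ((hiU.add (hiw.const_mul ε)).add (hi.const_mul _))
            (hiR.const_mul _),
          intervalIntegral.integral_add (hiU.add (hiw.const_mul ε)) (hi.const_mul _),
          intervalIntegral.integral_add hiU (hiw.const_mul ε),
          intervalIntegral.integral_const_mul, intervalIntegral.integral_const_mul,
          intervalIntegral.integral_const_mul]
        ring
      rw [e1]
      refine intervalIntegral.integral_mono_on_of_le_Ioo hαβ s2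
        (((hiU.add (hiw.const_mul ε)).add (hi.const_mul _)).add (hiR.const_mul _)) ?_
      intro x hx
      have hu := hUpos x hx
      have hs : 0 < √(U x) := Real.sqrt_pos.2 hu
      have h4 := sqrt_any hu (hV ε hε x hx)
      have h5 : |ε * (w x + ε * W)| ≤ ε * W' := by
        rw [abs_mul, abs_of_pos hε0]
        exact mul_le_mul_of_nonneg_left (hwW ε hε x hx) hε0.le
      have h6 : (if U x < |ε * (w x + ε * W)| then |ε * (w x + ε * W)| / √(U x) else 0)
          ≤ ε * W' * (if U x < ε * W' then 1 / √(U x) else 0) := by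
        split_ifs with k1 k2
        · rw [mul_one_div]
          exact div_le_div_of_nonneg_right h5 hs.le
        · exact absurd (k1.trans_le h5) k2
        · positivity
        · simp
      have h7 : ε * (w x + ε * W) / (2 * √(U x))
          = ε * (w x / (2 * √(U x))) + ε * (ε * W / 2) * (1 / √(U x)) := by
        field_simp
      rw [h7] at h4
      linarith
    have h5 : ε * κ ≤ ε * (I + ε * (W * I0 / 2) + W' * R ε + 2 * C * √(K * ε)) := by
      nlinarith
    exact le_of_mul_le_mul_left h5 hε0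
  have hlim : Tendsto (fun ε : ℝ => I + ε * (W * I0 / 2) + W' * R ε + 2 * C * √(K * ε)) (𝓝[>] 0)
      (𝓝 (I + 0 * (W * I0 / 2) + W' * 0 + 2 * C * √(K * 0))) := by
    have hR0 : Tendsto R (𝓝[>] 0) (𝓝 0) := small_set hαβ hm hUpos hi
    have hid : Tendsto (fun ε : ℝ => ε) (𝓝[>] 0) (𝓝 0) := nhdsWithin_le_nhds
    have hsq : Tendsto (fun ε : ℝ => √(K * ε)) (𝓝[>] 0) (𝓝 (√(K * 0))) :=
      (Real.continuous_sqrt.tendsto _).comp (hid.const_mul K)
    exact ((tendsto_const_nhds.add (hid.mul_const _)).add (hR0.const_mul W')).add (hsq.const_mul _)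
  simp only [mul_zero, Real.sqrt_zero, zero_mul, add_zero] at hlim
  refine ge_of_tendsto hlim ?_
  filter_upwards [Ioo_mem_nhdsGT hε₀] with ε hε
  exact key ε hε

/-! ### The loss near an axis -/

/-- `∫_0^X (1 - √(1 - 1/t²))` is at least `arctan √(X² - 1)`. -/
lemma psi_lower {X : ℝ} (hX : 1 ≤ X) :
    arctan (√(X ^ 2 - 1)) ≤ ∫ t in (0 : ℝ)..X, (1 - √(1 - (1 / t) ^ 2)) := by
  have hm : Measurable (fun t : ℝ => 1 - √(1 - (1 / t) ^ 2)) := by fun_prop
  have hb : ∀ t : ℝ, 0 ≤ 1 - √(1 - (1 / t) ^ 2) ∧ 1 - √(1 - (1 / t) ^ 2) ≤ 1 := by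
    intro t
    constructor
    · have : √(1 - (1 / t) ^ 2) ≤ 1 := by
        rw [← Real.sqrt_one]
        apply Real.sqrt_le_sqrt
        rw [Real.sqrt_one]
        nlinarith [sq_nonneg (1 / t)]
      linarith
    · linarith [Real.sqrt_nonneg (1 - (1 / t) ^ 2)]
  have hii : ∀ x y, IntervalIntegrable (fun t : ℝ => 1 - √(1 - (1 / t) ^ 2)) volume x y := by
    intro x y
    refine (intervalIntegrable_const (c := (1 : ℝ))).mono_fun hm.aestronglyMeasurable
      (Eventually.of_forall fun t => ?_)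
    beta_reduce
    rw [Real.norm_of_nonneg (hb t).1, norm_one]
    exact (hb t).2
  rw [← intervalIntegral.integral_add_adjacent_intervals (hii 0 1) (hii 1 X)]
  have h1 : ∫ t in (0 : ℝ)..1, (1 - √(1 - (1 / t) ^ 2)) = 1 := by
    have e1 : ∫ t in (0 : ℝ)..1, (1 - √(1 - (1 / t) ^ 2)) = ∫ t in (0 : ℝ)..1, (1 : ℝ) := by
      rw [intervalIntegral.integral_of_le zero_le_one, intervalIntegral.integral_of_le zero_le_one]
      refine setIntegral_congr_fun measurableSet_Ioc ?_
      intro t ht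
      simp only
      have h2 : 1 ≤ 1 / t := by rw [le_div_iff₀ ht.1]; linarith [ht.2]
      rw [Real.sqrt_eq_zero_of_nonpos (by nlinarith), sub_zero]
    rw [e1]; simp
  have h2 : ∫ t in (1 : ℝ)..X, (1 - √(1 - (1 / t) ^ 2))
      = (X - √(X ^ 2 - 1) + arctan √(X ^ 2 - 1)) - 1 := by
    have hder : ∀ t ∈ Ioo 1 X, HasDerivAt (fun t => t - √(t ^ 2 - 1) + arctan √(t ^ 2 - 1))
        (1 - √(1 - (1 / t) ^ 2)) t := by
      intro t ht
      have ht0 : 0 < t := by linarith [ht.1]
      have hpos : 0 < t ^ 2 - 1 := by nlinarith [ht.1]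
      have hs : 0 < √(t ^ 2 - 1) := Real.sqrt_pos.2 hpos
      have hsq : √(t ^ 2 - 1) ^ 2 = t ^ 2 - 1 := Real.sq_sqrt hpos.le
      have d1 : HasDerivAt (fun t : ℝ => t ^ 2 - 1) (2 * t) t := by
        have := ((hasDerivAt_id t).pow 2).sub_const 1
        refine this.congr_deriv ?_
        simp
      have d2 := d1.sqrt hpos.ne'
      have d3 := d2.arctan
      have d4 := ((hasDerivAt_id t).sub d2).add d3
      refine d4.congr_deriv ?_
      have e2 : √(1 - (1 / t) ^ 2) = √(t ^ 2 - 1) / t := by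
        have : 1 - (1 / t) ^ 2 = (t ^ 2 - 1) / t ^ 2 := by field_simp
        rw [this, Real.sqrt_div hpos.le, Real.sqrt_sq ht0.le]
      rw [e2, hsq]
      have e3 : 1 + (t ^ 2 - 1) = t ^ 2 := by ring
      rw [e3]
      field_simp
      linear_combination hsq
    have hcont : ContinuousOn (fun t => t - √(t ^ 2 - 1) + arctan √(t ^ 2 - 1)) (Icc 1 X) := by
      apply Continuous.continuousOn
      have : Continuous (fun t : ℝ => √(t ^ 2 - 1)) := by fun_prop
      exact (continuous_id.sub this).add (continuous_arctan.comp this)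
    rw [intervalIntegral.integral_eq_sub_of_hasDerivAt_of_le hX hcont hder (hii 1 X)]
    simp
  rw [h1, h2]
  have h3 : √(X ^ 2 - 1) ≤ X := by
    rw [Real.sqrt_le_left (by linarith)]
    linarith
  linarith

/-- The loss of the integral of the square root near an axis, when the momentum is `ε`. -/
lemma loss_bound {p δ₀ κ : ℝ} (hp : 0 < p) (hκ : κ < π / 2) {Vt V : ℝ → ℝ → ℝ}
    (hV : ∀ η ∈ Ioo (0 : ℝ) 1, ∃ δ ∈ Ioc 0 δ₀, ∃ ε₀ > 0, ∀ ε ∈ Ioo 0 ε₀, ∀ x ∈ Ioo 0 δ,
      p * (1 - η) ≤ Vt ε x ∧ Vt ε x ≤ p * (1 + η) ∧ V ε x ≤ Vt ε x - ε ^ 2 / (x ^ 2 * (1 + η)))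
    (hi : ∀ δ ∈ Ioc 0 δ₀, ∃ ε₀ > 0, ∀ ε ∈ Ioo 0 ε₀,
      IntervalIntegrable (fun x => √(Vt ε x) - √(V ε x)) volume 0 δ) :
    ∃ δ ∈ Ioc 0 δ₀, ∃ ε₁ > 0, ∀ ε ∈ Ioo 0 ε₁,
      κ * ε ≤ ∫ x in (0 : ℝ)..δ, (√(Vt ε x) - √(V ε x)) := by
  have hπ := pi_pos
  -- choose `η`
  obtain ⟨η, hη, hηκ⟩ : ∃ η ∈ Ioo (0 : ℝ) 1, κ < √(1 - η) / (1 + η) * (π / 2) := by
    have hc : ContinuousAt (fun η : ℝ => √(1 - η) / (1 + η) * (π / 2)) 0 := by
      refine ContinuousAt.mul (ContinuousAt.div ?_ (by fun_prop) (by norm_num)) continuousAt_const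
      exact Real.continuous_sqrt.continuousAt.comp (by fun_prop)
    have h0 : κ < (fun η : ℝ => √(1 - η) / (1 + η) * (π / 2)) 0 := by simpa using hκ
    have h1 := hc.eventually (lt_mem_nhds h0)
    have h2 : ∀ᶠ η : ℝ in 𝓝[>] 0, κ < √(1 - η) / (1 + η) * (π / 2) := nhdsWithin_le_nhds h1
    obtain ⟨η, h3, h4⟩ := (h2.and (Ioo_mem_nhdsGT (zero_lt_one (α := ℝ)))).exists
    exact ⟨η, h4, h3⟩
  obtain ⟨δ, hδ, ε₀, hε₀, hmain⟩ := hV η hη
  obtain ⟨ε₂, hε₂, hint⟩ := hi δ hδ
  have hδ0 : 0 < δ := hδ.1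
  have hη0 : 0 < 1 + η := by linarith [hη.1]
  have hη1 : 0 < 1 - η := by linarith [hη.2]
  set q := √p * (1 + η) with hq
  have hqpos : 0 < q := by have := Real.sqrt_pos.2 hp; positivity
  -- the limit of the arctangent
  have hlim : Tendsto (fun ε : ℝ => √(1 - η) / (1 + η) * arctan (√((δ * q / ε) ^ 2 - 1))) (𝓝[>] 0)
      (𝓝 (√(1 - η) / (1 + η) * (π / 2))) := by
    refine Tendsto.const_mul _ ?_
    refine (tendsto_nhds_of_tendsto_nhdsWithin tendsto_arctan_atTop).comp ?_
    refine Real.tendsto_sqrt_atTop.comp ?_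
    refine tendsto_atTop_add_const_right _ _ ?_
    refine (tendsto_pow_atTop two_ne_zero).comp ?_
    have : Tendsto (fun ε : ℝ => ε⁻¹) (𝓝[>] 0) atTop := tendsto_inv_nhdsGT_zero
    have h2 := this.const_mul_atTop (by positivity : 0 < δ * q)
    refine h2.congr fun ε => ?_
    rw [div_eq_mul_inv]
  have hev := hlim.eventually (lt_mem_nhds hηκ)
  obtain ⟨ε₃, hε₃, hev'⟩ : ∃ ε₃ > 0, ∀ ε ∈ Ioo 0 ε₃,
      κ < √(1 - η) / (1 + η) * arctan (√((δ * q / ε) ^ 2 - 1)) := by
    rw [eventually_nhdsWithin_iff, Metric.eventually_nhds_iff] at hev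
    obtain ⟨e, he, h⟩ := hev
    refine ⟨e, he, fun ε hε => h ?_ hε.1⟩
    rw [Real.dist_eq, sub_zero, abs_of_pos hε.1]
    exact hε.2
  refine ⟨δ, hδ, min (min ε₀ ε₂) (min ε₃ (δ * q)),
    lt_min (lt_min hε₀ hε₂) (lt_min hε₃ (by positivity)), ?_⟩
  intro ε hε
  have hε0 := hε.1
  have c1 : ε ∈ Ioo 0 ε₀ := ⟨hε0, hε.2.trans_le ((min_le_left _ _).trans (min_le_left _ _))⟩
  have c2 : ε ∈ Ioo 0 ε₂ := ⟨hε0, hε.2.trans_le ((min_le_left _ _).trans (min_le_right _ _))⟩
  have c3 : ε ∈ Ioo 0 ε₃ := ⟨hε0, hε.2.trans_le ((min_le_right _ _).trans (min_le_left _ _))⟩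
  have c4 : ε ≤ δ * q := (hε.2.trans_le ((min_le_right _ _).trans (min_le_right _ _))).le
  set e := ε / q with he
  have hepos : 0 < e := by positivity
  have hX : 1 ≤ δ / e := by
    rw [he, le_div_iff₀ hepos, one_mul, div_le_iff₀ hqpos]
    exact c4
  have hXeq : δ / e = δ * q / ε := by rw [he]; field_simp
  -- scaling
  have hscale : ∫ x in (0 : ℝ)..δ, (1 - √(1 - (e / x) ^ 2))
      = e * ∫ t in (0 : ℝ)..(δ / e), (1 - √(1 - (1 / t) ^ 2)) := by
    have := intervalIntegral.integral_comp_div (a := 0) (b := δ)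
      (fun t : ℝ => 1 - √(1 - (1 / t) ^ 2)) hepos.ne'
    rw [zero_div, smul_eq_mul] at this
    rw [← this]
    refine intervalIntegral.integral_congr fun x _ => ?_
    simp only [one_div_div]
  have hlow := psi_lower hX
  rw [hXeq] at hlow
  have hmb : ∀ x : ℝ, 0 ≤ 1 - √(1 - (e / x) ^ 2) ∧ 1 - √(1 - (e / x) ^ 2) ≤ 1 := by
    intro t
    constructor
    · have : √(1 - (e / t) ^ 2) ≤ 1 := by
        rw [← Real.sqrt_one]
        apply Real.sqrt_le_sqrt
        rw [Real.sqrt_one]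
        nlinarith [sq_nonneg (e / t)]
      linarith
    · linarith [Real.sqrt_nonneg (1 - (e / t) ^ 2)]
  have hii : IntervalIntegrable (fun x : ℝ => 1 - √(1 - (e / x) ^ 2)) volume 0 δ := by
    refine (intervalIntegrable_const (c := (1 : ℝ))).mono_fun
      (by exact Measurable.aestronglyMeasurable (by fun_prop))
      (Eventually.of_forall fun t => ?_)
    beta_reduce
    rw [Real.norm_of_nonneg (hmb t).1, norm_one]
    exact (hmb t).2
  have hcmp : ∫ x in (0 : ℝ)..δ, √(p * (1 - η)) * (1 - √(1 - (e / x) ^ 2))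
      ≤ ∫ x in (0 : ℝ)..δ, (√(Vt ε x) - √(V ε x)) := by
    refine intervalIntegral.integral_mono_on_of_le_Ioo hδ0.le (hii.const_mul _) (hint ε c2) ?_
    intro x hx
    obtain ⟨b1, b2, b3⟩ := hmain ε c1 x hx
    have hx0 := hx.1
    have hVt : 0 < Vt ε x := lt_of_lt_of_le (by positivity) b1
    have k1 : V ε x ≤ Vt ε x * (1 - (e / x) ^ 2) := by
      refine b3.trans ?_
      have e2 : (e / x) ^ 2 = ε ^ 2 / (x ^ 2 * (1 + η)) / (p * (1 + η)) := by
        rw [he, hq, div_pow, div_pow, mul_pow, Real.sq_sqrt hp.le]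
        field_simp
      rw [e2]
      have e3 : 0 ≤ ε ^ 2 / (x ^ 2 * (1 + η)) := by positivity
      have e4 : Vt ε x * (ε ^ 2 / (x ^ 2 * (1 + η)) / (p * (1 + η))) ≤ ε ^ 2 / (x ^ 2 * (1 + η)) := by
        calc Vt ε x * (ε ^ 2 / (x ^ 2 * (1 + η)) / (p * (1 + η)))
            = (Vt ε x / (p * (1 + η))) * (ε ^ 2 / (x ^ 2 * (1 + η))) := by ring
          _ ≤ 1 * (ε ^ 2 / (x ^ 2 * (1 + η))) := by
              apply mul_le_mul_of_nonneg_right _ e3
              rw [div_le_one (by positivity)]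
              exact b2
          _ = _ := one_mul _
      nlinarith
    have k2 : √(V ε x) ≤ √(Vt ε x) * √(1 - (e / x) ^ 2) := by
      rw [← Real.sqrt_mul hVt.le]
      exact Real.sqrt_le_sqrt k1
    have k3 : √(p * (1 - η)) ≤ √(Vt ε x) := Real.sqrt_le_sqrt b1
    have k4 := (hmb x).1
    nlinarith
  rw [intervalIntegral.integral_const_mul, hscale] at hcmp
  refine le_trans ?_ hcmp
  have hspq : √(p * (1 - η)) * e = √(1 - η) / (1 + η) * ε := by
    have hsp : 0 < √p := Real.sqrt_pos.2 hp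
    rw [Real.sqrt_mul hp.le, he, hq]
    field_simp
  have hk := hev' ε c3
  calc κ * ε ≤ √(1 - η) / (1 + η) * arctan (√((δ * q / ε) ^ 2 - 1)) * ε :=
        mul_le_mul_of_nonneg_right hk.le hε0.le
    _ = √(p * (1 - η)) * e * arctan (√((δ * q / ε) ^ 2 - 1)) := by rw [hspq]; ring
    _ ≤ √(p * (1 - η)) * e * ∫ t in (0 : ℝ)..(δ * q / ε), (1 - √(1 - (1 / t) ^ 2)) := by
        apply mul_le_mul_of_nonneg_left hlow (by positivity)
    _ = √(p * (1 - η)) * (e * ∫ t in (0 : ℝ)..(δ / e), (1 - √(1 - (1 / t) ^ 2))) := by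
        rw [hXeq]; ring

end TIS
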