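import Pool.Agent.TIS.Defs
import Pool.Agent.TIS.Var

/-!
# Potentials, polynomials, Lagrange identity
-/

namespace TIS

open Set MeasureTheory Real Filter Topology

/-- The factor of the determinant. -/
noncomputable def ww (f h k : ℝ → ℝ) (x : ℝ) : ℝ := 1 - (f x * h x * k x) ^ 2

/-- Square of the norm of the covector `(c, d)`. -/
noncomputable def nrm (f h k : ℝ → ℝ) (c d x : ℝ) : ℝ :=
  (c ^ 2 / f x ^ 2 - 2 * k x * (c * d) + d ^ 2 / h x ^ 2) / ww f h k x

/-- The square of the radial speed. -/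
noncomputable def pot (f h k : ℝ → ℝ) (c d x : ℝ) : ℝ := 1 - nrm f h k c d x

/-- The numerator of the norm. -/
noncomputable def num (f h k : ℝ → ℝ) (c d x : ℝ) : ℝ :=
  c ^ 2 * h x ^ 2 - 2 * (f x ^ 2 * h x ^ 2 * k x) * (c * d) + d ^ 2 * f x ^ 2

/-- `-f² h² w` times the potential. -/
noncomputable def pol (f h k : ℝ → ℝ) (c d x : ℝ) : ℝ :=
  num f h k c d x - f x ^ 2 * h x ^ 2 * ww f h k x

/-- The side function. -/
noncomputable def Nn (f h k : ℝ → ℝ) (m n c d x : ℝ) : ℝ :=
  c * (h x ^ 2 * (m * (f x ^ 2 * k x) + n)) - d * (f x ^ 2 * (m + n * (h x ^ 2 * k x)))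

/-- The square of the norm of the Killing field `m ∂θ + n ∂φ`. -/
noncomputable def X2 (f h k : ℝ → ℝ) (m n x : ℝ) : ℝ :=
  m ^ 2 * f x ^ 2 + 2 * (m * n) * (f x ^ 2 * h x ^ 2 * k x) + n ^ 2 * h x ^ 2

/-- The integral of the square root. -/
noncomputable def act (f h k : ℝ → ℝ) (c d α β : ℝ) : ℝ :=
  ∫ x in α..β, √(min 1 (pot f h k c d x))

/-- The functional. -/
noncomputable def fun1 (f h k : ℝ → ℝ) (m n c d α β : ℝ) : ℝ :=
  2 * act f h k c d α β + π * (m * c + n * d)

section basic
variable {f h k : ℝ → ℝ} {c d x m n : ℝ}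

lemma lagrange : num f h k c d x * X2 f h k m n x
    = (m * c + n * d) ^ 2 * (f x ^ 2 * h x ^ 2 * ww f h k x) + Nn f h k m n c d x ^ 2 := by
  unfold num X2 ww Nn
  ring

lemma num_eq : num f h k c d x
    = (c * h x - f x * h x * k x * (d * f x)) ^ 2 + ww f h k x * (d * f x) ^ 2 := by
  unfold num ww
  ring

lemma num_eq' : num f h k c d x
    = (d * f x - f x * h x * k x * (c * h x)) ^ 2 + ww f h k x * (c * h x) ^ 2 := by
  unfold num ww
  ring

lemma num_nonneg (hw : 0 < ww f h k x) : 0 ≤ num f h k c d x := by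
  rw [num_eq]; positivity

lemma nrm_eq (hf : f x ≠ 0) (hh : h x ≠ 0) (hw : ww f h k x ≠ 0) :
    nrm f h k c d x = num f h k c d x / (f x ^ 2 * h x ^ 2 * ww f h k x) := by
  unfold nrm num
  field_simp

lemma pot_eq (hf : f x ≠ 0) (hh : h x ≠ 0) (hw : ww f h k x ≠ 0) :
    pot f h k c d x = - pol f h k c d x / (f x ^ 2 * h x ^ 2 * ww f h k x) := by
  unfold pot
  rw [nrm_eq hf hh hw]
  unfold pol
  field_simp
  ring

lemma nrm_nonneg (hf : f x ≠ 0) (hh : h x ≠ 0) (hw : 0 < ww f h k x) : 0 ≤ nrm f h k c d x := by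
  rw [nrm_eq hf hh hw.ne']
  have := num_nonneg (c := c) (d := d) hw
  positivity

lemma nrm_pos (hf : f x ≠ 0) (hh : h x ≠ 0) (hw : 0 < ww f h k x) (hcd : c ≠ 0 ∨ d ≠ 0) :
    0 < nrm f h k c d x := by
  rw [nrm_eq hf hh hw.ne']
  have : 0 < num f h k c d x := by
    rcases hcd with h1 | h1
    · rw [num_eq']; positivity
    · rw [num_eq]; positivity
  positivity

lemma pot_le_one (hf : f x ≠ 0) (hh : h x ≠ 0) (hw : 0 < ww f h k x) : pot f h k c d x ≤ 1 := by
  unfold pot
  linarith [nrm_nonneg (c := c) (d := d) hf hh hw]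

lemma pot_pos_iff (hf : f x ≠ 0) (hh : h x ≠ 0) (hw : 0 < ww f h k x) :
    0 < pot f h k c d x ↔ pol f h k c d x < 0 := by
  rw [pot_eq hf hh hw.ne', lt_div_iff₀ (by positivity), zero_mul]
  constructor <;> intro h1 <;> linarith

lemma pot_nonpos_iff (hf : f x ≠ 0) (hh : h x ≠ 0) (hw : 0 < ww f h k x) :
    pot f h k c d x ≤ 0 ↔ 0 ≤ pol f h k c d x := by
  rw [← not_lt, pot_pos_iff hf hh hw, not_lt]

lemma pot_zero_iff (hf : f x ≠ 0) (hh : h x ≠ 0) (hw : 0 < ww f h k x) :
    pot f h k c d x = 0 ↔ pol f h k c d x = 0 := by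
  rw [pot_eq hf hh hw.ne', div_eq_zero_iff]
  constructor
  · rintro (h1 | h1)
    · linarith
    · exact absurd h1 (by positivity)
  · intro h1; left; linarith

/-- The side function does not vanish in the forbidden region. -/
lemma Nn_sq {a : ℝ} (hw : 0 < ww f h k x) (hct : |m * c + n * d| ≤ a)
    (hX : a ^ 2 < X2 f h k m n x) (hp : 0 ≤ pol f h k c d x) :
    f x ^ 2 * h x ^ 2 * ww f h k x * (X2 f h k m n x - a ^ 2) ≤ Nn f h k m n c d x ^ 2 := by
  have h1 := lagrange (f := f) (h := h) (k := k) (c := c) (d := d) (x := x) (m := m) (n := n)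
  have h2 : (m * c + n * d) ^ 2 ≤ a ^ 2 := by
    rw [← sq_abs (m * c + n * d)]
    exact pow_le_pow_left₀ (abs_nonneg _) hct 2
  unfold pol at hp
  have hD : 0 ≤ f x ^ 2 * h x ^ 2 * ww f h k x := by positivity
  have h3 : f x ^ 2 * h x ^ 2 * ww f h k x * X2 f h k m n x ≤ num f h k c d x * X2 f h k m n x := by
    apply mul_le_mul_of_nonneg_right (by linarith)
    nlinarith [sq_nonneg a]
  have h4 : (m * c + n * d) ^ 2 * (f x ^ 2 * h x ^ 2 * ww f h k x)
      ≤ a ^ 2 * (f x ^ 2 * h x ^ 2 * ww f h k x) := mul_le_mul_of_nonneg_right h2 hD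
  nlinarith

lemma Nn_ne {a : ℝ} (hf : f x ≠ 0) (hh : h x ≠ 0) (hw : 0 < ww f h k x)
    (hct : |m * c + n * d| ≤ a) (hX : a ^ 2 < X2 f h k m n x) (hp : 0 ≤ pol f h k c d x) :
    Nn f h k m n c d x ≠ 0 := by
  intro h0
  have h1 := Nn_sq hw hct hX hp
  rw [h0] at h1
  have h2 : 0 < f x ^ 2 * h x ^ 2 * ww f h k x * (X2 f h k m n x - a ^ 2) := by
    have : 0 < X2 f h k m n x - a ^ 2 := by linarith
    positivity
  nlinarith

/-- At a zero of the side function the motion is allowed. -/
lemma pol_neg_of_Nn {a : ℝ} (hf : f x ≠ 0) (hh : h x ≠ 0) (hw : 0 < ww f h k x)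
    (hct : |m * c + n * d| ≤ a) (hX : a ^ 2 < X2 f h k m n x) (h0 : Nn f h k m n c d x = 0) :
    c ^ 2 < f x ^ 2 ∧ d ^ 2 < h x ^ 2 := by
  have h1 : pol f h k c d x < 0 := by
    by_contra hcon
    push Not at hcon
    exact Nn_ne hf hh hw hct hX hcon h0
  unfold pol at h1
  constructor
  · rw [num_eq'] at h1
    have h2 : ww f h k x * (c * h x) ^ 2 < f x ^ 2 * h x ^ 2 * ww f h k x := by
      nlinarith [sq_nonneg (d * f x - f x * h x * k x * (c * h x))]
    have h3 : 0 < ww f h k x * h x ^ 2 := by positivity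
    by_contra hcon
    push Not at hcon
    have : ww f h k x * h x ^ 2 * f x ^ 2 ≤ ww f h k x * h x ^ 2 * c ^ 2 :=
      mul_le_mul_of_nonneg_left hcon h3.le
    nlinarith
  · rw [num_eq] at h1
    have h2 : ww f h k x * (d * f x) ^ 2 < f x ^ 2 * h x ^ 2 * ww f h k x := by
      nlinarith [sq_nonneg (c * h x - f x * h x * k x * (d * f x))]
    have h3 : 0 < ww f h k x * f x ^ 2 := by positivity
    by_contra hcon
    push Not at hcon
    have : ww f h k x * f x ^ 2 * h x ^ 2 ≤ ww f h k x * f x ^ 2 * d ^ 2 :=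
      mul_le_mul_of_nonneg_left hcon h3.le
    nlinarith

lemma pot_scale (s : ℝ) : pot f h k (s * c) (s * d) x = 1 - s ^ 2 * (1 - pot f h k c d x) := by
  unfold pot nrm
  ring

lemma pot_neg : pot f h k (-c) (-d) x = pot f h k c d x := by
  unfold pot nrm
  ring

lemma pol_scale (s : ℝ) : pol f h k (s * c) (s * d) x
    = pol f h k c d x + (s ^ 2 - 1) * num f h k c d x := by
  unfold pol num
  ring

lemma Nn_scale (s : ℝ) : Nn f h k m n (s * c) (s * d) x = s * Nn f h k m n c d x := by
  unfold Nn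
  ring

lemma pol_neg : pol f h k (-c) (-d) x = pol f h k c d x := by
  unfold pol num
  ring

lemma Nn_neg : Nn f h k (-m) (-n) (-c) (-d) x = Nn f h k m n c d x := by
  unfold Nn
  ring

end basic

section
variable {L : ℝ} {f h k : ℝ → ℝ}

lemma Profile.f_zero (H : Profile L f h k) : f 0 = 0 := by
  have := H.f_odd 0
  rw [neg_zero] at this
  linarith

lemma Profile.h_L (H : Profile L f h k) : h L = 0 := by
  have := H.h_odd L
  rw [show 2 * L - L = L by ring] at this
  linarith

lemma Profile.fc (H : Profile L f h k) : Continuous f := H.smooth_f.continuous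
lemma Profile.hc (H : Profile L f h k) : Continuous h := H.smooth_h.continuous
lemma Profile.kc (H : Profile L f h k) : Continuous k := H.smooth_k.continuous
lemma Profile.fdiff (H : Profile L f h k) : Differentiable ℝ f :=
  H.smooth_f.differentiable (by simp)
lemma Profile.hdiff (H : Profile L f h k) : Differentiable ℝ h :=
  H.smooth_h.differentiable (by simp)
lemma Profile.kdiff (H : Profile L f h k) : Differentiable ℝ k :=
  H.smooth_k.differentiable (by simp)

lemma Profile.f_nonneg (H : Profile L f h k) {x : ℝ} (h0 : 0 ≤ x) (hL : x ≤ L) : 0 ≤ f x := by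
  rcases eq_or_lt_of_le h0 with h1 | h1
  · rw [← h1, H.f_zero]
  · exact (H.f_pos x h1 hL).le

lemma Profile.h_nonneg (H : Profile L f h k) {x : ℝ} (h0 : 0 ≤ x) (hL : x ≤ L) : 0 ≤ h x := by
  rcases eq_or_lt_of_le hL with h1 | h1
  · rw [h1, H.h_L]
  · exact (H.h_pos x h0 h1).le

lemma Profile.deriv_h_zero (H : Profile L f h k) : deriv h 0 = 0 := by
  have h1 : (fun x => h (-x)) = h := funext H.h_even
  have h2 := deriv_comp_neg h 0
  rw [h1, neg_zero] at h2
  linarith

lemma Profile.deriv_f_L (H : Profile L f h k) : deriv f L = 0 := by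
  have h1 : (fun x => f (2 * L - x)) = f := funext H.f_even
  have h2 := deriv_comp_const_sub (f := f) (2 * L) L
  rw [h1, show 2 * L - L = L by ring] at h2
  linarith

lemma Profile.ww_pos (H : Profile L f h k) (x : ℝ) : 0 < ww f h k x := by
  set g : ℝ → ℝ := fun x => (f x * h x * k x) ^ 2 with hg
  have h1 : ∀ x, g (-x) = g x := by
    intro x; simp only [hg]; rw [H.f_odd, H.h_even, H.k_even]; ring
  have h2 : ∀ x, g (2 * L - x) = g x := by
    intro x; simp only [hg]; rw [H.f_even, H.h_odd, H.k_even']; ring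
  have hp : Function.Periodic g (2 * L) := by
    intro x
    rw [← h1 x, ← h2 (-x)]
    congr 1; ring
  obtain ⟨y, hy, hxy⟩ := hp.exists_mem_Ico₀ (by have := H.L_pos; positivity) x
  have h3 : g y < 1 := by
    rcases le_or_gt y L with h4 | h4
    · exact H.definite y hy.1 h4
    · rw [← h2]
      exact H.definite _ (by linarith [hy.2]) (by linarith)
  have : g x < 1 := by rw [hxy]; exact h3
  unfold ww
  simp only [hg] at this
  linarith

/-- Exchange of the two axes. -/
lemma Profile.swap (H : Profile L f h k) :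
    Profile L (fun x => h (L - x)) (fun x => f (L - x)) (fun x => k (L - x)) := by
  refine ⟨H.L_pos, ?_, ?_, ?_, ?_, ?_, ?_, ?_, ?_, ?_, ?_, ?_, ?_, ?_, ?_⟩
  · exact H.smooth_h.comp (contDiff_const.sub contDiff_id)
  · exact H.smooth_f.comp (contDiff_const.sub contDiff_id)
  · exact H.smooth_k.comp (contDiff_const.sub contDiff_id)
  · intro r
    have := H.h_odd (L - r)
    rw [show 2 * L - (L - r) = L - -r by ring] at this
    simpa using this
  · intro r
    have := H.h_even (L - r)
    rw [show -(L - r) = L - (2 * L - r) by ring] at this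
    simpa using this
  · intro r
    have := H.f_even (L - r)
    rw [show 2 * L - (L - r) = L - -r by ring] at this
    simpa using this
  · intro r
    have := H.f_odd (L - r)
    rw [show -(L - r) = L - (2 * L - r) by ring] at this
    simpa using this
  · intro r
    have := H.k_even' (L - r)
    rw [show 2 * L - (L - r) = L - -r by ring] at this
    simpa using this
  · intro r
    have := H.k_even (L - r)
    rw [show -(L - r) = L - (2 * L - r) by ring] at this
    simpa using this
  · intro r h1 h2; exact H.h_pos _ (by linarith) (by linarith)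
  · intro r h1 h2; exact H.f_pos _ (by linarith) (by linarith)
  · have := deriv_comp_const_sub (f := h) L 0
    rw [sub_zero, H.deriv_L] at this
    rw [this]; norm_num
  · have := deriv_comp_const_sub (f := f) L L
    rw [sub_self, H.deriv_zero] at this
    rw [this]
  · intro r h1 h2
    have := H.definite (L - r) (by linarith) (by linarith)
    have e : h (L - r) * f (L - r) * k (L - r) = f (L - r) * h (L - r) * k (L - r) := by ring
    rw [e]; exact this

/-! ### Measurability and continuity -/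

lemma Profile.ww_cont (H : Profile L f h k) : Continuous (ww f h k) := by
  have hf := H.fc
  have hh := H.hc
  have hk := H.kc
  unfold ww
  fun_prop

lemma Profile.pot_meas (H : Profile L f h k) (c d : ℝ) : Measurable (pot f h k c d) := by
  have hf := H.fc.measurable
  have hh := H.hc.measurable
  have hk := H.kc.measurable
  have hw := H.ww_cont.measurable
  unfold pot nrm
  fun_prop

lemma sqm_le_one {p : ℝ} : √(min 1 p) ≤ 1 := by
  rw [← Real.sqrt_one]
  apply Real.sqrt_le_sqrt
  rw [Real.sqrt_one]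
  exact min_le_left _ _

lemma Profile.sqm_meas (H : Profile L f h k) (c d : ℝ) :
    Measurable (fun x => √(min 1 (pot f h k c d x))) :=
  (measurable_const.min (H.pot_meas c d)).sqrt

lemma Profile.iim (H : Profile L f h k) (c d x y : ℝ) :
    IntervalIntegrable (fun x => √(min 1 (pot f h k c d x))) volume x y := by
  refine (intervalIntegrable_const (c := (1 : ℝ))).mono_fun (H.sqm_meas c d).aestronglyMeasurable
    (Eventually.of_forall fun t => ?_)
  beta_reduce
  rw [Real.norm_of_nonneg (Real.sqrt_nonneg _), norm_one]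
  exact sqm_le_one

lemma Profile.fne (H : Profile L f h k) {x : ℝ} (hx : x ∈ Ioo 0 L) : f x ≠ 0 :=
  (H.f_pos x hx.1 hx.2.le).ne'

lemma Profile.hne (H : Profile L f h k) {x : ℝ} (hx : x ∈ Ioo 0 L) : h x ≠ 0 :=
  (H.h_pos x hx.1.le hx.2).ne'

lemma Profile.pot_le (H : Profile L f h k) {c d x : ℝ} (hx : x ∈ Ioo 0 L) :
    pot f h k c d x ≤ 1 := pot_le_one (H.fne hx) (H.hne hx) (H.ww_pos x)

lemma Profile.min_eq (H : Profile L f h k) {c d x : ℝ} (hx : x ∈ Ioo 0 L) :
    min 1 (pot f h k c d x) = pot f h k c d x := min_eq_right (H.pot_le hx)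

lemma Profile.ii (H : Profile L f h k) (c d : ℝ) {x y : ℝ} (hx : 0 ≤ x) (hxy : x ≤ y)
    (hy : y ≤ L) : IntervalIntegrable (fun x => √(pot f h k c d x)) volume x y := by
  have h1 := H.iim c d x y
  rw [intervalIntegrable_iff_integrableOn_Ioo_of_le hxy] at h1 ⊢
  refine h1.congr_fun ?_ measurableSet_Ioo
  intro t ht
  simp only
  rw [H.min_eq ⟨hx.trans_lt ht.1, ht.2.trans_le hy⟩]

lemma Profile.act_eq (H : Profile L f h k) (c d : ℝ) {α β : ℝ} (h0 : 0 ≤ α) (hαβ : α ≤ β)
    (hβ : β ≤ L) : act f h k c d α β = ∫ x in α..β, √(pot f h k c d x) := by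
  unfold act
  rw [intervalIntegral.integral_of_le hαβ, intervalIntegral.integral_of_le hαβ,
    integral_Ioc_eq_integral_Ioo, integral_Ioc_eq_integral_Ioo]
  refine setIntegral_congr_fun measurableSet_Ioo ?_
  intro t ht
  simp only
  rw [H.min_eq ⟨h0.trans_lt ht.1, ht.2.trans_le hβ⟩]

lemma Profile.num_cont (H : Profile L f h k) (c d : ℝ) : Continuous (num f h k c d) := by
  have hf := H.fc
  have hh := H.hc
  have hk := H.kc
  unfold num
  fun_prop

lemma Profile.pol_cont (H : Profile L f h k) (c d : ℝ) : Continuous (pol f h k c d) := by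
  have hf := H.fc
  have hh := H.hc
  have hk := H.kc
  unfold pol num ww
  fun_prop

lemma Profile.Nn_cont (H : Profile L f h k) (m n c d : ℝ) : Continuous (Nn f h k m n c d) := by
  have hf := H.fc
  have hh := H.hc
  have hk := H.kc
  unfold Nn
  fun_prop

lemma Profile.act_mono (H : Profile L f h k) {c d α β α' β' : ℝ} (h1 : α ≤ α') (h2 : α' ≤ β')
    (h3 : β' ≤ β) : act f h k c d α' β' ≤ act f h k c d α β := by
  unfold act
  exact intervalIntegral.integral_mono_interval h1 h2 h3
    (Eventually.of_forall fun x => Real.sqrt_nonneg _) (H.iim c d α β)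

lemma act_nonneg {c d α β : ℝ} (h1 : α ≤ β) : 0 ≤ act f h k c d α β :=
  intervalIntegral.integral_nonneg h1 fun x _ => Real.sqrt_nonneg _

/-- Joint continuity of the primitive. -/
lemma Profile.prim_cont (H : Profile L f h k) :
    Continuous (fun p : (ℝ × ℝ) × ℝ => ∫ x in (0 : ℝ)..p.2, √(min 1 (pot f h k p.1.1 p.1.2 x))) := by
  have hlip : ∀ q : ℝ × ℝ,
      LipschitzWith 1 (fun y => ∫ x in (0 : ℝ)..y, √(min 1 (pot f h k q.1 q.2 x))) := by
    intro q
    refine LipschitzWith.of_dist_le_mul fun y z => ?_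
    rw [NNReal.coe_one, one_mul, Real.dist_eq, Real.dist_eq,
      intervalIntegral.integral_interval_sub_left (H.iim _ _ _ _) (H.iim _ _ _ _)]
    have := intervalIntegral.norm_integral_le_of_norm_le_const (a := z) (b := y) (C := 1)
      (f := fun x => √(min 1 (pot f h k q.1 q.2 x))) (fun x _ => by
        rw [Real.norm_of_nonneg (Real.sqrt_nonneg _)]; exact sqm_le_one)
    rw [one_mul, Real.norm_eq_abs] at this
    exact this
  have hcont : ∀ y : ℝ,
      Continuous (fun q : ℝ × ℝ => ∫ x in (0 : ℝ)..y, √(min 1 (pot f h k q.1 q.2 x))) := by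
    intro y
    refine intervalIntegral.continuous_of_dominated_interval (bound := fun _ => 1) ?_ ?_ ?_ ?_
    · intro q; exact (H.sqm_meas _ _).aestronglyMeasurable
    · intro q
      refine Eventually.of_forall fun x _ => ?_
      rw [Real.norm_of_nonneg (Real.sqrt_nonneg _)]; exact sqm_le_one
    · exact intervalIntegrable_const
    · refine Eventually.of_forall fun x _ => ?_
      unfold pot nrm
      fun_prop
  exact continuous_prod_of_continuous_lipschitzWith'
    (fun p : (ℝ × ℝ) × ℝ => ∫ x in (0 : ℝ)..p.2, √(min 1 (pot f h k p.1.1 p.1.2 x))) 1 hlip hcont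

lemma Profile.act_prim (H : Profile L f h k) (c d α β : ℝ) :
    act f h k c d α β = (∫ x in (0 : ℝ)..β, √(min 1 (pot f h k c d x)))
      - ∫ x in (0 : ℝ)..α, √(min 1 (pot f h k c d x)) := by
  unfold act
  rw [intervalIntegral.integral_interval_sub_left (H.iim _ _ _ _) (H.iim _ _ _ _)]

lemma Profile.act_cont (H : Profile L f h k) :
    Continuous (fun p : (ℝ × ℝ) × (ℝ × ℝ) => act f h k p.1.1 p.1.2 p.2.1 p.2.2) := by
  have e : (fun p : (ℝ × ℝ) × (ℝ × ℝ) => act f h k p.1.1 p.1.2 p.2.1 p.2.2)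
      = fun p => (∫ x in (0 : ℝ)..p.2.2, √(min 1 (pot f h k p.1.1 p.1.2 x)))
        - ∫ x in (0 : ℝ)..p.2.1, √(min 1 (pot f h k p.1.1 p.1.2 x)) := by
    funext p
    rw [H.act_prim]
  rw [e]
  have h1 : Continuous (fun p : (ℝ × ℝ) × (ℝ × ℝ) => ∫ x in (0 : ℝ)..p.2.2,
      √(min 1 (pot f h k p.1.1 p.1.2 x))) :=
    H.prim_cont.comp (f := fun p : (ℝ × ℝ) × (ℝ × ℝ) => (p.1, p.2.2)) (by fun_prop)
  have h2 : Continuous (fun p : (ℝ × ℝ) × (ℝ × ℝ) => ∫ x in (0 : ℝ)..p.2.1,
      √(min 1 (pot f h k p.1.1 p.1.2 x))) :=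
    H.prim_cont.comp (f := fun p : (ℝ × ℝ) × (ℝ × ℝ) => (p.1, p.2.1)) (by fun_prop)
  exact h1.sub h2

/-! ### Exchange of the axes for the functions -/

lemma ww_swap (x : ℝ) : ww (fun x => h (L - x)) (fun x => f (L - x)) (fun x => k (L - x)) x
    = ww f h k (L - x) := by
  unfold ww; ring

lemma pot_swap (c d x : ℝ) :
    pot (fun x => h (L - x)) (fun x => f (L - x)) (fun x => k (L - x)) d c x
      = pot f h k c d (L - x) := by
  unfold pot nrm
  rw [ww_swap]
  ring

lemma num_swap (c d x : ℝ) :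
    num (fun x => h (L - x)) (fun x => f (L - x)) (fun x => k (L - x)) d c x
      = num f h k c d (L - x) := by
  unfold num; ring

lemma pol_swap (c d x : ℝ) :
    pol (fun x => h (L - x)) (fun x => f (L - x)) (fun x => k (L - x)) d c x
      = pol f h k c d (L - x) := by
  unfold pol
  rw [num_swap, ww_swap]
  ring

lemma Nn_swap (m n c d x : ℝ) :
    Nn (fun x => h (L - x)) (fun x => f (L - x)) (fun x => k (L - x)) n m d c x
      = - Nn f h k m n c d (L - x) := by
  unfold Nn; ring

lemma X2_swap (m n x : ℝ) :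
    X2 (fun x => h (L - x)) (fun x => f (L - x)) (fun x => k (L - x)) n m x
      = X2 f h k m n (L - x) := by
  unfold X2; ring

lemma act_swap (c d α β : ℝ) :
    act (fun x => h (L - x)) (fun x => f (L - x)) (fun x => k (L - x)) d c (L - β) (L - α)
      = act f h k c d α β := by
  unfold act
  simp only [pot_swap]
  have := intervalIntegral.integral_comp_sub_left (a := L - β) (b := L - α)
    (fun x => √(min 1 (pot f h k c d x))) L
  rw [sub_sub_cancel, sub_sub_cancel] at this
  exact this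

end

end TIS
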