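import Pool.Agent.TIS.Crit2

/-!
# The minimum gives a closed geodesic
-/

namespace TIS

open Set MeasureTheory Real Filter Topology

section
variable {L : ℝ} {f h k : ℝ → ℝ} {a b B : ℝ} {M σ m n : ℤ} {c d α β : ℝ}

/-- The geodesic, away from the axes. -/
lemma Cr.closed_regular (r : Cr L f h k a b B M σ m n c d α β) (hα : 0 < α) (hβ : β < L) :
    ∃ (ρ θ φ : ℝ → ℝ) (T : ℝ), IsUnitGeodesic f h k ρ θ φ ∧ Closes L ρ θ φ T ∧
      T = 2 * fun1 f h k m n c d α β := by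
  have hw : SGR.Well (pot f h k c d) α β :=
    ⟨r.lt, fun x hx => r.pot_contDiffAt hx, r.potα hα, r.potβ hβ, fun x hx => r.potpos hx,
      r.dleft hα, r.dright hβ⟩
  have cP := r.PPc
  have cQ := r.QQc
  have hint : ∀ g : ℝ → ℝ, ContinuousOn g (Icc α β) →
      IntervalIntegrable (fun x => g x / √(pot f h k c d x)) volume α β := by
    intro g hg
    rw [intervalIntegrable_iff_integrableOn_Ioo_of_le r.lt.le]
    exact hw.integrableOn hg
  have conv : ∀ g : ℝ → ℝ, ∫ x in Ioo α β, g x = ∫ x in α..β, g x := by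
    intro g
    rw [intervalIntegral.integral_of_le r.lt.le, integral_Ioc_eq_integral_Ioo]
  have k1 : ∫ x in α..β, PP f h k c d x / √(pot f h k c d x) = π / 2 * m := by
    have := r.foc_eq (v₁ := 1) (v₂ := 0) (by norm_num) (by norm_num)
      (fun h0 => absurd h0 hα.ne') (fun _ => rfl) hint
    simpa using this
  have k2 : ∫ x in α..β, QQ f h k c d x / √(pot f h k c d x) = π / 2 * n := by
    have := r.foc_eq (v₁ := 0) (v₂ := 1) (by norm_num) (by norm_num)
      (fun _ => rfl) (fun h0 => absurd h0 hβ.ne) hint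
    simpa using this
  have k3 := r.value hint (by rw [k1]) (by rw [k2])
  refine ⟨hw.sol, DWS.ang hw (PP f h k c d), DWS.ang hw (QQ f h k c d),
    2 * SGR.per (pot f h k c d) α β,
    r.C.H.geodesic_well hw (fun x hx => r.reg0 hx) (fun x hx => r.reg1 hx), ?_, ?_⟩
  · refine osc_closes_two hw cP cQ m n ?_ ?_
    · rw [conv, k1]; ring
    · rw [conv, k2]; ring
  · rw [DWS.per_eq hw, conv, k3]

/-- Change of the type of a minimum. -/
lemma Cr.transfer (r : Cr L f h k a b B M σ m n c d α β) {σ' m' n' : ℤ}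
    (A' : Adm L f h k a b B M σ' m' n' c d α β)
    (h1 : (m' : ℝ) * c + n' * d ≤ m * c + n * d) :
    Cr L f h k a b B M σ' m' n' c d α β ∧
      fun1 f h k m' n' c d α β = fun1 f h k m n c d α β := by
  have hle : fun1 f h k m' n' c d α β ≤ fun1 f h k m n c d α β := by
    unfold fun1
    have := mul_le_mul_of_nonneg_left h1 pi_pos.le
    linarith
  refine ⟨⟨r.C, A', fun _ _ _ _ _ _ _ A'' => hle.trans (r.isMin _ _ _ _ _ _ _ A''), r.lt,
    r.inside, h1.trans_lt r.ct, r.cd⟩, le_antisymm hle (r.isMin _ _ _ _ _ _ _ A')⟩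

lemma ww_zero (H : Profile L f h k) : ww f h k 0 = 1 := by
  unfold ww; rw [H.f_zero]; simp

lemma pot_even (H : Profile L f h k) (d x : ℝ) : pot f h k 0 d (-x) = pot f h k 0 d x := by
  unfold pot nrm ww
  rw [H.f_odd, H.h_even, H.k_even]
  ring

lemma PP_even (H : Profile L f h k) (d x : ℝ) : PP f h k 0 d (-x) = PP f h k 0 d x := by
  unfold PP ww
  rw [H.f_odd, H.h_even, H.k_even]
  ring

lemma QQ_even (H : Profile L f h k) (d x : ℝ) : QQ f h k 0 d (-x) = QQ f h k 0 d x := by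
  unfold QQ ww
  rw [H.f_odd, H.h_even, H.k_even]
  ring

/-- The momentum of a minimum which begins at the axis. -/
lemma Cr.d_lt (r : Cr L f h k a b B M σ m n 0 d 0 β) : |d| < a := by
  have h1 := r.ct
  have h2 := r.ct_pos
  rw [mul_zero, zero_add] at h1 h2
  have h3 := odd_abs r.A.hn
  have h4 : |(n : ℝ)| * |d| < a := by rw [← abs_mul, abs_of_pos h2]; exact h1
  have h5 : |d| ≤ |(n : ℝ)| * |d| := by nlinarith [abs_nonneg d]
  exact h5.trans_lt h4

lemma Cr.pot_zero_pos (r : Cr L f h k a b B M σ m n 0 d 0 β) : 0 < pot f h k 0 d 0 := by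
  have H := r.C.H
  have h3 := H.h_pos 0 le_rfl H.L_pos
  have h4 := r.C.rho 1 1 odd_one odd_one 0 ⟨le_rfl, H.L_pos.le⟩
  have h5 : X2 f h k ((1 : ℤ) : ℝ) ((1 : ℤ) : ℝ) 0 = h 0 ^ 2 := by
    unfold X2; rw [H.f_zero]; push_cast; ring
  rw [h5] at h4
  have h6 : d ^ 2 < h 0 ^ 2 := by
    have h7 := r.d_lt
    rw [← sq_abs d]
    have := abs_nonneg d
    nlinarith
  have h7 : d ^ 2 / h 0 ^ 2 < 1 := by rwa [div_lt_one (by positivity)]
  unfold pot nrm
  rw [ww_zero H, H.f_zero]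
  simp only [ne_eq, OfNat.ofNat_ne_zero, not_false_eq_true, zero_pow, div_zero, zero_mul,
    mul_zero, sub_zero, zero_add, div_one]
  linarith

lemma Cr.hpos' (r : Cr L f h k a b B M σ m n 0 d 0 β) (hβ : β < L) {x : ℝ}
    (hx : x ∈ Icc (-β) β) : 0 < h x := by
  have H := r.C.H
  rcases le_or_gt 0 x with h1 | h1
  · exact H.h_pos x h1 (hx.2.trans_lt hβ)
  · rw [← H.h_even]
    exact H.h_pos (-x) (by linarith) (by linarith [hx.1])

/-- The even well. -/
lemma Cr.well_left (r : Cr L f h k a b B M σ m n 0 d 0 β) (hβ : β < L) :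
    SGR.Well (pot f h k 0 d) (-β) β := by
  have H := r.C.H
  have hβ0 : 0 < β := r.lt
  have hev := pot_even H d
  refine ⟨by linarith, fun x hx => H.pot_contDiffAt (Or.inl rfl) (Or.inr (r.hpos' hβ hx).ne'),
    ?_, r.potβ hβ, ?_, ?_, r.dright hβ⟩
  · rw [hev]; exact r.potβ hβ
  · intro x hx
    rcases lt_trichotomy 0 x with h2 | h2 | h2
    · exact r.potpos ⟨h2, hx.2⟩
    · rw [← h2]; exact r.pot_zero_pos
    · rw [← hev]
      exact r.potpos ⟨by linarith, by linarith [hx.1]⟩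
  · have e1 : (fun x => pot f h k 0 d (-x)) = pot f h k 0 d := funext hev
    have e2 := deriv_comp_neg (pot f h k 0 d) (-β)
    rw [e1, neg_neg] at e2
    rw [e2]
    linarith [r.dright hβ]

lemma Cr.hint_left (r : Cr L f h k a b B M σ m n 0 d 0 β) (hβ : β < L) (g : ℝ → ℝ)
    (hg : ContinuousOn g (Icc 0 β)) :
    IntervalIntegrable (fun x => g x / √(pot f h k 0 d x)) volume 0 β := by
  have hβ0 : 0 < β := r.lt
  have hw := r.well_left hβ
  have h1 : ContinuousOn (fun x => g |x|) (Icc (-β) β) := by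
    refine hg.comp continuous_abs.continuousOn ?_
    intro x hx
    exact ⟨abs_nonneg x, abs_le.2 hx⟩
  have h2 := hw.integrableOn h1
  rw [intervalIntegrable_iff_integrableOn_Ioo_of_le hβ0.le]
  refine (h2.mono_set (Ioo_subset_Ioo (by linarith) le_rfl)).congr_fun ?_ measurableSet_Ioo
  intro x hx
  simp only
  rw [abs_of_pos hx.1]

/-- The derivative of `f` at the axis. -/
lemma near_axis (H : Profile L f h k) {η : ℝ} (hη : 0 < η) :
    ∀ᶠ x in 𝓝[>] (0 : ℝ), f x ^ 2 * ww f h k x ≤ x ^ 2 * (1 + η) := by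
  have hder : HasDerivAt f 1 0 := by
    have := (H.fdiff 0).hasDerivAt
    rwa [H.deriv_zero] at this
  have h1 : Tendsto (slope f 0) (𝓝[>] 0) (𝓝 1) :=
    (hasDerivAt_iff_tendsto_slope.1 hder).mono_left
      (nhdsWithin_mono 0 (fun x hx => (ne_of_gt hx)))
  have h2 : Tendsto (ww f h k) (𝓝[>] 0) (𝓝 1) := by
    have := (H.ww_cont.tendsto 0).mono_left (nhdsWithin_le_nhds (s := Ioi 0))
    rwa [ww_zero H] at this
  have h3 : Tendsto (fun x => slope f 0 x ^ 2 * ww f h k x) (𝓝[>] 0) (𝓝 (1 ^ 2 * 1)) :=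
    (h1.pow 2).mul h2
  have h4 := h3.eventually (gt_mem_nhds (show (1 : ℝ) ^ 2 * 1 < 1 + η by linarith))
  filter_upwards [h4, self_mem_nhdsWithin] with x hx hx0
  have hx0' : (0 : ℝ) < x := hx0
  rw [slope_def_field, H.f_zero, sub_zero, sub_zero, div_pow, div_mul_eq_mul_div,
    div_lt_iff₀ (by positivity)] at hx
  linarith

/-- The first order condition in the singular direction. -/
lemma Cr.sing (r : Cr L f h k a b B M σ m 1 0 d 0 β) (hβ : β < L) :
    (σ : ℝ) * ∫ x in (0 : ℝ)..β, PP f h k 0 d x / √(pot f h k 0 d x) ≤ π / 2 * (σ * m - 1) := by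
  have A := r.A
  have H := r.C.H
  have hβ0 : 0 < β := r.lt
  have hσ2 : (σ : ℝ) ^ 2 = 1 := by rcases A.hσ with h5 | h5 <;> rw [h5] <;> norm_num
  have hσabs : |(σ : ℝ)| = 1 := by rcases A.hσ with h5 | h5 <;> rw [h5] <;> norm_num
  set U : ℝ → ℝ := pot f h k 0 d with hU
  set w : ℝ → ℝ := fun x => -2 * (σ * PP f h k 0 d x) with hw
  have hwc : Continuous w := by
    have : Continuous (PP f h k 0 d) := continuous_iff_continuousAt.2 fun x =>
      (H.PP_contDiffAt (Or.inl rfl)).continuousAt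
    exact continuous_const.mul (continuous_const.mul this)
  obtain ⟨W, hW⟩ := isCompact_Icc.exists_bound_of_continuousOn (hwc.continuousOn (s := Icc 0 L))
  have hW0 : 0 ≤ W := (norm_nonneg _).trans (hW 0 ⟨le_rfl, H.L_pos.le⟩)
  have hWle : ∀ x ∈ Icc 0 L, |w x| ≤ W := fun x hx => hW x hx
  -- the potentials
  set Vt : ℝ → ℝ → ℝ := fun ε x => U x + ε * w x with hVt
  set V : ℝ → ℝ → ℝ := fun ε x => pot f h k (ε * σ) d x with hV
  have hVV : ∀ ε x, V ε x = Vt ε x - ε ^ 2 * nrm f h k σ 0 x := by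
    intro ε x
    have := pot_expand (f := f) (h := h) (k := k) (c := 0) (d := d) (x := x) (σ : ℝ) 0 ε
    rw [zero_add, mul_zero, add_zero, zero_mul, add_zero] at this
    simp only [hV, hVt, hU, hw]
    rw [this]
  have hUc : ∀ y < L, ContinuousOn U (Icc 0 y) := fun y hy x hx =>
    (H.pot_contDiffAt (Or.inl rfl)
      (Or.inr (H.h_pos x hx.1 (hx.2.trans_lt hy)).ne')).continuousAt.continuousWithinAt
  have hVtc : ∀ ε, ∀ y < L, ContinuousOn (Vt ε) (Icc 0 y) := fun ε y hy =>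
    (hUc y hy).add (continuousOn_const.mul hwc.continuousOn)
  have hVti : ∀ ε x y, 0 ≤ x → x ≤ y → y < L →
      IntervalIntegrable (fun x => √(Vt ε x)) volume x y := fun ε x y h1 h2 h3 =>
    ((hVtc ε y h3).mono (Icc_subset_Icc h1 le_rfl)).sqrt.intervalIntegrable_of_Icc h2
  have hVi : ∀ ε x y, 0 ≤ x → x ≤ y → y < L →
      IntervalIntegrable (fun x => √(V ε x)) volume x y := fun ε x y h1 h2 h3 =>
    H.ii _ _ h1 h2 h3.le
  have hp : 0 < U 0 := r.pot_zero_pos
  -- it suffices to prove an inequality for all `κ < π / 2`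
  by_contra hcon
  push Not at hcon
  set X := -((σ : ℝ) * ∫ x in (0 : ℝ)..β, PP f h k 0 d x / √(U x)) + π / 2 * (σ * m) with hX
  have hXlt : X < π / 2 := by rw [hX]; linarith
  obtain ⟨κ, hκ1, hκ2⟩ := exists_between hXlt
  have hloss := loss_bound (p := U 0) (δ₀ := β) (κ := κ) hp hκ2 (Vt := Vt) (V := V) ?_ ?_
  rotate_left
  · -- the comparison near the axis
    intro η hη
    have hη0 := hη.1
    have e1 : ∀ᶠ x in 𝓝[>] (0 : ℝ), |U x - U 0| < U 0 * η / 2 := by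
      have hc : ContinuousAt U 0 := (H.pot_contDiffAt (Or.inl rfl)
        (Or.inr (H.h_pos 0 le_rfl H.L_pos).ne')).continuousAt
      have := Metric.tendsto_nhds.1 hc.tendsto (U 0 * η / 2) (by positivity)
      exact nhdsWithin_le_nhds this
    obtain ⟨δ, hδ, hball⟩ := (mem_nhdsGT_iff_exists_Ioo_subset).1 (e1.and (near_axis H hη0))
    have hδ0 : (0 : ℝ) < δ := hδ
    refine ⟨min δ β, ⟨lt_min hδ0 hβ0, min_le_right _ _⟩, U 0 * η / (2 * (W + 1)), by positivity, ?_⟩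
    intro ε hε x hx
    have hε0 := hε.1
    obtain ⟨b1, b2⟩ := hball (a := x) ⟨hx.1, hx.2.trans_le (min_le_left _ _)⟩
    have hx0 := hx.1
    have hxL : x < L := (hx.2.trans_le (min_le_right _ _)).trans hβ
    have b3 := hWle x ⟨hx0.le, hxL.le⟩
    have b4 : ε * (2 * (W + 1)) < U 0 * η := by
      have := hε.2
      rwa [lt_div_iff₀ (by positivity)] at this
    have b5 : |ε * w x| ≤ U 0 * η / 2 := by
      rw [abs_mul, abs_of_pos hε0]
      nlinarith
    have b6 := abs_lt.1 b1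
    have b7 := abs_le.1 b5
    refine ⟨?_, ?_, ?_⟩
    · simp only [hVt]; linarith [b6.1, b7.1]
    · simp only [hVt]; linarith [b6.2, b7.2]
    · rw [hVV]
      have hf := H.f_pos x hx0 hxL.le
      have hww := H.ww_pos x
      have e2 : nrm f h k σ 0 x = 1 / (f x ^ 2 * ww f h k x) := by
        unfold nrm
        rw [hσ2]
        field_simp
        ring
      have e3 : ε ^ 2 / (x ^ 2 * (1 + η)) ≤ ε ^ 2 * nrm f h k σ 0 x := by
        rw [e2, mul_one_div]
        exact div_le_div_of_nonneg_left (sq_nonneg ε) (by positivity) b2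
      linarith
  · intro δ hδ
    exact ⟨1, one_pos, fun ε _ => (hVti ε 0 δ le_rfl hδ.1.le (hδ.2.trans_lt hβ)).sub
      (hVi ε 0 δ le_rfl hδ.1.le (hδ.2.trans_lt hβ))⟩
  obtain ⟨δ, hδ, ε₁, hε₁, hlo⟩ := hloss
  obtain ⟨C₂, hC₂, K₂, hK₂, ε₂, hε₂, b', hb'⟩ := r.move_right
  obtain ⟨ε₃, hε₃, hsm⟩ := r.small
  set ε₀ := min (min ε₁ ε₂) (min ε₃ (1 / (W + 1))) with hε₀
  have hε₀pos : 0 < ε₀ := lt_min (lt_min hε₁ hε₂) (lt_min hε₃ (by positivity))
  have g1 : ∀ ε ∈ Ioo 0 ε₀, ε ∈ Ioo 0 ε₁ := fun ε hε =>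
    ⟨hε.1, hε.2.trans_le ((min_le_left _ _).trans (min_le_left _ _))⟩
  have g2 : ∀ ε ∈ Ioo 0 ε₀, ε ∈ Ioo 0 ε₂ := fun ε hε =>
    ⟨hε.1, hε.2.trans_le ((min_le_left _ _).trans (min_le_right _ _))⟩
  have g3 : ∀ ε ∈ Ioo 0 ε₀, ε ∈ Ioo 0 ε₃ := fun ε hε =>
    ⟨hε.1, hε.2.trans_le ((min_le_right _ _).trans (min_le_left _ _))⟩
  have g4 : ∀ ε ∈ Ioo 0 ε₀, ε < 1 / (W + 1) := fun ε hε =>
    hε.2.trans_le ((min_le_right _ _).trans (min_le_right _ _))
  have hcd : ∀ ε ∈ Ioo 0 ε₀, |ε * (σ : ℝ) - 0| ≤ ε ∧ |d - d| ≤ ε := by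
    intro ε hε
    rw [sub_zero, sub_self, abs_zero, abs_mul, hσabs, mul_one, abs_of_pos hε.1]
    exact ⟨le_rfl, hε.1.le⟩
  have hLb : ∀ ε ∈ Ioo 0 ε₀, β ≤ b' ε ∧ b' ε < L := fun ε hε =>
    ⟨(hb' ε (g2 ε hε)).1, (hb' ε (g2 ε hε)).2.2.2.1 hβ⟩
  have hvar := var_any (ε₀ := ε₀) (C := C₂) (K := K₂ + W) (W := W) (κ := κ - π / 2 * (σ * m))
    (U := U) (w := w) (V := Vt) (a := fun _ => 0) (b := b') hβ0.le hε₀pos hW0 (H.pot_meas 0 d)
    (fun x hx => r.potpos hx) ?_ ?_ ?_ ?_ ?_ ?_ (H.ii _ _ le_rfl hβ0.le hβ.le)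
    (r.hint_left hβ (fun _ => 1) continuousOn_const) ?_ ?_ ?_
  rotate_left
  · intro ε hε x hx
    have h3 := hWle x ⟨hx.1.le, (hx.2.trans hβ).le⟩
    have h4 := g4 ε hε
    rw [lt_div_iff₀ (by positivity)] at h4
    have h5 : |w x + ε * W| ≤ |w x| + ε * W := by
      refine (abs_add_le _ _).trans ?_
      rw [abs_of_nonneg (mul_nonneg hε.1.le hW0)]
    nlinarith [hε.1]
  · intro ε hε x _
    have h5 : 0 ≤ ε * (ε * W) := by have := hε.1; positivity
    simp only [hVt]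
    linarith
  · intro ε hε
    have h5 : 0 ≤ C₂ * ε := by have := hε.1; positivity
    exact ⟨by linarith, le_rfl⟩
  · intro ε hε
    have h3 := hb' ε (g2 ε hε)
    exact ⟨h3.1, h3.2.1⟩
  · intro ε _ x hx
    exact absurd (hx.1.trans hx.2) (lt_irrefl _)
  · intro ε hε x hx
    have hε0 := hε.1
    have h3 := ((hb' ε (g2 ε hε)).2.2.2.2 0 d (by rw [sub_self, abs_zero]; exact hε0.le)
      (by rw [sub_self, abs_zero]; exact hε0.le) (fun h0 => absurd h0 hβ.ne)).2.2 x hx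
    have h4 := hWle x ⟨(hβ0.trans hx.1).le, (hx.2.trans (hLb ε hε).2).le⟩
    have h5 := le_abs_self (w x)
    simp only [hVt]
    have h6 : ε * w x ≤ ε * W := mul_le_mul_of_nonneg_left (h5.trans h4) hε0.le
    have h7 : U x ≤ K₂ * ε := h3
    linarith
  · have e : (fun x => w x / (2 * √(U x))) = fun x => (w x / 2) / √(U x) := by
      funext x; rw [div_div]
    rw [e]
    exact r.hint_left hβ (fun x => w x / 2) (hwc.continuousOn.div_const 2)
  · intro ε hε
    exact hVti ε 0 _ le_rfl (hβ0.le.trans (hLb ε hε).1) (hLb ε hε).2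
  · intro ε hε
    have hε0 := hε.1
    have h3 := hb' ε (g2 ε hε)
    obtain ⟨hb1, hb2⟩ := hLb ε hε
    have hb0 : 0 ≤ b' ε := hβ0.le.trans hb1
    obtain ⟨s1, s2, s3, s4⟩ := hsm ε (g3 ε hε) _ _ (hcd ε hε).1 (hcd ε hε).2
    obtain ⟨q1, q2, -⟩ := h3.2.2.2.2 _ _ (hcd ε hε).1 (hcd ε hε).2
      (fun h0 => absurd h0 hβ.ne)
    have hadm : Adm L f h k a b B M σ m 1 (ε * σ) d 0 (b' ε) := by
      refine ⟨A.hσ, A.hm, A.hn, A.hmM, A.hnM, s1, s2, s3, s4, le_rfl, hb0, hb2.le,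
        A.hbβ.trans hb1, A.hbα, ?_, q1, ?_, q2⟩
      · rw [pol_zero H]; positivity
      · rw [Nn_zero H]
        push_cast
        have e : (σ : ℝ) * (ε * σ * (h 0 ^ 2 * 1)) = σ ^ 2 * (ε * h 0 ^ 2) := by ring
        rw [e, hσ2]
        positivity
    have h5 := r.isMin _ _ _ _ _ _ _ hadm
    unfold fun1 at h5
    rw [r.act_eq, H.act_eq _ _ le_rfl hb0 hb2.le] at h5
    have h6 : π * ((m : ℝ) * (ε * σ) + ((1 : ℤ) : ℝ) * d)
        = π * (m * 0 + ((1 : ℤ) : ℝ) * d) + 2 * (π / 2 * (σ * m) * ε) := by ring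
    rw [h6] at h5
    -- comparison of the integrals
    have hδb : δ ≤ b' ε := hδ.2.trans hb1
    have hδL : δ < L := hδ.2.trans_lt hβ
    have j1 := hlo ε (g1 ε hε)
    rw [intervalIntegral.integral_sub (hVti ε 0 δ le_rfl hδ.1.le hδL)
      (hVi ε 0 δ le_rfl hδ.1.le hδL)] at j1
    have j2 : ∫ x in δ..(b' ε), √(V ε x) ≤ ∫ x in δ..(b' ε), √(Vt ε x) := by
      refine intervalIntegral.integral_mono_on hδb (hVi ε _ _ hδ.1.le hδb hb2)
        (hVti ε _ _ hδ.1.le hδb hb2) ?_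
      intro x hx
      apply Real.sqrt_le_sqrt
      rw [hVV]
      have hx0 : x ∈ Ioo 0 L := ⟨hδ.1.trans_le hx.1, hx.2.trans_lt hb2⟩
      have := mul_nonneg (sq_nonneg ε)
        (TIS.nrm_nonneg (c := (σ : ℝ)) (d := 0) (H.fne hx0) (H.hne hx0) (H.ww_pos x))
      linarith
    have j3 := intervalIntegral.integral_add_adjacent_intervals
      (hVi ε 0 δ le_rfl hδ.1.le hδL) (hVi ε _ _ hδ.1.le hδb hb2)
    have j4 := intervalIntegral.integral_add_adjacent_intervals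
      (hVti ε 0 δ le_rfl hδ.1.le hδL) (hVti ε _ _ hδ.1.le hδb hb2)
    have j5 : ∫ x in (0 : ℝ)..(b' ε), √(pot f h k (ε * σ) d x)
        = ∫ x in (0 : ℝ)..(b' ε), √(V ε x) := rfl
    have j6 : ∫ x in (0 : ℝ)..β, √(pot f h k 0 d x) = ∫ x in (0 : ℝ)..β, √(U x) := rfl
    rw [j5, j6] at h5
    linarith
  have e1 : (fun x => w x / (2 * √(U x))) = fun x => -σ * (PP f h k 0 d x / √(U x)) := by
    funext x
    simp only [hw]
    have : -2 * ((σ : ℝ) * PP f h k 0 d x) = 2 * (-σ * PP f h k 0 d x) := by ring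
    rw [this, mul_div_mul_left _ _ two_ne_zero, mul_div_assoc]
  rw [e1, intervalIntegral.integral_const_mul] at hvar
  have : κ ≤ X := by rw [hX]; linarith
  linarith

/-- The geodesic through the axis `r = 0`. -/
lemma Cr.closed_left' (r : Cr L f h k a b B M σ m n 0 d 0 β) (hβ : β < L) (hd : 0 < d) :
    ∃ (ρ θ φ : ℝ → ℝ) (T : ℝ), IsUnitGeodesic f h k ρ θ φ ∧ Closes L ρ θ φ T ∧
      T = 2 * fun1 f h k m n 0 d 0 β := by
  have H := r.C.H
  have A := r.A
  have hβ0 : 0 < β := r.lt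
  have hiβ := r.iβ hβ
  have hfβ := H.f_pos β hiβ.1 hiβ.2.le
  have hda : d < a := by have := r.d_lt; rwa [abs_of_pos hd] at this
  have hn1 : (1 : ℝ) ≤ n := by
    have h1 := r.ct_pos
    rw [mul_zero, zero_add] at h1
    have h2 : (0 : ℝ) < n := pos_of_mul_pos_left h1 hd.le
    have h3 : 0 < n := by exact_mod_cast h2
    exact_mod_cast h3
  -- the type
  set y := -(h β ^ 2 * k β) with hy
  set j := ⌊(y + 1) / 2⌋ with hj
  have hj1 : (j : ℝ) ≤ (y + 1) / 2 := Int.floor_le _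
  have hj2 : (y + 1) / 2 < j + 1 := Int.lt_floor_add_one _
  have hNform : ∀ m' : ℤ, Nn f h k m' ((1 : ℤ) : ℝ) 0 d β = -(d * f β ^ 2 * (m' - y)) := by
    intro m'
    unfold Nn
    rw [hy]
    push_cast
    ring
  have hodd1 : Odd (2 * j + 1) := ⟨j, rfl⟩
  have hodd2 : Odd (2 * j - 1) := ⟨j - 1, by ring⟩
  have hct : ∀ m' : ℤ, |(m' : ℝ) * 0 + ((1 : ℤ) : ℝ) * d| ≤ a := by
    intro m'
    push_cast
    rw [mul_zero, zero_add, one_mul, abs_of_pos hd]
    exact hda.le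
  have hne : ((2 * j - 1 : ℤ) : ℝ) ≠ y := by
    intro h0
    have h1 := r.C.Nne hodd2 odd_one (hct _) hiβ A.pβ
    rw [hNform, h0, sub_self, mul_zero, neg_zero] at h1
    exact h1 rfl
  have hlt1 : y < ((2 * j + 1 : ℤ) : ℝ) := by push_cast; linarith
  have hlt2 : ((2 * j - 1 : ℤ) : ℝ) < y := lt_of_le_of_ne (by push_cast; linarith) hne
  have hM := r.C.hM1 β ⟨hiβ.1.le, hiβ.2.le⟩
  have hyabs : |y| + 3 ≤ M := by rw [hy, abs_neg]; exact hM
  have hy1 := neg_abs_le y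
  have hy2 := le_abs_self y
  have hMm1 : |2 * j + 1| ≤ M := by
    have : (|2 * j + 1| : ℝ) ≤ M := by
      rw [abs_le]
      push_cast at hlt1 hlt2
      constructor <;> linarith
    exact_mod_cast this
  have hMm2 : |2 * j - 1| ≤ M := by
    have : (|2 * j - 1| : ℝ) ≤ M := by
      rw [abs_le]
      push_cast at hlt1 hlt2
      constructor <;> linarith
    exact_mod_cast this
  have hM1 : |(1 : ℤ)| ≤ M := by
    rw [abs_one]
    have : (1 : ℝ) ≤ M := by linarith [abs_nonneg y]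
    exact_mod_cast this
  have A1 : Adm L f h k a b B M 1 (2 * j + 1) 1 0 d 0 β := by
    refine ⟨Or.inl rfl, hodd1, odd_one, hMm1, hM1, A.hc, A.hd, ?_, ?_, A.hα, A.hαβ, A.hβ, A.hbβ,
      A.hbα, A.pα, A.pβ, ?_, ?_⟩
    · push_cast; linarith
    · push_cast; linarith
    · rw [Nn_zero H]; simp
    · rw [hNform]
      have : 0 < d * f β ^ 2 * (((2 * j + 1 : ℤ) : ℝ) - y) := by
        have : 0 < ((2 * j + 1 : ℤ) : ℝ) - y := by linarith
        positivity
      push_cast at this ⊢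
      linarith
  have A2 : Adm L f h k a b B M (-1) (2 * j - 1) 1 0 d 0 β := by
    refine ⟨Or.inr rfl, hodd2, odd_one, hMm2, hM1, A.hc, A.hd, ?_, ?_, A.hα, A.hαβ, A.hβ, A.hbβ,
      A.hbα, A.pα, A.pβ, ?_, ?_⟩
    · push_cast; linarith
    · push_cast; linarith
    · rw [Nn_zero H]; simp
    · rw [hNform]
      have : 0 < d * f β ^ 2 * (y - ((2 * j - 1 : ℤ) : ℝ)) := by
        have : 0 < y - ((2 * j - 1 : ℤ) : ℝ) := by linarith
        positivity
      push_cast at this ⊢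
      linarith
  have hnd : d ≤ n * d := by nlinarith
  obtain ⟨r1, hr1⟩ := r.transfer A1 (by push_cast; linarith)
  obtain ⟨r2, -⟩ := r.transfer A2 (by push_cast; linarith)
  have hint := r1.hint_left hβ
  have s1 := r1.sing hβ
  have s2 := r2.sing hβ
  have k1 : ∫ x in (0 : ℝ)..β, PP f h k 0 d x / √(pot f h k 0 d x) = π * j := by
    push_cast at s1 s2
    linarith
  have k2 : ∫ x in (0 : ℝ)..β, QQ f h k 0 d x / √(pot f h k 0 d x) = π / 2 := by
    have := r1.foc_eq (v₁ := 0) (v₂ := 1) (by norm_num) (by norm_num)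
      (fun _ => rfl) (fun h0 => absurd h0 hβ.ne) hint
    simpa using this
  have k3 := r1.value hint (by simp) (by rw [k2]; push_cast; ring)
  have hw := r.well_left hβ
  have h0 : ∀ x ∈ Icc (-β) β, (0 : ℝ) = 0 ∨ f x ≠ 0 := fun _ _ => Or.inl rfl
  have h1 : ∀ x ∈ Icc (-β) β, d = 0 ∨ h x ≠ 0 := fun x hx => Or.inr (r.hpos' hβ hx).ne'
  have cP := H.PP_cont (c := 0) (d := d) h0
  have cQ := H.QQ_cont (c := 0) (d := d) h1
  have cO : ContinuousOn (fun _ : ℝ => (1 : ℝ)) (Icc (-β) β) := continuousOn_const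
  have hle : -β ≤ β := by linarith
  have toII : ∀ g : ℝ → ℝ, IntegrableOn g (Ioo (-β) β) → IntervalIntegrable g volume (-β) β := by
    intro g hg
    rw [intervalIntegrable_iff_integrableOn_Ioo_of_le hle]
    exact hg
  have conv : ∀ g : ℝ → ℝ, ∫ x in Ioo (-β) β, g x = ∫ x in (-β)..β, g x := by
    intro g
    rw [intervalIntegral.integral_of_le hle, integral_Ioc_eq_integral_Ioo]
  refine ⟨hw.sol, DWS.ang hw (PP f h k 0 d), DWS.ang hw (QQ f h k 0 d),
    SGR.per (pot f h k 0 d) (-β) β, H.geodesic_well hw h0 h1, ?_, ?_⟩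
  · refine osc_closes_one hw cP cQ (2 * j) 1 ?_ ?_
    · rw [conv, DWS.integral_even (fun x => by rw [pot_even H, PP_even H]) hβ0.le
        (toII _ (hw.integrableOn cP)), k1]
      push_cast
      ring
    · rw [conv, DWS.integral_even (fun x => by rw [pot_even H, QQ_even H]) hβ0.le
        (toII _ (hw.integrableOn cQ)), k2]
      push_cast
      ring
  · rw [DWS.per_eq hw, conv, DWS.integral_even (fun x => by rw [pot_even H]) hβ0.le
      (toII _ (hw.integrableOn cO)), ← hr1, k3]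

lemma Cr.closed_left (r : Cr L f h k a b B M σ m n c d α β) (hα : α = 0) (hβ : β < L) :
    ∃ (ρ θ φ : ℝ → ℝ) (T : ℝ), IsUnitGeodesic f h k ρ θ φ ∧ Closes L ρ θ φ T ∧
      T = 2 * fun1 f h k m n c d α β := by
  have hc := r.c_zero hα
  subst hα
  subst hc
  have hd : d ≠ 0 := by
    rcases r.cd with h1 | h1
    · exact absurd rfl h1
    · exact h1
  rcases lt_or_gt_of_ne hd with h1 | h1
  · have r' := r.neg
    rw [neg_zero] at r'
    obtain ⟨ρ, θ, φ, T, g1, g2, g3⟩ := r'.closed_left' hβ (by linarith)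
    refine ⟨ρ, θ, φ, T, g1, g2, ?_⟩
    rw [g3]
    have := fun1_neg (f := f) (h := h) (k := k) (c := 0) (d := d) (α := 0) (β := β) m n
    rw [neg_zero] at this
    push_cast
    rw [this]
  · exact r.closed_left' hβ h1

/-- All cases together. -/
lemma Cr.closed (r : Cr L f h k a b B M σ m n c d α β) :
    ∃ (ρ θ φ : ℝ → ℝ) (T : ℝ), IsUnitGeodesic f h k ρ θ φ ∧ Closes L ρ θ φ T ∧
      T = 2 * fun1 f h k m n c d α β := by
  rcases eq_or_lt_of_le r.A.hβ with h1 | h1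
  · have hα : 0 < α := by
      rcases eq_or_lt_of_le r.A.hα with h2 | h2
      · exfalso
        have h3 := r.c_zero h2.symm
        have h4 := r.d_zero h1
        rcases r.cd with h5 | h5
        · exact h5 h3
        · exact h5 h4
      · exact h2
    obtain ⟨ρ, θ, φ, T, g1, g2, g3⟩ := r.swap.closed_left (by linarith) (by linarith)
    refine ⟨fun t => L - ρ t, φ, θ, T, g1.swap, g2.swap r.C.H.L_pos, ?_⟩
    rw [g3, fun1_swap]
  · rcases eq_or_lt_of_le r.A.hα with h2 | h2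
    · exact r.closed_left h2.symm h1
    · exact r.closed_regular h2 h1

end

end TIS
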