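import Pool.Agent.TIS.Basic
import Pool.Agent.DWS.Closed

/-!
# The closed geodesics used in the proof
-/

namespace TIS

open Set MeasureTheory Real Filter Topology

lemma geodesic_of {f h k r θ φ v w p q p1 q1 p1' q1' : ℝ → ℝ}
    (hr : ContDiff ℝ (⊤ : ℕ∞) r) (hθ : ContDiff ℝ (⊤ : ℕ∞) θ) (hφ : ContDiff ℝ (⊤ : ℕ∞) φ)
    (h1 : ∀ t, HasDerivAt r (v t) t) (h2 : ∀ t, HasDerivAt v (w t) t)
    (h3 : ∀ t, HasDerivAt θ (p t) t) (h5 : ∀ t, HasDerivAt φ (q t) t)
    (hp1 : ∀ t, p t + h (r t) ^ 2 * k (r t) * q t = p1 t) (h4 : ∀ t, HasDerivAt p1 (p1' t) t)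
    (hq1 : ∀ t, q t + f (r t) ^ 2 * k (r t) * p t = q1 t) (h6 : ∀ t, HasDerivAt q1 (q1' t) t)
    (e1 : ∀ t, v t ^ 2 + f (r t) ^ 2 * p t ^ 2
      + 2 * (f (r t) ^ 2 * h (r t) ^ 2 * k (r t)) * (p t * q t) + h (r t) ^ 2 * q t ^ 2 = 1)
    (e2 : ∀ t, w t = f (r t) * deriv f (r t) * p t ^ 2
      + deriv (fun x => (f x) ^ 2 * (h x) ^ 2 * k x) (r t) * (p t * q t)
      + h (r t) * deriv h (r t) * q t ^ 2)
    (e3 : ∀ t, f (r t) * p1' t + 2 * deriv f (r t) * v t * p1 t = 0)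
    (e4 : ∀ t, h (r t) * q1' t + 2 * deriv h (r t) * v t * q1 t = 0) :
    IsUnitGeodesic f h k r θ φ := by
  have d1 : deriv r = v := funext fun t => (h1 t).deriv
  have d2 : deriv v = w := funext fun t => (h2 t).deriv
  have d3 : deriv θ = p := funext fun t => (h3 t).deriv
  have d5 : deriv φ = q := funext fun t => (h5 t).deriv
  have d4 : deriv p1 = p1' := funext fun t => (h4 t).deriv
  have d6 : deriv q1 = q1' := funext fun t => (h6 t).deriv
  have c1 : (fun s => p s + h (r s) ^ 2 * k (r s) * q s) = p1 := funext hp1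
  have c2 : (fun s => q s + f (r s) ^ 2 * k (r s) * p s) = q1 := funext hq1
  refine ⟨hr, hθ, hφ, ?_, ?_, ?_, ?_⟩
  · intro t; rw [d1, d3, d5]; exact e1 t
  · intro t; rw [d1, d2, d3, d5]; exact e2 t
  · intro t; rw [d3, d5, c1, d4, d1, hp1]; exact e3 t
  · intro t; rw [d3, d5, c2, d6, d1, hq1]; exact e4 t

lemma exp_add_int (x y : ℝ) (j : ℤ) (h : x = y + 2 * π * j) :
    Complex.exp (x * Complex.I) = Complex.exp (y * Complex.I) := by
  rw [h]
  push_cast
  have : ((y : ℂ) + 2 * π * j) * Complex.I = y * Complex.I + j * (2 * π * Complex.I) := by ring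
  rw [this, Complex.exp_add, Complex.exp_int_mul_two_pi_mul_I, mul_one]

/-- Meridians. -/
lemma geodesic_meridian (f h k : ℝ → ℝ) :
    IsUnitGeodesic f h k (fun t => t) (fun _ => 0) (fun _ => 0) := by
  refine geodesic_of (v := fun _ => 1) (w := fun _ => 0) (p := fun _ => 0) (q := fun _ => 0)
    (p1 := fun _ => 0) (q1 := fun _ => 0)
    (p1' := fun _ => 0) (q1' := fun _ => 0) contDiff_id contDiff_const contDiff_const
    (fun t => hasDerivAt_id t) (fun t => hasDerivAt_const t 1) (fun t => hasDerivAt_const t 0)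
    (fun t => hasDerivAt_const t 0) ?_ (fun t => hasDerivAt_const t 0) ?_
    (fun t => hasDerivAt_const t 0) ?_ ?_ ?_ ?_ <;> intro t <;> simp

lemma meridian_closes {L : ℝ} (hL : 0 < L) :
    Closes L (fun t => t) (fun _ => 0) (fun _ => 0) (4 * L) := by
  refine ⟨by positivity, fun t => ?_⟩
  unfold spherePoint
  have : π * (t + 4 * L) / (2 * L) = π * t / (2 * L) + 2 * π := by field_simp; ring
  rw [this, cos_add_two_pi, sin_add_two_pi]

/-- Circles on a torus (or an axis) where the norm of the Killing field is critical. -/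
lemma geodesic_circle {f h k : ℝ → ℝ} {x ρ m n : ℝ} (hρ : 0 < ρ)
    (hx : X2 f h k m n x = ρ ^ 2)
    (hd : m ^ 2 * (f x * deriv f x) + m * n * deriv (fun x => (f x) ^ 2 * (h x) ^ 2 * k x) x
      + n ^ 2 * (h x * deriv h x) = 0) :
    IsUnitGeodesic f h k (fun _ => x) (fun t => m * t / ρ) (fun t => n * t / ρ) := by
  have hdiv : ∀ (j t : ℝ), HasDerivAt (fun t : ℝ => j * t / ρ) (j / ρ) t := by
    intro j t
    have := ((hasDerivAt_id t).const_mul j).div_const ρ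
    refine this.congr_deriv ?_
    rw [mul_one]
  refine geodesic_of (v := fun _ => 0) (w := fun _ => 0) (p := fun _ => m / ρ)
    (q := fun _ => n / ρ) (p1 := fun _ => m / ρ + h x ^ 2 * k x * (n / ρ))
    (q1 := fun _ => n / ρ + f x ^ 2 * k x * (m / ρ)) (p1' := fun _ => 0) (q1' := fun _ => 0)
    contDiff_const ((contDiff_const.mul contDiff_id).div_const _)
    ((contDiff_const.mul contDiff_id).div_const _)
    (fun t => hasDerivAt_const t x) (fun t => hasDerivAt_const t 0) (hdiv m) (hdiv n)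
    (fun t => rfl) (fun t => hasDerivAt_const t _) (fun t => rfl) (fun t => hasDerivAt_const t _)
    ?_ ?_ ?_ ?_ <;> intro t
  · have : (0 : ℝ) ^ 2 + f x ^ 2 * (m / ρ) ^ 2 + 2 * (f x ^ 2 * h x ^ 2 * k x) * (m / ρ * (n / ρ))
        + h x ^ 2 * (n / ρ) ^ 2 = X2 f h k m n x / ρ ^ 2 := by unfold X2; ring
    rw [this, hx, div_self (by positivity)]
  · have : f x * deriv f x * (m / ρ) ^ 2 + deriv (fun x => (f x) ^ 2 * (h x) ^ 2 * k x) x
        * (m / ρ * (n / ρ)) + h x * deriv h x * (n / ρ) ^ 2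
        = (m ^ 2 * (f x * deriv f x) + m * n * deriv (fun x => (f x) ^ 2 * (h x) ^ 2 * k x) x
      + n ^ 2 * (h x * deriv h x)) / ρ ^ 2 := by ring
    rw [this, hd, zero_div]
  · simp
  · simp

lemma circle_closes {L x ρ : ℝ} (m n : ℤ) (hρ : 0 < ρ) :
    Closes L (fun _ => x) (fun t => m * t / ρ) (fun t => n * t / ρ) (2 * π * ρ) := by
  have hπ := pi_pos
  refine ⟨by positivity, fun t => ?_⟩
  unfold spherePoint
  have e : ∀ j : ℤ, (j : ℝ) * (t + 2 * π * ρ) / ρ = j * t / ρ + 2 * π * j := by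
    intro j; field_simp
  rw [exp_add_int _ _ m (e m), exp_add_int _ _ n (e n)]

/-! ### Angular speeds -/

/-- Angular speed of `θ`. -/
noncomputable def PP (f h k : ℝ → ℝ) (c d x : ℝ) : ℝ := (c / f x ^ 2 - k x * d) / ww f h k x

/-- Angular speed of `φ`. -/
noncomputable def QQ (f h k : ℝ → ℝ) (c d x : ℝ) : ℝ := (d / h x ^ 2 - k x * c) / ww f h k x

section
variable {f h k : ℝ → ℝ} {c d x : ℝ}

lemma PP_swap (L : ℝ) (f h k : ℝ → ℝ) (c d x : ℝ) :
    PP (fun x => h (L - x)) (fun x => f (L - x)) (fun x => k (L - x)) d c x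
      = QQ f h k c d (L - x) := by
  unfold PP QQ; rw [ww_swap]

lemma QQ_swap (L : ℝ) (f h k : ℝ → ℝ) (c d x : ℝ) :
    QQ (fun x => h (L - x)) (fun x => f (L - x)) (fun x => k (L - x)) d c x
      = PP f h k c d (L - x) := by
  unfold PP QQ; rw [ww_swap]

lemma nrm_eq_PQ : nrm f h k c d x = c * PP f h k c d x + d * QQ f h k c d x := by
  unfold nrm PP QQ; ring

lemma PP_mom (hw : ww f h k x ≠ 0) (h0 : c = 0 ∨ f x ≠ 0) (h1 : d = 0 ∨ h x ≠ 0) :
    PP f h k c d x + h x ^ 2 * k x * QQ f h k c d x = DWS.spd f c x := by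
  unfold PP QQ DWS.spd
  have e : (c / f x ^ 2 - k x * d) / ww f h k x
      + h x ^ 2 * k x * ((d / h x ^ 2 - k x * c) / ww f h k x)
      = ((c / f x ^ 2 - k x * d) + h x ^ 2 * k x * (d / h x ^ 2 - k x * c)) / ww f h k x := by ring
  rw [e, div_eq_iff hw]
  unfold ww
  rcases h0 with rfl | h0 <;> rcases h1 with rfl | h1
  · simp
  · field_simp; ring
  · field_simp; ring
  · field_simp; ring

lemma QQ_mom (hw : ww f h k x ≠ 0) (h0 : c = 0 ∨ f x ≠ 0) (h1 : d = 0 ∨ h x ≠ 0) :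
    QQ f h k c d x + f x ^ 2 * k x * PP f h k c d x = DWS.spd h d x := by
  unfold PP QQ DWS.spd
  have e : (d / h x ^ 2 - k x * c) / ww f h k x
      + f x ^ 2 * k x * ((c / f x ^ 2 - k x * d) / ww f h k x)
      = ((d / h x ^ 2 - k x * c) + f x ^ 2 * k x * (c / f x ^ 2 - k x * d)) / ww f h k x := by ring
  rw [e, div_eq_iff hw]
  unfold ww
  rcases h0 with rfl | h0 <;> rcases h1 with rfl | h1
  · simp
  · field_simp; ring
  · field_simp; ring
  · field_simp; ring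

lemma unit_id (hw : ww f h k x ≠ 0) (h0 : c = 0 ∨ f x ≠ 0) (h1 : d = 0 ∨ h x ≠ 0) :
    f x ^ 2 * PP f h k c d x ^ 2 + 2 * (f x ^ 2 * h x ^ 2 * k x) * (PP f h k c d x * QQ f h k c d x)
      + h x ^ 2 * QQ f h k c d x ^ 2 = nrm f h k c d x := by
  have e1 := PP_mom hw h0 h1
  have e2 := QQ_mom hw h0 h1
  have e3 : f x ^ 2 * PP f h k c d x ^ 2
      + 2 * (f x ^ 2 * h x ^ 2 * k x) * (PP f h k c d x * QQ f h k c d x)
      + h x ^ 2 * QQ f h k c d x ^ 2
      = (f x ^ 2 * PP f h k c d x) * (PP f h k c d x + h x ^ 2 * k x * QQ f h k c d x)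
        + (h x ^ 2 * QQ f h k c d x) * (QQ f h k c d x + f x ^ 2 * k x * PP f h k c d x) := by ring
  have e4 : f x ^ 2 * DWS.spd f c x = c := by
    unfold DWS.spd
    rcases h0 with rfl | h0
    · simp
    · field_simp
  have e5 : h x ^ 2 * DWS.spd h d x = d := by
    unfold DWS.spd
    rcases h1 with rfl | h1
    · simp
    · field_simp
  rw [e3, e1, e2, nrm_eq_PQ]
  calc f x ^ 2 * PP f h k c d x * DWS.spd f c x + h x ^ 2 * QQ f h k c d x * DWS.spd h d x
      = (f x ^ 2 * DWS.spd f c x) * PP f h k c d x + (h x ^ 2 * DWS.spd h d x) * QQ f h k c d x := by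
        ring
    _ = _ := by rw [e4, e5]

lemma key_alg {c d f h k f' h' k' w : ℝ} (hw : w = 1 - (f * h * k) ^ 2) (hw0 : w ≠ 0)
    (h0 : c = 0 ∨ f ≠ 0) (h1 : d = 0 ∨ h ≠ 0) :
    -(((-(2 * c ^ 2 * f' / f ^ 3) - 2 * k' * (c * d) + -(2 * d ^ 2 * h' / h ^ 3)) * w
      - (c ^ 2 / f ^ 2 - 2 * k * (c * d) + d ^ 2 / h ^ 2)
        * (-(2 * (f * h * k) * (f' * h * k + f * h' * k + f * h * k')))) / w ^ 2)
    = 2 * (f * f' * ((c / f ^ 2 - k * d) / w) ^ 2
      + (2 * f * f' * h ^ 2 * k + 2 * f ^ 2 * h * h' * k + f ^ 2 * h ^ 2 * k')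
        * ((c / f ^ 2 - k * d) / w * ((d / h ^ 2 - k * c) / w))
      + h * h' * ((d / h ^ 2 - k * c) / w) ^ 2) := by
  have e : 2 * (f * f' * ((c / f ^ 2 - k * d) / w) ^ 2
      + (2 * f * f' * h ^ 2 * k + 2 * f ^ 2 * h * h' * k + f ^ 2 * h ^ 2 * k')
        * ((c / f ^ 2 - k * d) / w * ((d / h ^ 2 - k * c) / w))
      + h * h' * ((d / h ^ 2 - k * c) / w) ^ 2)
      = (2 * (f * f' * (c / f ^ 2 - k * d) ^ 2
      + (2 * f * f' * h ^ 2 * k + 2 * f ^ 2 * h * h' * k + f ^ 2 * h ^ 2 * k')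
        * ((c / f ^ 2 - k * d) * (d / h ^ 2 - k * c))
      + h * h' * (d / h ^ 2 - k * c) ^ 2)) / w ^ 2 := by
    field_simp
  rw [e, ← neg_div]
  congr 1
  rw [hw]
  rcases h0 with rfl | h0 <;> rcases h1 with rfl | h1
  · simp
  · field_simp; ring
  · field_simp; ring
  · field_simp; ring

lemma nrm_hasDerivAt (hf : DifferentiableAt ℝ f x) (hh : DifferentiableAt ℝ h x)
    (hk : DifferentiableAt ℝ k x) (hw : ww f h k x ≠ 0) (h0 : c = 0 ∨ f x ≠ 0)
    (h1 : d = 0 ∨ h x ≠ 0) :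
    HasDerivAt (nrm f h k c d)
      (((-(2 * c ^ 2 * deriv f x / f x ^ 3) - 2 * deriv k x * (c * d)
        + -(2 * d ^ 2 * deriv h x / h x ^ 3)) * ww f h k x
        - (c ^ 2 / f x ^ 2 - 2 * k x * (c * d) + d ^ 2 / h x ^ 2)
        * (-(2 * (f x * h x * k x) * (deriv f x * h x * k x + f x * deriv h x * k x
          + f x * h x * deriv k x)))) / ww f h k x ^ 2) x := by
  have e1 := DWS.sq_term_hasDerivAt (c := c) hf h0
  have e2 := DWS.sq_term_hasDerivAt (c := d) hh h1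
  have e3 := (hk.hasDerivAt.const_mul 2).mul_const (c * d)
  have e4 : HasDerivAt (ww f h k) (-(2 * (f x * h x * k x) * (deriv f x * h x * k x
      + f x * deriv h x * k x + f x * h x * deriv k x))) x := by
    have := (((hf.hasDerivAt.mul hh.hasDerivAt).mul hk.hasDerivAt).pow 2).const_sub 1
    refine this.congr_deriv ?_
    simp only [Nat.cast_ofNat, Pi.mul_apply]
    ring
  exact ((e1.sub e3).add e2).div e4 hw

lemma deriv_F (hf : DifferentiableAt ℝ f x) (hh : DifferentiableAt ℝ h x)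
    (hk : DifferentiableAt ℝ k x) : HasDerivAt (fun x => (f x) ^ 2 * (h x) ^ 2 * k x)
      (2 * f x * deriv f x * h x ^ 2 * k x + 2 * f x ^ 2 * h x * deriv h x * k x
        + f x ^ 2 * h x ^ 2 * deriv k x) x := by
  have := ((hf.hasDerivAt.pow 2).mul (hh.hasDerivAt.pow 2)).mul hk.hasDerivAt
  refine this.congr_deriv ?_
  simp only [Nat.cast_ofNat, Pi.pow_apply, Pi.mul_apply]
  ring

lemma pot_deriv (hf : DifferentiableAt ℝ f x) (hh : DifferentiableAt ℝ h x)
    (hk : DifferentiableAt ℝ k x) (hw : ww f h k x ≠ 0) (h0 : c = 0 ∨ f x ≠ 0)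
    (h1 : d = 0 ∨ h x ≠ 0) :
    deriv (pot f h k c d) x / 2 = f x * deriv f x * PP f h k c d x ^ 2
      + deriv (fun x => (f x) ^ 2 * (h x) ^ 2 * k x) x * (PP f h k c d x * QQ f h k c d x)
      + h x * deriv h x * QQ f h k c d x ^ 2 := by
  have e1 := (nrm_hasDerivAt hf hh hk hw h0 h1).const_sub 1
  have e2 : deriv (pot f h k c d) x = _ := e1.deriv
  rw [e2, (deriv_F hf hh hk).deriv]
  have := key_alg (c := c) (d := d) (f := f x) (h := h x) (k := k x) (f' := deriv f x)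
    (h' := deriv h x) (k' := deriv k x) (w := ww f h k x) rfl hw h0 h1
  rw [this]
  unfold PP QQ
  ring

end

section
variable {L : ℝ} {f h k : ℝ → ℝ}

lemma Profile.ww_contDiff (H : Profile L f h k) : ContDiff ℝ (⊤ : ℕ∞) (ww f h k) :=
  contDiff_const.sub (((H.smooth_f.mul H.smooth_h).mul H.smooth_k).pow 2)

lemma quot_contDiffAt {f : ℝ → ℝ} {c x : ℝ} (hf : ContDiff ℝ (⊤ : ℕ∞) f) (h0 : c = 0 ∨ f x ≠ 0) :
    ContDiffAt ℝ (⊤ : ℕ∞) (fun y => c / f y ^ 2) x := DWS.spd_contDiffAt hf h0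

lemma Profile.PP_contDiffAt (H : Profile L f h k) {c d x : ℝ} (h0 : c = 0 ∨ f x ≠ 0) :
    ContDiffAt ℝ (⊤ : ℕ∞) (PP f h k c d) x :=
  ((quot_contDiffAt H.smooth_f h0).sub (H.smooth_k.contDiffAt.mul contDiffAt_const)).div
    H.ww_contDiff.contDiffAt (H.ww_pos x).ne'

lemma Profile.QQ_contDiffAt (H : Profile L f h k) {c d x : ℝ} (h1 : d = 0 ∨ h x ≠ 0) :
    ContDiffAt ℝ (⊤ : ℕ∞) (QQ f h k c d) x :=
  ((quot_contDiffAt H.smooth_h h1).sub (H.smooth_k.contDiffAt.mul contDiffAt_const)).div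
    H.ww_contDiff.contDiffAt (H.ww_pos x).ne'

lemma Profile.pot_contDiffAt (H : Profile L f h k) {c d x : ℝ} (h0 : c = 0 ∨ f x ≠ 0)
    (h1 : d = 0 ∨ h x ≠ 0) : ContDiffAt ℝ (⊤ : ℕ∞) (pot f h k c d) x := by
  have e : pot f h k c d = fun x => 1 - (c * PP f h k c d x + d * QQ f h k c d x) := by
    funext x; unfold pot; rw [nrm_eq_PQ]
  rw [e]
  exact contDiffAt_const.sub ((contDiffAt_const.mul (H.PP_contDiffAt h0)).add
    (contDiffAt_const.mul (H.QQ_contDiffAt h1)))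

lemma Profile.PP_cont (H : Profile L f h k) {c d A B : ℝ} (h0 : ∀ x ∈ Icc A B, c = 0 ∨ f x ≠ 0) :
    ContinuousOn (PP f h k c d) (Icc A B) :=
  fun x hx => (H.PP_contDiffAt (h0 x hx)).continuousAt.continuousWithinAt

lemma Profile.QQ_cont (H : Profile L f h k) {c d A B : ℝ} (h1 : ∀ x ∈ Icc A B, d = 0 ∨ h x ≠ 0) :
    ContinuousOn (QQ f h k c d) (Icc A B) :=
  fun x hx => (H.QQ_contDiffAt (h1 x hx)).continuousAt.continuousWithinAt

/-- A well of the potential away from the relevant axes gives a geodesic. -/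
lemma Profile.geodesic_well (H : Profile L f h k) {c d A B : ℝ}
    (hw : SGR.Well (pot f h k c d) A B) (h0 : ∀ x ∈ Icc A B, c = 0 ∨ f x ≠ 0)
    (h1 : ∀ x ∈ Icc A B, d = 0 ∨ h x ≠ 0) :
    IsUnitGeodesic f h k hw.sol (DWS.ang hw (PP f h k c d)) (DWS.ang hw (QQ f h k c d)) := by
  have hPc := H.PP_cont (c := c) (d := d) h0
  have hQc := H.QQ_cont (c := c) (d := d) h1
  refine geodesic_of (v := hw.vel) (w := fun t => deriv (pot f h k c d) (hw.sol t) / 2)
    (p := fun t => PP f h k c d (hw.sol t)) (q := fun t => QQ f h k c d (hw.sol t))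
    (p1 := fun t => DWS.spd f c (hw.sol t)) (q1 := fun t => DWS.spd h d (hw.sol t))
    (p1' := fun t => deriv (DWS.spd f c) (hw.sol t) * hw.vel t)
    (q1' := fun t => deriv (DWS.spd h d) (hw.sol t) * hw.vel t)
    hw.sol_contDiff (DWS.ang_contDiff hw fun x hx => H.PP_contDiffAt (h0 x hx))
    (DWS.ang_contDiff hw fun x hx => H.QQ_contDiffAt (h1 x hx)) hw.sol_hasDerivAt
    hw.vel_hasDerivAt (DWS.ang_hasDerivAt hw hPc) (DWS.ang_hasDerivAt hw hQc) ?_ ?_ ?_ ?_ ?_ ?_ ?_ ?_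
    <;> intro t
  · exact PP_mom (H.ww_pos _).ne' (h0 _ (hw.sol_mem t)) (h1 _ (hw.sol_mem t))
  · exact ((DWS.spd_contDiffAt H.smooth_f (h0 _ (hw.sol_mem t))).differentiableAt
      (by simp)).hasDerivAt.comp t (hw.sol_hasDerivAt t)
  · exact QQ_mom (H.ww_pos _).ne' (h0 _ (hw.sol_mem t)) (h1 _ (hw.sol_mem t))
  · exact ((DWS.spd_contDiffAt H.smooth_h (h1 _ (hw.sol_mem t))).differentiableAt
      (by simp)).hasDerivAt.comp t (hw.sol_hasDerivAt t)
  · have := unit_id (H.ww_pos (hw.sol t)).ne' (h0 _ (hw.sol_mem t)) (h1 _ (hw.sol_mem t))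
    have e : pot f h k c d (hw.sol t) = 1 - nrm f h k c d (hw.sol t) := rfl
    rw [hw.vel_sq, e, ← this]
    ring
  · exact pot_deriv (H.fdiff _) (H.hdiff _) (H.kdiff _) (H.ww_pos _).ne' (h0 _ (hw.sol_mem t))
      (h1 _ (hw.sol_mem t))
  · have := DWS.ang_eq_zero (H.fdiff (hw.sol t)) (h0 _ (hw.sol_mem t))
    calc _ = (f (hw.sol t) * deriv (DWS.spd f c) (hw.sol t)
          + 2 * deriv f (hw.sol t) * DWS.spd f c (hw.sol t)) * hw.vel t := by ring
      _ = 0 := by rw [this, zero_mul]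
  · have := DWS.ang_eq_zero (H.hdiff (hw.sol t)) (h1 _ (hw.sol_mem t))
    calc _ = (h (hw.sol t) * deriv (DWS.spd h d) (hw.sol t)
          + 2 * deriv h (hw.sol t) * DWS.spd h d (hw.sol t)) * hw.vel t := by ring
      _ = 0 := by rw [this, zero_mul]

end

section closes
variable {U P Q : ℝ → ℝ} {α β : ℝ}

/-- Closing after two oscillations. -/
lemma osc_closes_two {L : ℝ} (hw : SGR.Well U α β) (hPc : ContinuousOn P (Icc α β))
    (hQc : ContinuousOn Q (Icc α β)) (m n : ℤ)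
    (hΘ : 2 * ∫ x in Ioo α β, P x / √(U x) = π * m)
    (hΦ : 2 * ∫ x in Ioo α β, Q x / √(U x) = π * n) :
    Closes L hw.sol (DWS.ang hw P) (DWS.ang hw Q) (2 * SGR.per U α β) := by
  have hp := hw.per_pos
  refine ⟨by positivity, fun t => ?_⟩
  have e : t + 2 * SGR.per U α β = (t + SGR.per U α β) + SGR.per U α β := by ring
  unfold spherePoint
  rw [e, hw.sol_periodic, hw.sol_periodic]
  rw [exp_add_int (DWS.ang hw P (t + SGR.per U α β + SGR.per U α β)) (DWS.ang hw P t) m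
    (by rw [DWS.ang_add hw hPc, DWS.ang_add hw hPc, hΘ]; ring)]
  rw [exp_add_int (DWS.ang hw Q (t + SGR.per U α β + SGR.per U α β)) (DWS.ang hw Q t) n
    (by rw [DWS.ang_add hw hQc, DWS.ang_add hw hQc, hΦ]; ring)]

/-- Closing after one oscillation. -/
lemma osc_closes_one {L : ℝ} (hw : SGR.Well U α β) (hPc : ContinuousOn P (Icc α β))
    (hQc : ContinuousOn Q (Icc α β)) (m n : ℤ)
    (hΘ : 2 * ∫ x in Ioo α β, P x / √(U x) = 2 * π * m)
    (hΦ : 2 * ∫ x in Ioo α β, Q x / √(U x) = 2 * π * n) :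
    Closes L hw.sol (DWS.ang hw P) (DWS.ang hw Q) (SGR.per U α β) := by
  refine ⟨hw.per_pos, fun t => ?_⟩
  unfold spherePoint
  rw [hw.sol_periodic]
  rw [exp_add_int (DWS.ang hw P (t + SGR.per U α β)) (DWS.ang hw P t) m
    (by rw [DWS.ang_add hw hPc, hΘ])]
  rw [exp_add_int (DWS.ang hw Q (t + SGR.per U α β)) (DWS.ang hw Q t) n
    (by rw [DWS.ang_add hw hQc, hΦ])]

end closes

/-! ### Exchange of the axes -/

lemma IsUnitGeodesic.swap {L : ℝ} {f h k r θ φ : ℝ → ℝ}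
    (g : IsUnitGeodesic (fun x => h (L - x)) (fun x => f (L - x)) (fun x => k (L - x)) r θ φ) :
    IsUnitGeodesic f h k (fun t => L - r t) φ θ := by
  have d1 : deriv (fun t => L - r t) = fun t => -deriv r t := by
    funext t
    rw [deriv_const_sub]
  have d2 : ∀ (u : ℝ → ℝ) (x : ℝ), deriv (fun x => u (L - x)) x = -deriv u (L - x) := by
    intro u x
    exact deriv_comp_const_sub (f := u) L x
  refine ⟨contDiff_const.sub g.smooth_r, g.smooth_φ, g.smooth_θ, ?_, ?_, ?_, ?_⟩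
  · intro t
    have := g.unit_speed t
    rw [d1]
    linarith
  · intro t
    have := g.radial t
    rw [d1, deriv.fun_neg, this, d2 h, d2 f]
    have e : (fun x => (h (L - x)) ^ 2 * (f (L - x)) ^ 2 * k (L - x))
        = fun x => (fun y => (f y) ^ 2 * (h y) ^ 2 * k y) (L - x) := by
      funext x; ring
    rw [e, d2 (fun y => (f y) ^ 2 * (h y) ^ 2 * k y)]
    ring
  · intro t
    have := g.angular_φ t
    rw [d2 f] at this
    rw [d1]
    linarith
  · intro t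
    have := g.angular_θ t
    rw [d2 h] at this
    rw [d1]
    linarith

lemma Closes.swap {L T : ℝ} {r θ φ : ℝ → ℝ} (hL : 0 < L) (g : Closes L r θ φ T) :
    Closes L (fun t => L - r t) φ θ T := by
  refine ⟨g.1, fun t => ?_⟩
  have h1 := g.2 t
  unfold spherePoint at h1 ⊢
  have e : ∀ y, π * (L - y) / (2 * L) = π / 2 - π * y / (2 * L) := by
    intro y; field_simp
  rw [e, e]
  simp only [sin_pi_div_two_sub, cos_pi_div_two_sub]
  rw [Prod.mk.injEq] at h1 ⊢
  exact ⟨h1.2, h1.1⟩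

end TIS
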