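import Pool.Agent.TIS.Adm
import Pool.Agent.TIS.Geo

/-!
# The constants
-/

namespace TIS

open Set MeasureTheory Real Filter Topology

section
variable {L : ℝ} {f h k : ℝ → ℝ}

lemma Profile.X2_cont (H : Profile L f h k) (m n : ℝ) : Continuous (X2 f h k m n) := by
  have hf := H.fc
  have hh := H.hc
  have hk := H.kc
  unfold X2
  fun_prop

lemma Profile.X2_pos (H : Profile L f h k) {m n : ℝ} (hm : m ≠ 0) (hn : n ≠ 0) {x : ℝ}
    (hx : x ∈ Icc 0 L) : 0 < X2 f h k m n x := by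
  have hw := H.ww_pos x
  have e : X2 f h k m n x = (m * f x + f x * h x * k x * (n * h x)) ^ 2
      + ww f h k x * (n * h x) ^ 2 := by
    unfold X2 ww; ring
  rcases eq_or_lt_of_le hx.2 with h1 | h1
  · have h2 := H.f_pos L H.L_pos le_rfl
    unfold X2
    rw [h1, H.h_L]
    have : m ^ 2 * f L ^ 2 + 2 * (m * n) * (f L ^ 2 * 0 ^ 2 * k L) + n ^ 2 * 0 ^ 2
        = m ^ 2 * f L ^ 2 := by ring
    rw [this]
    positivity
  · have h2 := H.h_pos x hx.1 h1
    rw [e]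
    positivity

/-- The norms of the Killing fields are bounded below. -/
lemma Profile.rho_bound (H : Profile L f h k) {a : ℝ} (ha : 0 < a)
    (hlong : ∀ (r θ φ : ℝ → ℝ) (T : ℝ), IsUnitGeodesic f h k r θ φ → Closes L r θ φ T →
      2 * π * a < T) (m n : ℤ) (hm : Odd m) (hn : Odd n) :
    ∀ x ∈ Icc 0 L, a ^ 2 < X2 f h k m n x := by
  have hπ := pi_pos
  have hmR := odd_ne hm
  have hnR := odd_ne hn
  obtain ⟨z, hz, hmin⟩ := isCompact_Icc.exists_isMinOn (nonempty_Icc.2 H.L_pos.le)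
    ((H.X2_cont m n).continuousOn (s := Icc 0 L))
  have hder : ∀ x, HasDerivAt (X2 f h k m n)
      (2 * ((m : ℝ) ^ 2 * (f x * deriv f x)
        + m * n * deriv (fun x => (f x) ^ 2 * (h x) ^ 2 * k x) x
        + n ^ 2 * (h x * deriv h x))) x := by
    intro x
    have e1 := (((H.fdiff x).hasDerivAt.pow 2).const_mul ((m : ℝ) ^ 2))
    have e2 := ((deriv_F (H.fdiff x) (H.hdiff x) (H.kdiff x)).const_mul (2 * ((m : ℝ) * n)))
    have e3 := (((H.hdiff x).hasDerivAt.pow 2).const_mul ((n : ℝ) ^ 2))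
    have := (e1.add e2).add e3
    refine this.congr_deriv ?_
    rw [(deriv_F (H.fdiff x) (H.hdiff x) (H.kdiff x)).deriv]
    simp only [Nat.cast_ofNat, pow_one, Nat.add_one_sub_one]
    ring
  have hcrit : (m : ℝ) ^ 2 * (f z * deriv f z)
      + m * n * deriv (fun x => (f x) ^ 2 * (h x) ^ 2 * k x) z + n ^ 2 * (h z * deriv h z) = 0 := by
    rcases eq_or_lt_of_le hz.1 with h1 | h1
    · rw [← h1, (deriv_F (H.fdiff 0) (H.hdiff 0) (H.kdiff 0)).deriv, H.f_zero, H.deriv_h_zero]; ring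
    rcases eq_or_lt_of_le hz.2 with h2 | h2
    · rw [h2, (deriv_F (H.fdiff L) (H.hdiff L) (H.kdiff L)).deriv, H.h_L, H.deriv_f_L]; ring
    · have hloc : IsLocalMin (X2 f h k m n) z := hmin.isLocalMin (Icc_mem_nhds h1 h2)
      have := hloc.hasDerivAt_eq_zero (hder z)
      linarith
  have hpos : 0 < X2 f h k m n z := H.X2_pos hmR hnR hz
  set ρ := √(X2 f h k m n z) with hρ
  have hρpos : 0 < ρ := Real.sqrt_pos.2 hpos
  have hρsq : ρ ^ 2 = X2 f h k m n z := Real.sq_sqrt hpos.le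
  have h1 := hlong _ _ _ _ (geodesic_circle hρpos hρsq.symm hcrit)
    (circle_closes (L := L) m n hρpos)
  have h2 : a < ρ := by nlinarith
  intro x hx
  have h3 : X2 f h k m n z ≤ X2 f h k m n x := hmin hx
  rw [← hρsq] at h3
  nlinarith

/-- Near the axis `r = 0` the side function keeps its sign, for one type. -/
lemma Profile.q0_type (H : Profile L f h k) {a B m n : ℝ} (hB : 0 ≤ B) (hn : n ≠ 0)
    (hX : a ^ 2 < X2 f h k m n 0) :
    ∃ b0 > 0, ∀ c d : ℝ, |c| ≤ B → |d| ≤ B → |m * c + n * d| ≤ a → ∀ x ∈ Ioc 0 b0,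
      0 ≤ pol f h k c d x → ∀ y ∈ Icc 0 x, 0 < Nn f h k m n c d x * Nn f h k m n c d y := by
  have hf := H.fc
  have hh := H.hc
  have hk := H.kc
  have hw := H.ww_cont
  have hXc := H.X2_cont m n
  have hh0 := H.h_pos 0 le_rfl H.L_pos
  set A : ℝ → ℝ := fun y => h y ^ 2 * (m * (f y ^ 2 * k y) + n) with hA
  have hA0 : A 0 = h 0 ^ 2 * n := by simp only [hA]; rw [H.f_zero]; ring
  have hA0ne : 0 < |A 0| := by
    rw [hA0]; exact abs_pos.2 (mul_ne_zero (by positivity) hn)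
  have hAc : Continuous A := by simp only [hA]; fun_prop
  set δ := (X2 f h k m n 0 - a ^ 2) / 2 with hδ
  have hδ0 : 0 < δ := by rw [hδ]; linarith
  set κ := √(δ * (h 0 ^ 2 / 2)) with hκ
  have hκ0 : 0 < κ := Real.sqrt_pos.2 (by positivity)
  have hκsq : κ ^ 2 = δ * (h 0 ^ 2 / 2) := Real.sq_sqrt (by positivity)
  set C := B * (|m| + (|n * (h 0 ^ 2 * k 0)| + 1)) with hC
  have hC0 : 0 ≤ C := by positivity
  have hw0 : ww f h k 0 = 1 := by unfold ww; rw [H.f_zero]; ring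
  -- eventual facts
  have f1 : ∀ᶠ y in 𝓝 (0 : ℝ), a ^ 2 + δ < X2 f h k m n y := by
    refine hXc.continuousAt.eventually (p := fun z => a ^ 2 + δ < z) (lt_mem_nhds ?_)
    rw [hδ]; linarith
  have f2 : ∀ᶠ y in 𝓝 (0 : ℝ), h 0 ^ 2 / 2 < h y ^ 2 * ww f h k y := by
    have hc : Continuous (fun y => h y ^ 2 * ww f h k y) := by fun_prop
    refine hc.continuousAt.eventually (p := fun z => h 0 ^ 2 / 2 < z) (lt_mem_nhds ?_)
    beta_reduce
    rw [hw0]
    have : 0 < h 0 ^ 2 := by positivity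
    linarith
  have f3 : ∀ᶠ y in 𝓝 (0 : ℝ), |n * (h y ^ 2 * k y)| < |n * (h 0 ^ 2 * k 0)| + 1 := by
    have hc : Continuous (fun y => |n * (h y ^ 2 * k y)|) := by fun_prop
    refine hc.continuousAt.eventually (p := fun z => z < |n * (h 0 ^ 2 * k 0)| + 1)
      (gt_mem_nhds ?_)
    linarith
  have f4 : ∀ᶠ y in 𝓝 (0 : ℝ), |A y - A 0| < |A 0| / 8 := by
    have hc : Continuous (fun y => |A y - A 0|) := by fun_prop
    refine hc.continuousAt.eventually (p := fun z => z < |A 0| / 8) (gt_mem_nhds ?_)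
    simp only [sub_self, abs_zero]
    positivity
  have f5 : ∀ᶠ y in 𝓝 (0 : ℝ), |f y - y| ≤ |y| / 2 := by
    have hd : HasDerivAt f 1 0 := by
      have := (H.fdiff 0).hasDerivAt
      rwa [H.deriv_zero] at this
    have := hd.isLittleO.def (c := 1 / 2) (by norm_num)
    filter_upwards [this] with y hy
    rw [H.f_zero, sub_zero, sub_zero, smul_eq_mul, mul_one, Real.norm_eq_abs,
      Real.norm_eq_abs] at hy
    linarith
  have f6 : ∀ᶠ y in 𝓝 (0 : ℝ), 9 * C * f y < κ / 8 := by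
    have hc : Continuous (fun y => 9 * C * f y) := by fun_prop
    refine hc.continuousAt.eventually (p := fun z => z < κ / 8) (gt_mem_nhds ?_)
    beta_reduce
    rw [H.f_zero, mul_zero]
    positivity
  obtain ⟨ε, hε, hball⟩ := Metric.eventually_nhds_iff.1
    (((((f1.and f2).and f3).and f4).and f5).and f6)
  refine ⟨ε / 2, by positivity, ?_⟩
  intro c d hc hd hct x hx hp y hy
  have hdist : ∀ z, 0 ≤ z → z ≤ x → dist z 0 < ε := by
    intro z hz0 hz
    rw [Real.dist_eq, sub_zero, abs_of_nonneg hz0]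
    linarith [hx.2]
  obtain ⟨⟨⟨⟨⟨x1, x2⟩, x3⟩, x4⟩, x5⟩, x6⟩ := hball (hdist x hx.1.le le_rfl)
  obtain ⟨⟨⟨⟨⟨-, -⟩, y3⟩, y4⟩, y5⟩, -⟩ := hball (hdist y hy.1 hy.2)
  rw [abs_of_pos hx.1] at x5
  rw [abs_of_nonneg hy.1] at y5
  have x5' := abs_le.1 x5
  have y5' := abs_le.1 y5
  set F := f x with hF
  have hF0 : 0 < F := by linarith [hx.1, x5'.1]
  have hfy0 : 0 ≤ f y := by linarith [hy.1, y5'.1]
  have hfy : f y ≤ 3 * F := by linarith [hy.2, x5'.1, y5'.2]
  -- lower bound for the side function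
  have n1 : κ ^ 2 * F ^ 2 ≤ Nn f h k m n c d x ^ 2 := by
    have h1 := Nn_sq (H.ww_pos x) hct (by linarith) hp
    refine le_trans ?_ h1
    rw [hκsq]
    have e : f x ^ 2 * h x ^ 2 * ww f h k x * (X2 f h k m n x - a ^ 2)
        = F ^ 2 * ((h x ^ 2 * ww f h k x) * (X2 f h k m n x - a ^ 2)) := by rw [hF]; ring
    rw [e, mul_comm (δ * (h 0 ^ 2 / 2))]
    apply mul_le_mul_of_nonneg_left _ (by positivity)
    rw [mul_comm δ]
    have hw1 := H.ww_pos x
    exact mul_le_mul x2.le (by linarith) hδ0.le (by positivity)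
  have n2 : κ * F ≤ |Nn f h k m n c d x| := by
    rw [← mul_pow] at n1
    exact abs_le_abs_of_sq_le_sq n1 |>.trans' (le_abs_self _)
  set u := c * A x with hu
  set E : ℝ → ℝ := fun y => d * (f y ^ 2 * (m + n * (h y ^ 2 * k y))) with hE
  have hN : ∀ z, Nn f h k m n c d z = c * A z - E z := fun z => by simp only [hA, hE]; rfl
  have hEb : ∀ z, |n * (h z ^ 2 * k z)| < |n * (h 0 ^ 2 * k 0)| + 1 → |E z| ≤ C * f z ^ 2 := by
    intro z hz
    simp only [hE]
    rw [abs_mul, abs_mul, abs_of_nonneg (sq_nonneg (f z))]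
    have h1 : |m + n * (h z ^ 2 * k z)| ≤ |m| + (|n * (h 0 ^ 2 * k 0)| + 1) :=
      (abs_add_le _ _).trans (by linarith)
    calc |d| * (f z ^ 2 * |m + n * (h z ^ 2 * k z)|)
        ≤ B * (f z ^ 2 * (|m| + (|n * (h 0 ^ 2 * k 0)| + 1))) := by
          refine mul_le_mul hd (mul_le_mul_of_nonneg_left h1 (sq_nonneg _)) ?_ hB
          exact mul_nonneg (sq_nonneg _) (abs_nonneg _)
      _ = C * f z ^ 2 := by rw [hC]; ring
  have e1 : |E x| ≤ κ * F / 8 := by
    have h1 := hEb x x3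
    have h2 : C * f x ^ 2 = C * F * F := by rw [← hF]; ring
    rw [h2] at h1
    have h3 : C * F ≤ κ / 8 := by nlinarith [mul_nonneg hC0 hF0.le]
    have h4 : C * F * F ≤ κ / 8 * F := mul_le_mul_of_nonneg_right h3 hF0.le
    linarith
  have e2 : |E y| ≤ κ * F / 8 := by
    have h1 := hEb y y3
    have h2 : f y ^ 2 ≤ (3 * F) ^ 2 := pow_le_pow_left₀ hfy0 hfy 2
    have h3 : C * f y ^ 2 ≤ C * (3 * F) ^ 2 := mul_le_mul_of_nonneg_left h2 hC0
    have h4 : C * (3 * F) ^ 2 = (9 * C * F) * F := by ring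
    have h5 : (9 * C * F) * F ≤ κ / 8 * F := mul_le_mul_of_nonneg_right x6.le hF0.le
    linarith
  have hκF : 0 < κ * F := by positivity
  have u1 : 7 / 8 * (κ * F) ≤ |u| := by
    rw [hN x] at n2
    have h1 : |c * A x - E x| ≤ |u| + |E x| := abs_sub _ _
    linarith
  have hupos : 0 < |u| := by linarith
  have p1 : 0 < Nn f h k m n c d x * u := by
    rw [hN x]
    have h1 : (c * A x - E x) * u = |u| ^ 2 - E x * u := by rw [sq_abs]; ring
    have h2 : E x * u ≤ |E x| * |u| := by rw [← abs_mul]; exact le_abs_self _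
    rw [h1]
    nlinarith
  have p2 : 0 < Nn f h k m n c d y * u := by
    rw [hN y]
    have h1 : (c * A y - E y) * u = c ^ 2 * (A y * A x) - E y * u := by rw [hu]; ring
    have h2 : E y * u ≤ |E y| * |u| := by rw [← abs_mul]; exact le_abs_self _
    have h3 : A x ^ 2 / 2 ≤ A y * A x := by
      have k1 : |A y - A x| ≤ |A 0| / 4 := by
        have : A y - A x = (A y - A 0) - (A x - A 0) := by ring
        rw [this]
        refine (abs_sub _ _).trans ?_
        linarith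
      have k2 : 7 / 8 * |A 0| ≤ |A x| := by
        have h4 : |A 0| ≤ |A x| + |A x - A 0| := by
          have := abs_sub (A x) (A x - A 0)
          rwa [sub_sub_cancel] at this
        linarith
      have k3 : A y * A x = |A x| ^ 2 + (A y - A x) * A x := by rw [sq_abs]; ring
      have k4 : -(|A y - A x| * |A x|) ≤ (A y - A x) * A x := by
        rw [← abs_mul]; exact neg_abs_le _
      have k5 : |A y - A x| ≤ |A x| / 2 := by linarith
      have k6 : |A y - A x| * |A x| ≤ |A x| / 2 * |A x| :=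
        mul_le_mul_of_nonneg_right k5 (abs_nonneg _)
      have k7 : A x ^ 2 = |A x| ^ 2 := (sq_abs _).symm
      rw [k3, k7]
      nlinarith
    have h4 : |u| ^ 2 / 2 ≤ c ^ 2 * (A y * A x) := by
      have : |u| ^ 2 / 2 = c ^ 2 * (A x ^ 2 / 2) := by rw [sq_abs, hu]; ring
      rw [this]
      exact mul_le_mul_of_nonneg_left h3 (sq_nonneg _)
    rw [h1]
    nlinarith
  have p3 : 0 < (Nn f h k m n c d x * Nn f h k m n c d y) * u ^ 2 := by
    have := mul_pos p1 p2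
    calc 0 < Nn f h k m n c d x * u * (Nn f h k m n c d y * u) := this
      _ = _ := by ring
  exact pos_of_mul_pos_of_pos_right p3 (sq_nonneg u)
where
  pos_of_mul_pos_of_pos_right {a b : ℝ} (h : 0 < a * b) (hb : 0 ≤ b) : 0 < a := by
    by_contra hcon
    push Not at hcon
    nlinarith [mul_nonneg (neg_nonneg.2 hcon) hb]
  abs_le_abs_of_sq_le_sq {a b : ℝ} (h : a ^ 2 ≤ b ^ 2) : |a| ≤ |b| := sq_le_sq.1 h

/-- Near the axis `r = 0` the side function keeps its sign. -/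
lemma Profile.exists_q0 (H : Profile L f h k) {a B : ℝ} {M : ℤ} (hB : 0 ≤ B)
    (rho : ∀ m n : ℤ, Odd m → Odd n → ∀ x ∈ Icc 0 L, a ^ 2 < X2 f h k m n x) :
    ∀ᶠ b in 𝓝[>] (0 : ℝ), ∀ m n : ℤ, Odd m → Odd n → |m| ≤ M → |n| ≤ M → ∀ c d : ℝ, |c| ≤ B →
      |d| ≤ B → |m * c + n * d| ≤ a → ∀ x ∈ Ioc 0 b, 0 ≤ pol f h k c d x → ∀ y ∈ Icc 0 x,
      0 < Nn f h k m n c d x * Nn f h k m n c d y := by
  have key : ∀ᶠ b in 𝓝[>] (0 : ℝ), ∀ m ∈ Icc (-M) M, ∀ n ∈ Icc (-M) M, Odd m → Odd n →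
      ∀ c d : ℝ, |c| ≤ B →
      |d| ≤ B → |m * c + n * d| ≤ a → ∀ x ∈ Ioc 0 b, 0 ≤ pol f h k c d x → ∀ y ∈ Icc 0 x,
      0 < Nn f h k m n c d x * Nn f h k m n c d y := by
    refine (Filter.eventually_all_finite (finite_Icc (-M) M)).2 fun m _ => ?_
    refine (Filter.eventually_all_finite (finite_Icc (-M) M)).2 fun n _ => ?_
    by_cases hodd : Odd m ∧ Odd n
    · obtain ⟨hm, hn⟩ := hodd
      obtain ⟨b0, hb0, hmain⟩ := H.q0_type (a := a) (m := m) (n := n) hB (odd_ne hn)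
        (rho m n hm hn 0 ⟨le_rfl, H.L_pos.le⟩)
      filter_upwards [Ioo_mem_nhdsGT hb0] with b hb
      intro _ _ c d hc hd hct x hx
      exact hmain c d hc hd hct x ⟨hx.1, hx.2.trans hb.2.le⟩
    · refine Eventually.of_forall fun b hm hn => ?_
      exact absurd ⟨hm, hn⟩ hodd
  filter_upwards [key] with b hb
  intro m n hm hn hmM hnM
  exact hb m (abs_le.1 hmM) n (abs_le.1 hnM) hm hn

lemma Profile.exists_ctx (H : Profile L f h k) {a : ℝ} (ha : 0 < a)
    (rho : ∀ m n : ℤ, Odd m → Odd n → ∀ x ∈ Icc 0 L, a ^ 2 < X2 f h k m n x) :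
    ∃ (b B : ℝ) (M : ℤ), Ctx L f h k a b B M := by
  have hf := H.fc
  have hh := H.hc
  have hk := H.kc
  have hL := H.L_pos
  have hbd : ∀ g : ℝ → ℝ, Continuous g → ∃ K, ∀ x ∈ Icc 0 L, g x ≤ K := by
    intro g hg
    obtain ⟨z, _, hz⟩ := isCompact_Icc.exists_isMaxOn (nonempty_Icc.2 hL.le)
      (hg.continuousOn (s := Icc 0 L))
    exact ⟨g z, fun x hx => hz hx⟩
  obtain ⟨K1, hK1⟩ := hbd (fun x => |h x ^ 2 * k x| + 3) (by fun_prop)
  obtain ⟨K2, hK2⟩ := hbd (fun x => |f x ^ 2 * k x| + 3) (by fun_prop)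
  obtain ⟨K3, hK3⟩ := hbd f hf
  obtain ⟨K4, hK4⟩ := hbd h hh
  set M : ℤ := ⌈max K1 K2⌉ with hM
  have hM0 : max K1 K2 ≤ (M : ℝ) := Int.le_ceil _
  set B := max K3 K4 + a + 1 with hB
  have hK30 : 0 ≤ K3 := (H.f_pos L hL le_rfl).le.trans (hK3 L ⟨hL.le, le_rfl⟩)
  have hmax0 : 0 ≤ max K3 K4 := hK30.trans (le_max_left _ _)
  have hB0 : 0 ≤ B := by rw [hB]; linarith
  have q1 := H.exists_q0 (a := a) (B := B) (M := M) hB0 rho
  have q2 := H.swap.exists_q0 (a := a) (B := B) (M := M) hB0 (by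
    intro m n hm hn x hx
    rw [X2_swap]
    exact rho n m hn hm (L - x) ⟨by linarith [hx.2], by linarith [hx.1]⟩)
  have q3 : ∀ᶠ b in 𝓝[>] (0 : ℝ), b ∈ Ioo 0 (L / 2) := Ioo_mem_nhdsGT (by positivity)
  obtain ⟨b, ⟨h1, h2⟩, h3⟩ := ((q1.and q2).and q3).exists
  refine ⟨b, B, M, H, ha, h3.1, by linarith [h3.2], rho, ?_, ?_, ?_, ?_, by rw [hB]; linarith, h1, ?_⟩
  · intro x hx
    exact ((hK1 x hx).trans (le_max_left _ _)).trans hM0
  · intro x hx
    exact ((hK2 x hx).trans (le_max_right _ _)).trans hM0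
  · intro x hx
    have := (hK3 x hx).trans (le_max_left K3 K4)
    rw [hB]; linarith
  · intro x hx
    have := (hK4 x hx).trans (le_max_right K3 K4)
    rw [hB]; linarith
  · intro m n hm hn hmM hnM c d hc hd hct x hx hp y hy
    have h4 := h2 n m hn hm hnM hmM d c hd hc (by rw [add_comm]; exact hct) (L - x)
      ⟨by linarith [hx.2], by linarith [hx.1]⟩ (by rw [pol_swap, sub_sub_cancel]; exact hp) (L - y)
      ⟨by linarith [hy.2], by linarith [hy.1]⟩
    rw [Nn_swap, Nn_swap, neg_mul_neg, sub_sub_cancel, sub_sub_cancel] at h4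
    exact h4

end

end TIS
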