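import Pool.Agent.TIS.Consts

/-!
# The minimum: ends of the interval, variations
-/

namespace TIS

open Set MeasureTheory Real Filter Topology

/-! ### Dependence on the momenta -/

/-- A bound for the change of the potential. -/
noncomputable def GG (f h k : ℝ → ℝ) (c d x : ℝ) : ℝ :=
  ((2 * |c| + 1) / f x ^ 2 + 2 * |k x| * (|c| + |d| + 1) + (2 * |d| + 1) / h x ^ 2) / ww f h k x

section
variable {f h k : ℝ → ℝ} {c d x : ℝ}

lemma pot_diff {c' d' ε : ℝ} (hw : 0 < ww f h k x) (hε0 : 0 ≤ ε) (hε1 : ε ≤ 1)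
    (hc : |c' - c| ≤ ε) (hd : |d' - d| ≤ ε) :
    pot f h k c' d' x ≤ pot f h k c d x + ε * GG f h k c d x := by
  have a1 : c ^ 2 - c' ^ 2 ≤ ε * (2 * |c| + 1) := by
    have e : c ^ 2 - c' ^ 2 = -(c' - c) * (2 * c + (c' - c)) := by ring
    have e2 : -(c' - c) * (2 * c + (c' - c)) ≤ |c' - c| * (2 * |c| + |c' - c|) := by
      refine (le_abs_self _).trans ?_
      rw [abs_mul, abs_neg]
      refine mul_le_mul_of_nonneg_left ((abs_add_le _ _).trans ?_) (abs_nonneg _)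
      rw [abs_mul, abs_two]
    rw [e]
    refine e2.trans ?_
    exact mul_le_mul hc (by linarith) (by positivity) hε0
  have a2 : d ^ 2 - d' ^ 2 ≤ ε * (2 * |d| + 1) := by
    have e : d ^ 2 - d' ^ 2 = -(d' - d) * (2 * d + (d' - d)) := by ring
    have e2 : -(d' - d) * (2 * d + (d' - d)) ≤ |d' - d| * (2 * |d| + |d' - d|) := by
      refine (le_abs_self _).trans ?_
      rw [abs_mul, abs_neg]
      refine mul_le_mul_of_nonneg_left ((abs_add_le _ _).trans ?_) (abs_nonneg _)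
      rw [abs_mul, abs_two]
    rw [e]
    refine e2.trans ?_
    exact mul_le_mul hd (by linarith) (by positivity) hε0
  have a3 : |c' * d' - c * d| ≤ ε * (|c| + |d| + 1) := by
    have e : c' * d' - c * d = c * (d' - d) + d * (c' - c) + (c' - c) * (d' - d) := by ring
    rw [e]
    refine (abs_add_three _ _ _).trans ?_
    rw [abs_mul, abs_mul, abs_mul]
    have b1 : |c| * |d' - d| ≤ |c| * ε := mul_le_mul_of_nonneg_left hd (abs_nonneg _)
    have b2 : |d| * |c' - c| ≤ |d| * ε := mul_le_mul_of_nonneg_left hc (abs_nonneg _)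
    have b3 : |c' - c| * |d' - d| ≤ ε * 1 :=
      mul_le_mul hc (hd.trans hε1) (abs_nonneg _) hε0
    linarith
  have a4 : 2 * k x * (c' * d' - c * d) ≤ 2 * |k x| * (ε * (|c| + |d| + 1)) := by
    refine (le_abs_self _).trans ?_
    rw [abs_mul, abs_mul, abs_two]
    exact mul_le_mul_of_nonneg_left a3 (by positivity)
  have a5 : (c ^ 2 - c' ^ 2) / f x ^ 2 ≤ ε * (2 * |c| + 1) / f x ^ 2 :=
    div_le_div_of_nonneg_right a1 (sq_nonneg _)
  have a6 : (d ^ 2 - d' ^ 2) / h x ^ 2 ≤ ε * (2 * |d| + 1) / h x ^ 2 :=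
    div_le_div_of_nonneg_right a2 (sq_nonneg _)
  have a7 : (c ^ 2 / f x ^ 2 - 2 * k x * (c * d) + d ^ 2 / h x ^ 2)
      - (c' ^ 2 / f x ^ 2 - 2 * k x * (c' * d') + d' ^ 2 / h x ^ 2)
      ≤ ε * ((2 * |c| + 1) / f x ^ 2 + 2 * |k x| * (|c| + |d| + 1)
        + (2 * |d| + 1) / h x ^ 2) := by
    rw [sub_div] at a5 a6
    have e1 : ε * ((2 * |c| + 1) / f x ^ 2 + 2 * |k x| * (|c| + |d| + 1)
        + (2 * |d| + 1) / h x ^ 2) = ε * (2 * |c| + 1) / f x ^ 2
        + 2 * |k x| * (ε * (|c| + |d| + 1)) + ε * (2 * |d| + 1) / h x ^ 2 := by ring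
    rw [e1]
    linarith
  have a8 := div_le_div_of_nonneg_right a7 hw.le
  rw [sub_div] at a8
  unfold pot nrm GG
  rw [mul_div_assoc] at a8
  linarith

lemma nrm_nonneg' (hw : 0 < ww f h k x) (h0 : c = 0 ∨ f x ≠ 0) (h1 : d = 0 ∨ h x ≠ 0) :
    0 ≤ nrm f h k c d x := by
  rcases h0 with rfl | h0
  · have : nrm f h k 0 d x = d ^ 2 / h x ^ 2 / ww f h k x := by unfold nrm; simp
    rw [this]
    positivity
  rcases h1 with rfl | h1
  · have : nrm f h k c 0 x = c ^ 2 / f x ^ 2 / ww f h k x := by unfold nrm; simp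
    rw [this]
    positivity
  exact nrm_nonneg h0 h1 hw

/-- Expansion of the potential. -/
lemma pot_expand (v₁ v₂ ε : ℝ) :
    pot f h k (c + ε * v₁) (d + ε * v₂) x
      = pot f h k c d x + ε * (-2 * (v₁ * PP f h k c d x + v₂ * QQ f h k c d x))
        - ε ^ 2 * nrm f h k v₁ v₂ x := by
  unfold pot nrm PP QQ
  ring

end

section
variable {L : ℝ} {f h k : ℝ → ℝ}

/-- Moving a transversal end. -/
lemma Profile.end_move (H : Profile L f h k) {c d e s : ℝ} (hs : s = 1 ∨ s = -1)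
    (he : e ∈ Ioo 0 L) (hU : pot f h k c d e = 0) (hder : s * deriv (pot f h k c d) e < 0) :
    ∃ C > 0, ∃ K ≥ 0, ∃ ε₀ > 0, ∀ ε ∈ Ioo 0 ε₀, e + s * (C * ε) ∈ Ioo 0 L ∧
      ∀ c' d', |c' - c| ≤ ε → |d' - d| ≤ ε →
        pot f h k c' d' (e + s * (C * ε)) ≤ 0 ∧
        ∀ t ∈ Ioo 0 (C * ε), pot f h k c' d' (e + s * t) ≤ K * ε := by
  have hsabs : |s| = 1 := by rcases hs with h1 | h1 <;> rw [h1] <;> norm_num
  set κ := -(s * deriv (pot f h k c d) e) / 2 with hκ
  have hκpos : 0 < κ := by rw [hκ]; linarith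
  have hdiff : HasDerivAt (pot f h k c d) (deriv (pot f h k c d) e) e :=
    ((H.pot_contDiffAt (Or.inr (H.fne he)) (Or.inr (H.hne he))).differentiableAt
      (by simp)).hasDerivAt
  have hsl : ∀ᶠ y in 𝓝 e,
      |pot f h k c d y - (y - e) * deriv (pot f h k c d) e| ≤ κ * |y - e| := by
    have := hdiff.isLittleO.def hκpos
    filter_upwards [this] with y hy
    rw [hU, sub_zero, smul_eq_mul, Real.norm_eq_abs, Real.norm_eq_abs] at hy
    exact hy
  have hcG : ContinuousAt (GG f h k c d) e := by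
    unfold GG
    refine ContinuousAt.div (ContinuousAt.add (ContinuousAt.add ?_ ?_) ?_)
      H.ww_cont.continuousAt (H.ww_pos e).ne'
    · exact continuousAt_const.div (H.fc.continuousAt.pow 2) (pow_ne_zero 2 (H.fne he))
    · exact (continuousAt_const.mul H.kc.continuousAt.abs).mul continuousAt_const
    · exact continuousAt_const.div (H.hc.continuousAt.pow 2) (pow_ne_zero 2 (H.hne he))
  have hGl : ∀ᶠ y in 𝓝 e, GG f h k c d y < |GG f h k c d e| + 1 :=
    hcG.eventually (gt_mem_nhds (by linarith [le_abs_self (GG f h k c d e)]))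
  have hin : ∀ᶠ y in 𝓝 e, y ∈ Ioo 0 L := isOpen_Ioo.mem_nhds he
  obtain ⟨δ, hδ, hball⟩ := Metric.eventually_nhds_iff.1 ((hsl.and hGl).and hin)
  set K := |GG f h k c d e| + 1 with hK
  have hK0 : 0 ≤ K := by positivity
  set C := K / κ + 1 with hC
  have hCpos : 0 < C := by positivity
  refine ⟨C, hCpos, K, hK0, min (δ / C) 1, lt_min (by positivity) one_pos, ?_⟩
  intro ε hε
  have hε0 : 0 < ε := hε.1
  have hε1 : ε ≤ 1 := (hε.2.trans_le (min_le_right _ _)).le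
  have hCε : C * ε < δ := by
    have := hε.2.trans_le (min_le_left _ _)
    rw [lt_div_iff₀ hCpos] at this
    linarith
  have hkey : ∀ t, 0 ≤ t → t ≤ C * ε → dist (e + s * t) e < δ := by
    intro t ht0 ht
    rw [Real.dist_eq, add_sub_cancel_left, abs_mul, hsabs, one_mul, abs_of_nonneg ht0]
    linarith
  have hpot : ∀ t, 0 ≤ t → t ≤ C * ε → pot f h k c d (e + s * t) ≤ -(κ * t) := by
    intro t ht0 ht
    have h1 := (hball (hkey t ht0 ht)).1.1
    rw [add_sub_cancel_left, abs_mul, hsabs, one_mul, abs_of_nonneg ht0] at h1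
    have h2 := (abs_le.1 h1).2
    have h3 : s * t * deriv (pot f h k c d) e = -(2 * κ * t) := by rw [hκ]; ring
    rw [h3] at h2
    linarith
  refine ⟨(hball (hkey _ (by positivity) le_rfl)).2, ?_⟩
  intro c' d' hc hd
  have hgen : ∀ t, 0 ≤ t → t ≤ C * ε →
      pot f h k c' d' (e + s * t) ≤ pot f h k c d (e + s * t) + K * ε := by
    intro t ht0 ht
    have h1 := (hball (hkey t ht0 ht)).1.2
    have h2 := pot_diff (H.ww_pos (e + s * t)) hε0.le hε1 hc hd
    have h3 : ε * GG f h k c d (e + s * t) ≤ ε * K := mul_le_mul_of_nonneg_left h1.le hε0.le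
    linarith
  constructor
  · have h1 := hgen (C * ε) (by positivity) le_rfl
    have h2 := hpot (C * ε) (by positivity) le_rfl
    have h3 : κ * (C * ε) = K * ε + κ * ε := by rw [hC]; field_simp
    have : 0 < κ * ε := by positivity
    linarith
  · intro t ht
    have h1 := hgen t ht.1.le ht.2.le
    have h2 := hpot t ht.1.le ht.2.le
    have : 0 < κ * t := mul_pos hκpos ht.1
    linarith

/-- The sign of the side function persists. -/
lemma Profile.Nn_near (H : Profile L f h k) {s m n c d e : ℝ}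
    (h0 : 0 < s * Nn f h k m n c d e) : ∃ δ > 0, ∀ c' d' y, |c' - c| < δ → |d' - d| < δ →
      |y - e| < δ → 0 < s * Nn f h k m n c' d' y := by
  have hf := H.fc
  have hh := H.hc
  have hk := H.kc
  have hc : Continuous (fun p : ℝ × ℝ × ℝ => s * Nn f h k m n p.1 p.2.1 p.2.2) := by
    unfold Nn
    fun_prop
  have hev : ∀ᶠ p : ℝ × ℝ × ℝ in 𝓝 (c, d, e), 0 < s * Nn f h k m n p.1 p.2.1 p.2.2 :=
    hc.continuousAt.eventually (lt_mem_nhds h0)
  obtain ⟨δ, hδ, hball⟩ := Metric.eventually_nhds_iff.1 hev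
  refine ⟨δ, hδ, fun c' d' y h1 h2 h3 => ?_⟩
  refine @hball (c', d', y) ?_
  rw [Prod.dist_eq, Prod.dist_eq]
  exact max_lt h1 (max_lt h2 h3)

end

/-! ### The minimum -/

/-- The data of a minimum in a single well, below the level `π a`. -/
structure Cr (L : ℝ) (f h k : ℝ → ℝ) (a b B : ℝ) (M σ m n : ℤ) (c d α β : ℝ) : Prop where
  C : Ctx L f h k a b B M
  A : Adm L f h k a b B M σ m n c d α β
  isMin : ∀ (σ' m' n' : ℤ) (c' d' α' β' : ℝ), Adm L f h k a b B M σ' m' n' c' d' α' β' →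
    fun1 f h k m n c d α β ≤ fun1 f h k m' n' c' d' α' β'
  lt : α < β
  inside : ∀ x ∈ Ioo α β, pol f h k c d x < 0
  ct : m * c + n * d < a
  cd : c ≠ 0 ∨ d ≠ 0

section
variable {L : ℝ} {f h k : ℝ → ℝ} {a b B : ℝ} {M σ m n : ℤ} {c d α β : ℝ}

lemma Cr.swap (r : Cr L f h k a b B M σ m n c d α β) :
    Cr L (fun x => h (L - x)) (fun x => f (L - x)) (fun x => k (L - x)) a b B M σ n m d c
      (L - β) (L - α) := by
  refine ⟨r.C.swap, r.A.swap, ?_, by linarith [r.lt], ?_, ?_, r.cd.symm⟩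
  · intro σ' m' n' c' d' α' β' A'
    rw [fun1_swap]
    have h1 := r.isMin _ _ _ _ _ _ _ A'.swap'
    have h2 := fun1_swap (L := L) (f := f) (h := h) (k := k) (c := d') (d := c') (α := L - β')
      (β := L - α') n' m'
    rw [sub_sub_cancel, sub_sub_cancel] at h2
    rw [h2]
    exact h1
  · intro x hx
    rw [pol_swap]
    exact r.inside _ ⟨by linarith [hx.2], by linarith [hx.1]⟩
  · rw [add_comm]; exact r.ct

lemma Cr.neg (r : Cr L f h k a b B M σ m n c d α β) :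
    Cr L f h k a b B M σ (-m) (-n) (-c) (-d) α β := by
  refine ⟨r.C, r.A.neg, ?_, r.lt, ?_, ?_, ?_⟩
  · intro σ' m' n' c' d' α' β' A'
    push_cast
    rw [fun1_neg]
    exact r.isMin _ _ _ _ _ _ _ A'
  · intro x hx
    rw [pol_neg]
    exact r.inside x hx
  · push_cast
    have := r.ct
    linarith
  · rcases r.cd with h1 | h1
    · exact Or.inl (neg_ne_zero.2 h1)
    · exact Or.inr (neg_ne_zero.2 h1)

lemma Cr.ioo (r : Cr L f h k a b B M σ m n c d α β) {x : ℝ} (hx : x ∈ Ioo α β) :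
    x ∈ Ioo 0 L := ⟨r.A.hα.trans_lt hx.1, hx.2.trans_le r.A.hβ⟩

lemma Cr.potpos (r : Cr L f h k a b B M σ m n c d α β) {x : ℝ} (hx : x ∈ Ioo α β) :
    0 < pot f h k c d x :=
  (pot_pos_iff (r.C.H.fne (r.ioo hx)) (r.C.H.hne (r.ioo hx)) (r.C.H.ww_pos x)).2 (r.inside x hx)

lemma Cr.polα (r : Cr L f h k a b B M σ m n c d α β) : pol f h k c d α = 0 := by
  refine le_antisymm ?_ r.A.pα
  have ht : Tendsto (pol f h k c d) (𝓝[Ioo α β] α) (𝓝 (pol f h k c d α)) :=
    (r.C.H.pol_cont c d).continuousAt.mono_left nhdsWithin_le_nhds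
  have : (𝓝[Ioo α β] α).NeBot := left_nhdsWithin_Ioo_neBot r.lt
  refine le_of_tendsto ht ?_
  filter_upwards [self_mem_nhdsWithin] with x hx
  exact (r.inside x hx).le

lemma Cr.polβ (r : Cr L f h k a b B M σ m n c d α β) : pol f h k c d β = 0 := by
  refine le_antisymm ?_ r.A.pβ
  have ht : Tendsto (pol f h k c d) (𝓝[Ioo α β] β) (𝓝 (pol f h k c d β)) :=
    (r.C.H.pol_cont c d).continuousAt.mono_left nhdsWithin_le_nhds
  have : (𝓝[Ioo α β] β).NeBot := right_nhdsWithin_Ioo_neBot r.lt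
  refine le_of_tendsto ht ?_
  filter_upwards [self_mem_nhdsWithin] with x hx
  exact (r.inside x hx).le

lemma Cr.c_zero (r : Cr L f h k a b B M σ m n c d α β) (hα : α = 0) : c = 0 := by
  have h2 := r.polα
  rw [hα, pol_zero r.C.H] at h2
  have h3 := r.C.H.h_pos 0 le_rfl r.C.H.L_pos
  rcases mul_eq_zero.1 h2 with h4 | h4
  · exact pow_eq_zero_iff two_ne_zero |>.1 h4
  · exact absurd h4 (by positivity)

lemma Cr.d_zero (r : Cr L f h k a b B M σ m n c d α β) (hβ : β = L) : d = 0 := by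
  have h2 := r.polβ
  rw [hβ, pol_L r.C.H] at h2
  have h3 := r.C.H.f_pos L r.C.H.L_pos le_rfl
  rcases mul_eq_zero.1 h2 with h4 | h4
  · exact pow_eq_zero_iff two_ne_zero |>.1 h4
  · exact absurd h4 (by positivity)

lemma Cr.reg0 (r : Cr L f h k a b B M σ m n c d α β) {x : ℝ} (hx : x ∈ Icc α β) :
    c = 0 ∨ f x ≠ 0 := by
  rcases eq_or_lt_of_le (r.A.hα.trans hx.1) with h1 | h1
  · left
    exact r.c_zero (le_antisymm (by rw [h1]; exact hx.1) r.A.hα)
  · right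
    exact (r.C.H.f_pos x h1 (hx.2.trans r.A.hβ)).ne'

lemma Cr.reg1 (r : Cr L f h k a b B M σ m n c d α β) {x : ℝ} (hx : x ∈ Icc α β) :
    d = 0 ∨ h x ≠ 0 := by
  rcases eq_or_lt_of_le (hx.2.trans r.A.hβ) with h1 | h1
  · left
    exact r.d_zero (le_antisymm r.A.hβ (by rw [← h1]; exact hx.2))
  · right
    exact (r.C.H.h_pos x (r.A.hα.trans hx.1) h1).ne'

lemma Cr.iα (r : Cr L f h k a b B M σ m n c d α β) (hα : 0 < α) : α ∈ Ioo 0 L :=
  ⟨hα, r.lt.trans_le r.A.hβ⟩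

lemma Cr.iβ (r : Cr L f h k a b B M σ m n c d α β) (hβ : β < L) : β ∈ Ioo 0 L :=
  ⟨r.A.hα.trans_lt r.lt, hβ⟩

lemma Cr.potα (r : Cr L f h k a b B M σ m n c d α β) (hα : 0 < α) : pot f h k c d α = 0 :=
  (pot_zero_iff (r.C.H.fne (r.iα hα)) (r.C.H.hne (r.iα hα)) (r.C.H.ww_pos α)).2 r.polα

lemma Cr.potβ (r : Cr L f h k a b B M σ m n c d α β) (hβ : β < L) : pot f h k c d β = 0 :=
  (pot_zero_iff (r.C.H.fne (r.iβ hβ)) (r.C.H.hne (r.iβ hβ)) (r.C.H.ww_pos β)).2 r.polβ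

lemma sigma_ne (A : Adm L f h k a b B M σ m n c d α β) : (σ : ℝ) ≠ 0 := by
  rcases A.hσ with h5 | h5 <;> rw [h5] <;> norm_num

lemma Cr.Npos (r : Cr L f h k a b B M σ m n c d α β) (hα : 0 < α) :
    0 < (σ : ℝ) * Nn f h k m n c d α := by
  refine lt_of_le_of_ne r.A.Nα (Ne.symm (mul_ne_zero (sigma_ne r.A) ?_))
  exact r.C.Nne r.A.hm r.A.hn r.A.ct_abs (r.iα hα) r.A.pα

lemma Cr.Nneg (r : Cr L f h k a b B M σ m n c d α β) (hβ : β < L) :
    (σ : ℝ) * Nn f h k m n c d β < 0 := by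
  refine lt_of_le_of_ne r.A.Nβ (mul_ne_zero (sigma_ne r.A) ?_)
  exact r.C.Nne r.A.hm r.A.hn r.A.ct_abs (r.iβ hβ) r.A.pβ

lemma Cr.pot_contDiffAt (r : Cr L f h k a b B M σ m n c d α β) {x : ℝ} (hx : x ∈ Icc α β) :
    ContDiffAt ℝ (⊤ : ℕ∞) (pot f h k c d) x := r.C.H.pot_contDiffAt (r.reg0 hx) (r.reg1 hx)

lemma Cr.pot_contOn (r : Cr L f h k a b B M σ m n c d α β) :
    ContinuousOn (pot f h k c d) (Icc α β) :=
  fun _ hx => (r.pot_contDiffAt hx).continuousAt.continuousWithinAt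

lemma Cr.act_eq (r : Cr L f h k a b B M σ m n c d α β) :
    act f h k c d α β = ∫ x in α..β, √(pot f h k c d x) :=
  r.C.H.act_eq c d r.A.hα r.A.hαβ r.A.hβ

/-! ### Scaling of the momenta -/

lemma Adm.scale (A : Adm L f h k a b B M σ m n c d α β) (H : Profile L f h k) {s : ℝ}
    (hs : 1 ≤ s) (hct : s * (m * c + n * d) ≤ a) (hsc : s * |c| ≤ B) (hsd : s * |d| ≤ B) :
    Adm L f h k a b B M σ m n (s * c) (s * d) α β := by
  have hs0 : 0 ≤ s := by linarith
  have e : (m : ℝ) * (s * c) + n * (s * d) = s * (m * c + n * d) := by ring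
  have hp : ∀ x, 0 ≤ pol f h k c d x → 0 ≤ pol f h k (s * c) (s * d) x := by
    intro x hx
    rw [pol_scale]
    have h1 := num_nonneg (c := c) (d := d) (H.ww_pos x)
    have h2 : 0 ≤ (s ^ 2 - 1) * num f h k c d x := mul_nonneg (by nlinarith) h1
    linarith
  refine ⟨A.hσ, A.hm, A.hn, A.hmM, A.hnM, ?_, ?_, ?_, ?_, A.hα, A.hαβ, A.hβ, A.hbβ, A.hbα,
    hp α A.pα, hp β A.pβ, ?_, ?_⟩
  · rw [abs_mul, abs_of_nonneg hs0]; exact hsc
  · rw [abs_mul, abs_of_nonneg hs0]; exact hsd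
  · rw [e]; exact mul_nonneg hs0 A.ct0
  · rw [e]; exact hct
  · rw [Nn_scale]
    have := mul_nonneg hs0 A.Nα
    linarith
  · rw [Nn_scale]
    have := mul_nonneg hs0 (neg_nonneg.2 A.Nβ)
    linarith

lemma Cr.drop (r : Cr L f h k a b B M σ m n c d α β) {p q : ℝ} (hp : α < p) (hpq : p ≤ q)
    (hq : q < β) : ∫ x in p..q, (2 * nrm f h k c d x) / (2 * √(pot f h k c d x))
      ≤ π / 2 * (m * c + n * d) := by
  have H := r.C.H
  obtain ⟨hcB, hdB⟩ := r.C.bound r.A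
  have hsub : ∀ x ∈ Icc p q, x ∈ Ioo α β := fun x hx => ⟨hp.trans_le hx.1, hx.2.trans_lt hq⟩
  -- the size of the step
  obtain ⟨ε₀, hε₀, hstep⟩ : ∃ ε₀ > 0, ∀ ε ∈ Ioo 0 ε₀, (1 + ε) * ((m : ℝ) * c + n * d) ≤ a ∧
      (1 + ε) * |c| ≤ B ∧ (1 + ε) * |d| ≤ B := by
    have key : ∀ {x y : ℝ}, x < y → ∀ᶠ ε : ℝ in 𝓝 0, (1 + ε) * x < y := by
      intro x y hxy
      have hc : ContinuousAt (fun ε : ℝ => (1 + ε) * x) 0 := by fun_prop
      exact hc.eventually (gt_mem_nhds (by simpa using hxy))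
    obtain ⟨ε₀, hε₀, hball⟩ := Metric.eventually_nhds_iff.1
      ((key r.ct).and ((key hcB).and (key hdB)))
    refine ⟨ε₀, hε₀, fun ε hε => ?_⟩
    obtain ⟨h1, h2, h3⟩ := hball (y := ε) (by
      rw [Real.dist_eq, sub_zero, abs_of_pos hε.1]; exact hε.2)
    exact ⟨h1.le, h2.le, h3.le⟩
  have hnn : ∀ x ∈ Icc α β, 0 ≤ nrm f h k c d x := fun x hx =>
    nrm_nonneg' (H.ww_pos x) (r.reg0 hx) (r.reg1 hx)
  have hV : ∀ ε : ℝ, ∀ x, pot f h k ((1 + ε) * c) ((1 + ε) * d) x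
      = pot f h k c d x - ε * (2 * nrm f h k c d x) - ε ^ 2 * nrm f h k c d x := by
    intro ε x
    unfold pot nrm
    ring
  refine DWS.var_drop (α := α) (β := β) (ε₀ := ε₀) (U := pot f h k c d)
    (w := fun x => 2 * nrm f h k c d x)
    (V := fun ε x => pot f h k ((1 + ε) * c) ((1 + ε) * d) x) hp.le hpq hq.le hε₀
    (r.pot_contOn.mono fun x hx => ⟨(hsub x hx).1.le, (hsub x hx).2.le⟩)
    (fun x hx => r.potpos (hsub x hx)) ?_ ?_ ?_ ?_ (H.ii _ _ r.A.hα r.A.hαβ r.A.hβ)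
    (fun ε => H.ii _ _ r.A.hα r.A.hαβ r.A.hβ) ?_
  · have e : (fun x => 2 * nrm f h k c d x) = fun x => 2 * (1 - pot f h k c d x) := by
      funext x; unfold pot; ring
    rw [e]
    exact continuousOn_const.mul (continuousOn_const.sub
      (r.pot_contOn.mono fun x hx => ⟨(hsub x hx).1.le, (hsub x hx).2.le⟩))
  · intro x hx
    have := hnn x ⟨(hsub x hx).1.le, (hsub x hx).2.le⟩
    linarith
  · intro ε hε x hx
    have := hnn x ⟨(hsub x hx).1.le, (hsub x hx).2.le⟩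
    rw [hV]
    nlinarith [sq_nonneg ε, mul_nonneg (sq_nonneg ε) this]
  · intro ε hε x hx
    have h1 := hnn x hx
    rw [hV]
    have h2 := mul_nonneg (sq_nonneg ε) h1
    have h3 := mul_nonneg hε.1.le h1
    linarith
  · intro ε hε
    obtain ⟨h1, h2, h3⟩ := hstep ε hε
    have h4 := r.isMin _ _ _ _ _ _ _ (r.A.scale H (by linarith [hε.1]) h1 h2 h3)
    unfold fun1 at h4
    rw [r.act_eq, H.act_eq _ _ r.A.hα r.A.hαβ r.A.hβ] at h4
    have h5 : π * ((m : ℝ) * ((1 + ε) * c) + n * ((1 + ε) * d))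
        = π * (m * c + n * d) + 2 * (π / 2 * (m * c + n * d) * ε) := by ring
    rw [h5] at h4
    linarith

lemma Cr.nrm_pos (r : Cr L f h k a b B M σ m n c d α β) {x : ℝ} (hx : x ∈ Ioo α β) :
    0 < nrm f h k c d x :=
  TIS.nrm_pos (r.C.H.fne (r.ioo hx)) (r.C.H.hne (r.ioo hx)) (r.C.H.ww_pos x) r.cd

lemma Cr.ct_pos (r : Cr L f h k a b B M σ m n c d α β) : 0 < (m : ℝ) * c + n * d := by
  have hlt := r.lt
  set p := (2 * α + β) / 3 with hp
  set q := (α + 2 * β) / 3 with hq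
  have h1 : α < p := by rw [hp]; linarith
  have h2 : p < q := by rw [hp, hq]; linarith
  have h3 : q < β := by rw [hq]; linarith
  have h4 := r.drop h1 h2.le h3
  have hsub : ∀ x ∈ Icc p q, x ∈ Ioo α β := fun x hx => ⟨h1.trans_le hx.1, hx.2.trans_lt h3⟩
  have hcn : ContinuousOn (fun x => (2 * nrm f h k c d x) / (2 * √(pot f h k c d x)))
      (Icc p q) := by
    have e : (fun x => 2 * nrm f h k c d x) = fun x => 2 * (1 - pot f h k c d x) := by
      funext x; unfold pot; ring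
    have hc := r.pot_contOn.mono (s := Icc α β) (t := Icc p q)
      (fun x hx => ⟨(hsub x hx).1.le, (hsub x hx).2.le⟩)
    refine ContinuousOn.div ?_ (continuousOn_const.mul hc.sqrt) ?_
    · rw [e]
      exact continuousOn_const.mul (continuousOn_const.sub hc)
    · intro x hx
      have := Real.sqrt_pos.2 (r.potpos (hsub x hx))
      positivity
  have h5 : 0 < ∫ x in p..q, (2 * nrm f h k c d x) / (2 * √(pot f h k c d x)) := by
    refine intervalIntegral.intervalIntegral_pos_of_pos_on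
      (hcn.intervalIntegrable_of_Icc h2.le) ?_ h2
    intro x hx
    have h6 := r.nrm_pos (hsub x ⟨hx.1.le, hx.2.le⟩)
    have h7 := Real.sqrt_pos.2 (r.potpos (hsub x ⟨hx.1.le, hx.2.le⟩))
    positivity
  have hπ := pi_pos
  have h8 : 0 < π / 2 * ((m : ℝ) * c + n * d) := h5.trans_le h4
  exact pos_of_mul_pos_right h8 (by positivity)

/-- The integrals of `1/√U` near an end are bounded. -/
lemma Cr.drop' (r : Cr L f h k a b B M σ m n c d α β) {p q : ℝ} (hp : α < p) (hpq : p ≤ q)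
    (hq : q < β) (hs : ∀ x ∈ Icc p q, pot f h k c d x < 1 / 2) :
    ∫ x in p..q, 1 / (2 * √(pot f h k c d x)) ≤ π / 2 * (m * c + n * d) := by
  refine le_trans ?_ (r.drop hp hpq hq)
  have hsub : ∀ x ∈ Icc p q, x ∈ Ioo α β := fun x hx => ⟨hp.trans_le hx.1, hx.2.trans_lt hq⟩
  have hs' : ∀ x ∈ Icc p q, 2 * √(pot f h k c d x) ≠ 0 := fun x hx => by
    have := Real.sqrt_pos.2 (r.potpos (hsub x hx))
    positivity
  have hc := r.pot_contOn.mono (s := Icc α β) (t := Icc p q)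
    (fun x hx => ⟨(hsub x hx).1.le, (hsub x hx).2.le⟩)
  have hcs : ContinuousOn (fun x => 2 * √(pot f h k c d x)) (Icc p q) :=
    continuousOn_const.mul hc.sqrt
  have e : (fun x => (2 * nrm f h k c d x) / (2 * √(pot f h k c d x)))
      = fun x => (2 * (1 - pot f h k c d x)) / (2 * √(pot f h k c d x)) := by
    funext x; unfold pot; ring
  rw [e]
  refine intervalIntegral.integral_mono_on hpq ?_ ?_ ?_
  · exact (continuousOn_const.div hcs hs').intervalIntegrable_of_Icc hpq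
  · exact ((continuousOn_const.mul (continuousOn_const.sub hc)).div hcs
      hs').intervalIntegrable_of_Icc hpq
  · intro x hx
    apply div_le_div_of_nonneg_right _ (by positivity)
    have := hs x hx
    linarith

/-- The left end is transversal. -/
lemma Cr.dleft (r : Cr L f h k a b B M σ m n c d α β) (hα : 0 < α) :
    0 < deriv (pot f h k c d) α := by
  have hcont := r.pot_contDiffAt (x := α) ⟨le_rfl, r.lt.le⟩
  obtain ⟨δ, hδ, hball⟩ : ∃ δ > 0, ∀ x, |x - α| < δ → pot f h k c d x < 1 / 2 := by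
    have h1 : ∀ᶠ x in 𝓝 α, pot f h k c d x < 1 / 2 :=
      hcont.continuousAt.eventually (p := fun y => y < 1 / 2)
        (gt_mem_nhds (by rw [r.potα hα]; norm_num))
    obtain ⟨δ, hδ, hb⟩ := Metric.eventually_nhds_iff.1 h1
    exact ⟨δ, hδ, fun x hx => hb (by rw [Real.dist_eq]; exact hx)⟩
  refine DWS.nondeg_left (δ₀ := δ) (κ := π / 2 * (m * c + n * d)) hδ r.lt hcont (r.potα hα)
    (r.pot_contOn.mono Ioo_subset_Icc_self) (fun x hx => r.potpos hx) ?_
  intro p q hp hq1 hpq hq2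
  refine r.drop' hp hpq hq2 ?_
  intro x hx
  refine hball x ?_
  rw [abs_of_pos (by linarith [hx.1])]
  linarith [hx.2]

/-- The right end is transversal. -/
lemma Cr.dright (r : Cr L f h k a b B M σ m n c d α β) (hβ : β < L) :
    deriv (pot f h k c d) β < 0 := by
  have hcont := r.pot_contDiffAt (x := β) ⟨r.lt.le, le_rfl⟩
  obtain ⟨δ, hδ, hball⟩ : ∃ δ > 0, ∀ x, |x - β| < δ → pot f h k c d x < 1 / 2 := by
    have h1 : ∀ᶠ x in 𝓝 β, pot f h k c d x < 1 / 2 :=
      hcont.continuousAt.eventually (p := fun y => y < 1 / 2)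
        (gt_mem_nhds (by rw [r.potβ hβ]; norm_num))
    obtain ⟨δ, hδ, hb⟩ := Metric.eventually_nhds_iff.1 h1
    exact ⟨δ, hδ, fun x hx => hb (by rw [Real.dist_eq]; exact hx)⟩
  refine DWS.nondeg_right (δ₀ := δ) (κ := π / 2 * (m * c + n * d)) hδ r.lt hcont (r.potβ hβ)
    (r.pot_contOn.mono Ioo_subset_Icc_self) (fun x hx => r.potpos hx) ?_
  intro p q hp hp2 hpq hq2
  refine r.drop' hp hpq hq2 ?_
  intro x hx
  refine hball x ?_
  rw [abs_sub_comm, abs_of_pos (by linarith [hx.2])]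
  linarith [hx.1]

end

end TIS
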