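import Pool.Agent.TIS.Crit

/-!
# First order conditions at the minimum
-/

namespace TIS

open Set MeasureTheory Real Filter Topology

section
variable {L : ℝ} {f h k : ℝ → ℝ} {a b B : ℝ} {M σ m n : ℤ} {c d α β : ℝ}

/-- Moving the left end. -/
lemma Cr.move_left (r : Cr L f h k a b B M σ m n c d α β) :
    ∃ C > 0, ∃ K ≥ 0, ∃ ε₀ > 0, ∃ A : ℝ → ℝ, ∀ ε ∈ Ioo 0 ε₀, α - C * ε ≤ A ε ∧ A ε ≤ α ∧
      0 ≤ A ε ∧ ∀ c' d', |c' - c| ≤ ε → |d' - d| ≤ ε → (α = 0 → c' = 0) →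
        0 ≤ pol f h k c' d' (A ε) ∧ 0 ≤ (σ : ℝ) * Nn f h k m n c' d' (A ε) ∧
        ∀ x ∈ Ioo (A ε) α, pot f h k c' d' x ≤ K * ε := by
  have A := r.A
  have H := r.C.H
  rcases eq_or_lt_of_le A.hα with h0 | h0
  · refine ⟨1, one_pos, 0, le_rfl, 1, one_pos, fun _ => α, ?_⟩
    intro ε hε
    refine ⟨by linarith [hε.1], le_rfl, A.hα, ?_⟩
    intro c' d' _ _ h3
    have hc' : c' = 0 := h3 h0.symm
    refine ⟨?_, ?_, ?_⟩
    · rw [← h0, pol_zero H, hc']; simp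
    · rw [← h0, Nn_zero H, hc']; simp
    · intro x hx; exact absurd (hx.1.trans hx.2) (lt_irrefl _)
  · obtain ⟨C, hC, K, hK, ε₁, hε₁, hmove⟩ := H.end_move (s := -1) (Or.inr rfl) (r.iα h0)
      (r.potα h0) (by linarith [r.dleft h0])
    obtain ⟨δ, hδ, hnear⟩ := H.Nn_near (r.Npos h0)
    refine ⟨C, hC, K, hK, min ε₁ (min (δ / C) δ), lt_min hε₁ (lt_min (by positivity) hδ),
      fun ε => α - C * ε, ?_⟩
    intro ε hε
    have hε0 := hε.1
    have hε1 : ε ∈ Ioo 0 ε₁ := ⟨hε.1, hε.2.trans_le (min_le_left _ _)⟩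
    have hε2 : C * ε < δ := by
      have := hε.2.trans_le ((min_le_right _ _).trans (min_le_left _ _))
      rw [lt_div_iff₀ hC] at this
      linarith
    have hε3 : ε < δ := hε.2.trans_le ((min_le_right _ _).trans (min_le_right _ _))
    have hCε : 0 < C * ε := by positivity
    obtain ⟨hin, hrest⟩ := hmove ε hε1
    have e1 : α + -1 * (C * ε) = α - C * ε := by ring
    rw [e1] at hin hrest
    refine ⟨le_rfl, by linarith, hin.1.le, ?_⟩
    intro c' d' h1 h2 _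
    obtain ⟨hp1, hp2⟩ := hrest c' d' h1 h2
    refine ⟨(pot_nonpos_iff (H.fne hin) (H.hne hin) (H.ww_pos _)).1 hp1, ?_, ?_⟩
    · refine (hnear c' d' _ (h1.trans_lt hε3) (h2.trans_lt hε3) ?_).le
      rw [sub_sub_cancel_left, abs_neg, abs_of_pos hCε]
      exact hε2
    · intro x hx
      have h10 := hp2 (α - x) ⟨by linarith [hx.2], by linarith [hx.1]⟩
      have e2 : α + -1 * (α - x) = x := by ring
      rw [e2] at h10
      exact h10

/-- Moving the right end. -/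
lemma Cr.move_right (r : Cr L f h k a b B M σ m n c d α β) :
    ∃ C > 0, ∃ K ≥ 0, ∃ ε₀ > 0, ∃ D : ℝ → ℝ, ∀ ε ∈ Ioo 0 ε₀, β ≤ D ε ∧ D ε ≤ β + C * ε ∧
      D ε ≤ L ∧ (β < L → D ε < L) ∧ ∀ c' d', |c' - c| ≤ ε → |d' - d| ≤ ε → (β = L → d' = 0) →
        0 ≤ pol f h k c' d' (D ε) ∧ (σ : ℝ) * Nn f h k m n c' d' (D ε) ≤ 0 ∧
        ∀ x ∈ Ioo β (D ε), pot f h k c' d' x ≤ K * ε := by
  have A := r.A
  have H := r.C.H
  rcases eq_or_lt_of_le A.hβ with h0 | h0
  · refine ⟨1, one_pos, 0, le_rfl, 1, one_pos, fun _ => β, ?_⟩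
    intro ε hε
    refine ⟨le_rfl, by linarith [hε.1], A.hβ, fun h => h, ?_⟩
    intro c' d' _ _ h3
    have hd' : d' = 0 := h3 h0
    refine ⟨?_, ?_, ?_⟩
    · rw [h0, pol_L H, hd']; simp
    · rw [h0, Nn_L H, hd']; simp
    · intro x hx; exact absurd (hx.1.trans hx.2) (lt_irrefl _)
  · obtain ⟨C, hC, K, hK, ε₁, hε₁, hmove⟩ := H.end_move (s := 1) (Or.inl rfl) (r.iβ h0)
      (r.potβ h0) (by linarith [r.dright h0])
    have hneg : 0 < (-(σ : ℝ)) * Nn f h k m n c d β := by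
      have := r.Nneg h0
      linarith
    obtain ⟨δ, hδ, hnear⟩ := H.Nn_near hneg
    refine ⟨C, hC, K, hK, min ε₁ (min (δ / C) δ), lt_min hε₁ (lt_min (by positivity) hδ),
      fun ε => β + C * ε, ?_⟩
    intro ε hε
    have hε0 := hε.1
    have hε1 : ε ∈ Ioo 0 ε₁ := ⟨hε.1, hε.2.trans_le (min_le_left _ _)⟩
    have hε2 : C * ε < δ := by
      have := hε.2.trans_le ((min_le_right _ _).trans (min_le_left _ _))
      rw [lt_div_iff₀ hC] at this
      linarith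
    have hε3 : ε < δ := hε.2.trans_le ((min_le_right _ _).trans (min_le_right _ _))
    have hCε : 0 < C * ε := by positivity
    obtain ⟨hin, hrest⟩ := hmove ε hε1
    rw [one_mul] at hin hrest
    refine ⟨by linarith, le_rfl, hin.2.le, fun _ => hin.2, ?_⟩
    intro c' d' h1 h2 _
    obtain ⟨hp1, hp2⟩ := hrest c' d' h1 h2
    refine ⟨(pot_nonpos_iff (H.fne hin) (H.hne hin) (H.ww_pos _)).1 hp1, ?_, ?_⟩
    · have h3 := hnear c' d' (β + C * ε) (h1.trans_lt hε3) (h2.trans_lt hε3) (by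
        rw [add_sub_cancel_left, abs_of_pos hCε]; exact hε2)
      linarith
    · intro x hx
      have h10 := hp2 (x - β) ⟨by linarith [hx.1], by linarith [hx.2]⟩
      have e2 : β + 1 * (x - β) = x := by ring
      rw [e2] at h10
      exact h10

/-- Small changes of the momenta keep the inequalities which are strict. -/
lemma Cr.small (r : Cr L f h k a b B M σ m n c d α β) : ∃ ε₀ > 0, ∀ ε ∈ Ioo 0 ε₀, ∀ c' d',
    |c' - c| ≤ ε → |d' - d| ≤ ε → |c'| ≤ B ∧ |d'| ≤ B ∧ 0 ≤ (m : ℝ) * c' + n * d' ∧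
      (m : ℝ) * c' + n * d' ≤ a := by
  obtain ⟨hcB, hdB⟩ := r.C.bound r.A
  have h0 := r.ct_pos
  have h1 := r.ct
  set S := |(m : ℝ)| + |(n : ℝ)| + 1 with hS
  have hSp : 0 < S := by positivity
  refine ⟨min (min (B - |c|) (B - |d|)) (min ((m * c + n * d) / S) ((a - (m * c + n * d)) / S)),
    lt_min (lt_min (by linarith) (by linarith)) (lt_min (by positivity)
      (div_pos (by linarith) hSp)), ?_⟩
  intro ε hε c' d' hc hd
  have e1 : ε < B - |c| := hε.2.trans_le ((min_le_left _ _).trans (min_le_left _ _))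
  have e2 : ε < B - |d| := hε.2.trans_le ((min_le_left _ _).trans (min_le_right _ _))
  have e3 : ε < (m * c + n * d) / S := hε.2.trans_le ((min_le_right _ _).trans (min_le_left _ _))
  have e4 : ε < (a - (m * c + n * d)) / S :=
    hε.2.trans_le ((min_le_right _ _).trans (min_le_right _ _))
  rw [lt_div_iff₀ hSp] at e3 e4
  have k1 : |(m : ℝ) * (c' - c) + n * (d' - d)| ≤ ε * S := by
    refine (abs_add_le _ _).trans ?_
    rw [abs_mul, abs_mul]
    have i1 : |(m : ℝ)| * |c' - c| ≤ |(m : ℝ)| * ε := mul_le_mul_of_nonneg_left hc (abs_nonneg _)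
    have i2 : |(n : ℝ)| * |d' - d| ≤ |(n : ℝ)| * ε := mul_le_mul_of_nonneg_left hd (abs_nonneg _)
    have i3 := hε.1
    rw [hS]
    nlinarith
  have k2 := abs_le.1 k1
  refine ⟨?_, ?_, by linarith [k2.1], by linarith [k2.2]⟩
  · have : |c'| ≤ |c| + |c' - c| := by
      have := abs_add_le c (c' - c)
      rwa [add_sub_cancel] at this
    linarith
  · have : |d'| ≤ |d| + |d' - d| := by
      have := abs_add_le d (d' - d)
      rwa [add_sub_cancel] at this
    linarith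

/-- The momentum densities are continuous on the closed interval. -/
lemma Cr.PPc (r : Cr L f h k a b B M σ m n c d α β) :
    ContinuousOn (PP f h k c d) (Icc α β) :=
  fun x hx => (r.C.H.PP_contDiffAt (r.reg0 hx)).continuousAt.continuousWithinAt

lemma Cr.QQc (r : Cr L f h k a b B M σ m n c d α β) :
    ContinuousOn (QQ f h k c d) (Icc α β) :=
  fun x hx => (r.C.H.QQ_contDiffAt (r.reg1 hx)).continuousAt.continuousWithinAt

/-- First order condition, one sided. -/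
lemma Cr.foc (r : Cr L f h k a b B M σ m n c d α β) {v₁ v₂ : ℝ} (hv₁ : |v₁| ≤ 1)
    (hv₂ : |v₂| ≤ 1) (h1 : α = 0 → v₁ = 0) (h2 : β = L → v₂ = 0)
    (hint : ∀ g : ℝ → ℝ, ContinuousOn g (Icc α β) →
      IntervalIntegrable (fun x => g x / √(pot f h k c d x)) volume α β) :
    -(π / 2 * (m * v₁ + n * v₂)) ≤ ∫ x in α..β,
      (-2 * (v₁ * PP f h k c d x + v₂ * QQ f h k c d x)) / (2 * √(pot f h k c d x)) := by
  have A := r.A
  have H := r.C.H
  obtain ⟨C₁, hC₁, K₁, hK₁, ε₁, hε₁, a', ha'⟩ := r.move_left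
  obtain ⟨C₂, hC₂, K₂, hK₂, ε₂, hε₂, b', hb'⟩ := r.move_right
  obtain ⟨ε₃, hε₃, hsm⟩ := r.small
  set w : ℝ → ℝ := fun x => -2 * (v₁ * PP f h k c d x + v₂ * QQ f h k c d x) with hw
  have hwc : ContinuousOn w (Icc α β) :=
    continuousOn_const.mul ((continuousOn_const.mul r.PPc).add (continuousOn_const.mul r.QQc))
  obtain ⟨W, hW⟩ := isCompact_Icc.exists_bound_of_continuousOn hwc
  have hW0 : 0 ≤ W := (norm_nonneg _).trans (hW α ⟨le_rfl, r.lt.le⟩)
  set ε₀ := min (min ε₁ ε₂) (min ε₃ (1 / (W + 1))) with hε₀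
  have hε₀pos : 0 < ε₀ := lt_min (lt_min hε₁ hε₂) (lt_min hε₃ (by positivity))
  have g1 : ∀ ε ∈ Ioo 0 ε₀, ε ∈ Ioo 0 ε₁ := fun ε hε =>
    ⟨hε.1, hε.2.trans_le ((min_le_left _ _).trans (min_le_left _ _))⟩
  have g2 : ∀ ε ∈ Ioo 0 ε₀, ε ∈ Ioo 0 ε₂ := fun ε hε =>
    ⟨hε.1, hε.2.trans_le ((min_le_left _ _).trans (min_le_right _ _))⟩
  have g3 : ∀ ε ∈ Ioo 0 ε₀, ε ∈ Ioo 0 ε₃ := fun ε hε =>
    ⟨hε.1, hε.2.trans_le ((min_le_right _ _).trans (min_le_left _ _))⟩
  have g4 : ∀ ε ∈ Ioo 0 ε₀, ε < 1 / (W + 1) := fun ε hε =>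
    hε.2.trans_le ((min_le_right _ _).trans (min_le_right _ _))
  have hcd : ∀ ε ∈ Ioo 0 ε₀, |c + ε * v₁ - c| ≤ ε ∧ |d + ε * v₂ - d| ≤ ε := by
    intro ε hε
    have hε0 := hε.1.le
    constructor
    · rw [add_sub_cancel_left, abs_mul, abs_of_nonneg hε0]
      exact mul_le_of_le_one_right hε0 hv₁
    · rw [add_sub_cancel_left, abs_mul, abs_of_nonneg hε0]
      exact mul_le_of_le_one_right hε0 hv₂
  have hc0 : ∀ ε : ℝ, α = 0 → c + ε * v₁ = 0 := by
    intro ε h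
    rw [h1 h, r.c_zero h]; simp
  have hd0 : ∀ ε : ℝ, β = L → d + ε * v₂ = 0 := by
    intro ε h
    rw [h2 h, r.d_zero h]; simp
  have hL : ∀ ε ∈ Ioo 0 ε₀, 0 ≤ pol f h k (c + ε * v₁) (d + ε * v₂) (a' ε) ∧
      0 ≤ (σ : ℝ) * Nn f h k m n (c + ε * v₁) (d + ε * v₂) (a' ε) ∧
      ∀ x ∈ Ioo (a' ε) α, pot f h k (c + ε * v₁) (d + ε * v₂) x ≤ K₁ * ε := fun ε hε =>
    (ha' ε (g1 ε hε)).2.2.2 _ _ (hcd ε hε).1 (hcd ε hε).2 (hc0 ε)
  have hR : ∀ ε ∈ Ioo 0 ε₀, 0 ≤ pol f h k (c + ε * v₁) (d + ε * v₂) (b' ε) ∧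
      (σ : ℝ) * Nn f h k m n (c + ε * v₁) (d + ε * v₂) (b' ε) ≤ 0 ∧
      ∀ x ∈ Ioo β (b' ε), pot f h k (c + ε * v₁) (d + ε * v₂) x ≤ K₂ * ε := fun ε hε =>
    (hb' ε (g2 ε hε)).2.2.2.2 _ _ (hcd ε hε).1 (hcd ε hε).2 (hd0 ε)
  have hmeas := H.pot_meas c d
  refine var_any (ε₀ := ε₀) (C := C₁ + C₂) (K := K₁ + K₂) (W := W) (U := pot f h k c d)
    (V := fun ε x => pot f h k (c + ε * v₁) (d + ε * v₂) x) (a := a') (b := b') r.lt.le hε₀pos
    hW0 hmeas (fun x hx => r.potpos hx) ?_ ?_ ?_ ?_ ?_ ?_ (H.ii _ _ A.hα A.hαβ A.hβ)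
    (hint (fun _ => 1) continuousOn_const) ?_ ?_ ?_
  · intro ε hε x hx
    have h3 := hW x ⟨hx.1.le, hx.2.le⟩
    rw [Real.norm_eq_abs] at h3
    have h4 := g4 ε hε
    rw [lt_div_iff₀ (by positivity)] at h4
    have h5 : |w x + ε * W| ≤ |w x| + ε * W := by
      refine (abs_add_le _ _).trans ?_
      rw [abs_of_nonneg (mul_nonneg hε.1.le hW0)]
    nlinarith [hε.1]
  · intro ε hε x hx
    have hε0 := hε.1
    have h3 : 0 ≤ nrm f h k v₁ v₂ x :=
      TIS.nrm_nonneg (H.fne (r.ioo hx)) (H.hne (r.ioo hx)) (H.ww_pos x)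
    have h4 := mul_nonneg (sq_nonneg ε) h3
    have h5 : 0 ≤ ε * (ε * W) := by positivity
    rw [pot_expand]
    have e : ε * (w x + ε * W)
        = ε * (-2 * (v₁ * PP f h k c d x + v₂ * QQ f h k c d x)) + ε * (ε * W) := by
      rw [hw]; ring
    rw [e]
    linarith
  · intro ε hε
    have h3 := ha' ε (g1 ε hε)
    have hε0 := hε.1
    exact ⟨by nlinarith [h3.1], h3.2.1⟩
  · intro ε hε
    have h3 := hb' ε (g2 ε hε)
    have hε0 := hε.1
    exact ⟨h3.1, by nlinarith [h3.2.1]⟩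
  · intro ε hε x hx
    have hε0 := hε.1
    exact ((hL ε hε).2.2 x hx).trans (by nlinarith)
  · intro ε hε x hx
    have hε0 := hε.1
    exact ((hR ε hε).2.2 x hx).trans (by nlinarith)
  · have e : (fun x => w x / (2 * √(pot f h k c d x)))
        = fun x => (w x / 2) / √(pot f h k c d x) := by
      funext x; rw [div_div]
    rw [e]
    exact hint (fun x => w x / 2) (hwc.div_const 2)
  · intro ε hε
    have h3 := ha' ε (g1 ε hε)
    have h4 := hb' ε (g2 ε hε)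
    exact H.ii _ _ h3.2.2.1 (by linarith [h3.2.1, h4.1, r.lt]) h4.2.2.1
  · intro ε hε
    have hε0 := hε.1
    have h3 := ha' ε (g1 ε hε)
    have h4 := hb' ε (g2 ε hε)
    obtain ⟨s1, s2, s3, s4⟩ := hsm ε (g3 ε hε) _ _ (hcd ε hε).1 (hcd ε hε).2
    have hle : a' ε ≤ b' ε := by linarith [h3.2.1, h4.1, r.lt]
    have hadm : Adm L f h k a b B M σ m n (c + ε * v₁) (d + ε * v₂) (a' ε) (b' ε) :=
      ⟨A.hσ, A.hm, A.hn, A.hmM, A.hnM, s1, s2, s3, s4, h3.2.2.1, hle, h4.2.2.1,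
        A.hbβ.trans h4.1, h3.2.1.trans A.hbα, (hL ε hε).1, (hR ε hε).1, (hL ε hε).2.1,
        (hR ε hε).2.1⟩
    have h5 := r.isMin _ _ _ _ _ _ _ hadm
    unfold fun1 at h5
    rw [r.act_eq, H.act_eq _ _ h3.2.2.1 hle h4.2.2.1] at h5
    have h6 : π * ((m : ℝ) * (c + ε * v₁) + n * (d + ε * v₂))
        = π * (m * c + n * d) + 2 * (π / 2 * (m * v₁ + n * v₂) * ε) := by ring
    rw [h6] at h5
    linarith

/-- First order condition. -/
lemma Cr.foc_eq (r : Cr L f h k a b B M σ m n c d α β) {v₁ v₂ : ℝ} (hv₁ : |v₁| ≤ 1)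
    (hv₂ : |v₂| ≤ 1) (h1 : α = 0 → v₁ = 0) (h2 : β = L → v₂ = 0)
    (hint : ∀ g : ℝ → ℝ, ContinuousOn g (Icc α β) →
      IntervalIntegrable (fun x => g x / √(pot f h k c d x)) volume α β) :
    ∫ x in α..β, (v₁ * PP f h k c d x + v₂ * QQ f h k c d x) / √(pot f h k c d x)
      = π / 2 * (m * v₁ + n * v₂) := by
  have e1 : (fun x => (-2 * (v₁ * PP f h k c d x + v₂ * QQ f h k c d x))
      / (2 * √(pot f h k c d x)))
      = fun x => -((v₁ * PP f h k c d x + v₂ * QQ f h k c d x) / √(pot f h k c d x)) := by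
    funext x
    have : -2 * (v₁ * PP f h k c d x + v₂ * QQ f h k c d x)
        = 2 * (-(v₁ * PP f h k c d x + v₂ * QQ f h k c d x)) := by ring
    rw [this, mul_div_mul_left _ _ two_ne_zero, neg_div]
  have e2 : (fun x => (-2 * (-v₁ * PP f h k c d x + -v₂ * QQ f h k c d x))
      / (2 * √(pot f h k c d x)))
      = fun x => (v₁ * PP f h k c d x + v₂ * QQ f h k c d x) / √(pot f h k c d x) := by
    funext x
    have : -2 * (-v₁ * PP f h k c d x + -v₂ * QQ f h k c d x)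
        = 2 * (v₁ * PP f h k c d x + v₂ * QQ f h k c d x) := by ring
    rw [this, mul_div_mul_left _ _ two_ne_zero]
  have k1 := r.foc hv₁ hv₂ h1 h2 hint
  have k2 := r.foc (v₁ := -v₁) (v₂ := -v₂) (by rw [abs_neg]; exact hv₁)
    (by rw [abs_neg]; exact hv₂) (fun h => by rw [h1 h, neg_zero])
    (fun h => by rw [h2 h, neg_zero]) hint
  rw [e1, intervalIntegral.integral_neg] at k1
  rw [e2] at k2
  have e3 : -(π / 2 * ((m : ℝ) * -v₁ + n * -v₂)) = π / 2 * (m * v₁ + n * v₂) := by ring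
  rw [e3] at k2
  linarith

/-- The value of the functional in terms of the integral of `1/√U`. -/
lemma Cr.value (r : Cr L f h k a b B M σ m n c d α β)
    (hint : ∀ g : ℝ → ℝ, ContinuousOn g (Icc α β) →
      IntervalIntegrable (fun x => g x / √(pot f h k c d x)) volume α β)
    (h1 : c * ∫ x in α..β, PP f h k c d x / √(pot f h k c d x) = c * (π / 2 * m))
    (h2 : d * ∫ x in α..β, QQ f h k c d x / √(pot f h k c d x) = d * (π / 2 * n)) :
    fun1 f h k m n c d α β = 2 * ∫ x in α..β, 1 / √(pot f h k c d x) := by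
  have i1 := hint _ r.PPc
  have i2 := hint _ r.QQc
  have H := r.C.H
  have hsum : ∫ x in α..β, 1 / √(pot f h k c d x)
      = act f h k c d α β + (c * (∫ x in α..β, PP f h k c d x / √(pot f h k c d x))
        + d * ∫ x in α..β, QQ f h k c d x / √(pot f h k c d x)) := by
    rw [r.act_eq, ← intervalIntegral.integral_const_mul, ← intervalIntegral.integral_const_mul,
      ← intervalIntegral.integral_add (i1.const_mul c) (i2.const_mul d),
      ← intervalIntegral.integral_add (H.ii _ _ r.A.hα r.A.hαβ r.A.hβ)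
        ((i1.const_mul c).add (i2.const_mul d))]
    rw [intervalIntegral.integral_of_le r.lt.le, intervalIntegral.integral_of_le r.lt.le,
      integral_Ioc_eq_integral_Ioo, integral_Ioc_eq_integral_Ioo]
    refine setIntegral_congr_fun measurableSet_Ioo ?_
    intro x hx
    have hp := r.potpos hx
    have hs := Real.sqrt_pos.2 hp
    have hsq : √(pot f h k c d x) ^ 2 = pot f h k c d x := Real.sq_sqrt hp.le
    simp only
    have e3 : √(pot f h k c d x) + (c * (PP f h k c d x / √(pot f h k c d x))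
        + d * (QQ f h k c d x / √(pot f h k c d x)))
        = (√(pot f h k c d x) ^ 2 + (c * PP f h k c d x + d * QQ f h k c d x))
          / √(pot f h k c d x) := by
      field_simp
    rw [e3, hsq, ← nrm_eq_PQ]
    congr 1
    unfold pot
    ring
  rw [hsum, h1, h2]
  unfold fun1
  ring

end

end TIS
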